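import Mathlib

open Finset

namespace Pool.Agent.Lib.MP_2c0425_lc

variable {V : Type*}

/-- The graph with the edges of `G` that have both ends in `C`. -/
def rst (G : SimpleGraph V) (C : Finset V) : SimpleGraph V where
  Adj a b := G.Adj a b ∧ a ∈ C ∧ b ∈ C
  symm := ⟨fun _ _ h => ⟨h.1.symm, h.2.2, h.2.1⟩⟩
  loopless := ⟨fun a h => G.loopless.irrefl a h.1⟩

lemma rst_adj {G : SimpleGraph V} {C : Finset V} {a b : V} :
    (rst G C).Adj a b ↔ G.Adj a b ∧ a ∈ C ∧ b ∈ C := Iff.rfl

lemma rst_mono {G : SimpleGraph V} {C D : Finset V} (h : C ⊆ D) : rst G C ≤ rst G D :=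
  fun _ _ hab => ⟨hab.1, h hab.2.1, h hab.2.2⟩

lemma rst_congr {G G' : SimpleGraph V} {C : Finset V}
    (h : ∀ a ∈ C, ∀ b ∈ C, (G.Adj a b ↔ G'.Adj a b)) : rst G C = rst G' C := by
  ext a b
  constructor
  · rintro ⟨h1, h2, h3⟩
    exact ⟨(h a h2 b h3).1 h1, h2, h3⟩
  · rintro ⟨h1, h2, h3⟩
    exact ⟨(h a h2 b h3).2 h1, h2, h3⟩

/-- `G` has no odd closed walk inside `C`. -/
def NoOdd (G : SimpleGraph V) (C : Finset V) : Prop :=
  ∀ x, ∀ p : (rst G C).Walk x x, ¬ Odd p.length

/-- `G` has no odd closed walk of length at most `K` inside `C`. -/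
def NoShortOdd (K : ℕ) (G : SimpleGraph V) (C : Finset V) : Prop :=
  ∀ x, ∀ p : (rst G C).Walk x x, p.length ≤ K → ¬ Odd p.length

lemma NoShortOdd.mono {K : ℕ} {G : SimpleGraph V} {C D : Finset V} (h : NoShortOdd K G D)
    (hCD : C ⊆ D) : NoShortOdd K G C := by
  intro x p hp hodd
  have := h x (p.mapLe (rst_mono hCD))
  rw [SimpleGraph.Walk.length_map] at this
  exact this hp hodd

/-- `h` is a proper colouring of `G`. -/
def Prp (G : SimpleGraph V) (h : V → Fin 3) : Prop := ∀ a b, G.Adj a b → h a ≠ h b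

/-- `b` is reached from `a` by an odd walk inside `C`. -/
def OR (G : SimpleGraph V) (C : Finset V) (a b : V) : Prop :=
  ∃ p : (rst G C).Walk a b, Odd p.length

/-- `b` is reached from `a` by an even walk inside `C`. -/
def ER (G : SimpleGraph V) (C : Finset V) (a b : V) : Prop :=
  ∃ p : (rst G C).Walk a b, Even p.length

lemma OR.mono {G : SimpleGraph V} {C D : Finset V} {a b : V} (h : OR G C a b) (hCD : C ⊆ D) :
    OR G D a b := by
  obtain ⟨p, hp⟩ := h
  exact ⟨p.mapLe (rst_mono hCD), by rw [SimpleGraph.Walk.length_map]; exact hp⟩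

lemma ER.mono {G : SimpleGraph V} {C D : Finset V} {a b : V} (h : ER G C a b) (hCD : C ⊆ D) :
    ER G D a b := by
  obtain ⟨p, hp⟩ := h
  exact ⟨p.mapLe (rst_mono hCD), by rw [SimpleGraph.Walk.length_map]; exact hp⟩

lemma OR.symm {G : SimpleGraph V} {C : Finset V} {a b : V} (h : OR G C a b) : OR G C b a := by
  obtain ⟨p, hp⟩ := h
  exact ⟨p.reverse, by rwa [SimpleGraph.Walk.length_reverse]⟩

lemma ER.symm {G : SimpleGraph V} {C : Finset V} {a b : V} (h : ER G C a b) : ER G C b a := by
  obtain ⟨p, hp⟩ := h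
  exact ⟨p.reverse, by rwa [SimpleGraph.Walk.length_reverse]⟩

lemma OR.trans {G : SimpleGraph V} {C : Finset V} {a b d : V} (h : OR G C a b)
    (h' : OR G C b d) : ER G C a d := by
  obtain ⟨p, hp⟩ := h
  obtain ⟨q, hq⟩ := h'
  exact ⟨p.append q, by rw [SimpleGraph.Walk.length_append]; exact hp.add_odd hq⟩

lemma OR.trans_er {G : SimpleGraph V} {C : Finset V} {a b d : V} (h : OR G C a b)
    (h' : ER G C b d) : OR G C a d := by
  obtain ⟨p, hp⟩ := h
  obtain ⟨q, hq⟩ := h'
  exact ⟨p.append q, by rw [SimpleGraph.Walk.length_append]; exact hp.add_even hq⟩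

lemma NoOdd.not_or {G : SimpleGraph V} {C : Finset V} (h : NoOdd G C) (x : V) :
    ¬ OR G C x x := by
  rintro ⟨p, hp⟩
  exact h x p hp

lemma er_or_or {G : SimpleGraph V} {C : Finset V} {a b : V} (h : (rst G C).Reachable a b) :
    ER G C a b ∨ OR G C a b := by
  obtain ⟨p⟩ := h
  rcases Nat.even_or_odd p.length with hp | hp
  · exact Or.inl ⟨p, hp⟩
  · exact Or.inr ⟨p, hp⟩

lemma ER.reach {G : SimpleGraph V} {C : Finset V} {a b : V} (h : ER G C a b) :
    (rst G C).Reachable a b := ⟨h.choose⟩

lemma OR.reach {G : SimpleGraph V} {C : Finset V} {a b : V} (h : OR G C a b) :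
    (rst G C).Reachable a b := ⟨h.choose⟩

lemma reach_mono {G : SimpleGraph V} {C D : Finset V} {a b : V} (hCD : C ⊆ D)
    (h : (rst G C).Reachable a b) : (rst G D).Reachable a b := h.mono (rst_mono hCD)

/-- A class all of whose members avoid a colour under a proper colouring has no odd closed
walk. -/
lemma noOdd_of_two {G : SimpleGraph V} {C : Finset V} {h : V → Fin 3} (hp : Prp G h)
    {k : Fin 3} (hk : ∀ x ∈ C, h x ≠ k) : NoOdd G C := by
  have hwalk : ∀ x y (p : (rst G C).Walk x y), x ∈ C →
      (Even p.length → h y = h x) ∧ (Odd p.length → h y ≠ h x) := by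
    intro x y p
    induction p with
    | nil => intro _; simp
    | @cons a b d hab p ih =>
      intro ha
      have hb : b ∈ C := hab.2.2
      have hne := hp a b hab.1
      obtain ⟨ih1, ih2⟩ := ih hb
      have hka := hk a ha
      have hkb := hk b hb
      have hd : d ∈ C := by
        rcases Nat.eq_zero_or_pos p.length with h0 | hpos
        · have := SimpleGraph.Walk.eq_of_length_eq_zero h0
          exact this ▸ hb
        · have hlast := p.toSubgraph
          cases p using SimpleGraph.Walk.concatRec with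
          | Hnil => exact hb
          | Hconcat q hq => exact hq.2.2
      have hkd := hk d hd
      rw [SimpleGraph.Walk.length_cons]
      constructor
      · intro he
        have ho : Odd p.length := by
          rcases Nat.even_or_odd p.length with h1 | h1
          · exact absurd he (by rw [Nat.even_add_one]; exact not_not.2 h1)
          · exact h1
        have h2 := ih2 ho
        have : ∀ a b d k : Fin 3, a ≠ b → d ≠ b → a ≠ k → b ≠ k → d ≠ k → d = a := by decide
        exact this _ _ _ _ hne h2 hka hkb hkd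
      · intro ho
        have he : Even p.length := by
          rcases Nat.even_or_odd p.length with h1 | h1
          · exact h1
          · exact absurd ho (by rw [Nat.odd_add_one]; exact not_not.2 h1)
        rw [ih1 he]
        exact hne.symm
  intro x p hodd
  have hx : x ∈ C := by
    cases p with
    | nil => simp at hodd
    | cons hab q => exact hab.2.1
  exact (hwalk x x p hx).2 hodd rfl

end Pool.Agent.Lib.MP_2c0425_lc
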