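import Pool.Agent.Lib.MP_2c0425_lc.Basic

open Finset

namespace Pool.Agent.Lib.MP_2c0425_lc

open Classical in
/-- The elements of `C` up to `v`. -/
noncomputable def dn {V : Type*} [LinearOrder V] (C : Finset V) (v : V) : Finset V :=
  C.filter (fun u => u ≤ v)

variable {V : Type*} [LinearOrder V]

lemma mem_dn {C : Finset V} {v u : V} : u ∈ dn C v ↔ u ∈ C ∧ u ≤ v := by
  simp [dn]

lemma dn_subset (C : Finset V) (v : V) : dn C v ⊆ C := fun _ h => (mem_dn.1 h).1

lemma dn_mono (C : Finset V) {u v : V} (h : u ≤ v) : dn C u ⊆ dn C v :=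
  fun _ hx => mem_dn.2 ⟨(mem_dn.1 hx).1, (mem_dn.1 hx).2.trans h⟩

/-- Every vertex of `C` gets the least colour that does not occur earlier on the other side of
its component. -/
def InvBip (G : SimpleGraph V) (C : Finset V) (c : V → ℕ) : Prop :=
  ∀ v ∈ C, (∀ u ∈ C, u < v → OR G (dn C v) v u → c u ≠ c v) ∧
    ∀ a < c v, ∃ u ∈ C, u < v ∧ OR G (dn C v) v u ∧ c u = a

lemma InvBip.congr {G G' : SimpleGraph V} {C : Finset V} {c c' : V → ℕ}
    (hG : ∀ a ∈ C, ∀ b ∈ C, (G.Adj a b ↔ G'.Adj a b)) (hc : ∀ a ∈ C, c a = c' a)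
    (h : InvBip G C c) : InvBip G' C c' := by
  intro v hv
  have hr : rst G (dn C v) = rst G' (dn C v) :=
    rst_congr fun a ha b hb => hG a (dn_subset _ _ ha) b (dn_subset _ _ hb)
  have hor : ∀ u, OR G (dn C v) v u ↔ OR G' (dn C v) v u := by
    intro u
    unfold OR
    rw [hr]
  obtain ⟨h1, h2⟩ := h v hv
  refine ⟨?_, ?_⟩
  · intro u hu huv hou
    rw [← hc u hu, ← hc v hv]
    exact h1 u hu huv ((hor u).2 hou)
  · intro a ha
    rw [← hc v hv] at ha
    obtain ⟨u, hu, huv, hou, hcu⟩ := h2 a ha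
    exact ⟨u, hu, huv, (hor u).1 hou, by rw [← hc u hu]; exact hcu⟩

lemma InvBip.empty (G : SimpleGraph V) (c : V → ℕ) : InvBip G ∅ c := by
  intro v hv
  simp at hv

lemma InvBip.proper {G : SimpleGraph V} {C : Finset V} {c : V → ℕ} (h : InvBip G C c) :
    ∀ a ∈ C, ∀ b ∈ C, G.Adj a b → c a ≠ c b := by
  have key : ∀ a ∈ C, ∀ b ∈ C, a < b → G.Adj a b → c a ≠ c b := by
    intro a ha b hb hab hadj
    refine (h b hb).1 a ha hab ?_
    have hadj' : (rst G (dn C b)).Adj b a :=
      ⟨hadj.symm, mem_dn.2 ⟨hb, le_rfl⟩, mem_dn.2 ⟨ha, hab.le⟩⟩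
    exact ⟨hadj'.toWalk, by simp⟩
  intro a ha b hb hadj
  rcases lt_trichotomy a b with hlt | heq | hgt
  · exact key a ha b hb hlt hadj
  · exact absurd (heq ▸ hadj) (G.loopless.irrefl _)
  · exact (key b hb a ha hgt hadj.symm).symm

lemma dn_insert_of_lt {C : Finset V} {v u : V} (huv : u < v) :
    dn (insert v C) u = dn C u := by
  ext x
  simp only [mem_dn, Finset.mem_insert]
  constructor
  · rintro ⟨h1 | h1, h2⟩
    · exact absurd (h1 ▸ h2) (not_le.2 huv)
    · exact ⟨h1, h2⟩
  · rintro ⟨h1, h2⟩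
    exact ⟨Or.inr h1, h2⟩

lemma InvBip.step {G : SimpleGraph V} {C : Finset V} {c : V → ℕ} (h : InvBip G C c) {v : V}
    (hv : ∀ u ∈ C, u < v) : ∃ a, InvBip G (insert v C) (Function.update c v a) := by
  classical
  have hvC : v ∉ C := fun hh => lt_irrefl _ (hv v hh)
  let B : Finset ℕ := (C.filter (fun u => OR G (dn (insert v C) v) v u)).image c
  have hex : ∃ a, a ∉ B := Infinite.exists_notMem_finset B
  refine ⟨Nat.find hex, ?_⟩
  have h1 := Nat.find_spec hex
  have h2 : ∀ a < Nat.find hex, a ∈ B := fun a ha => by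
    by_contra hcon
    exact Nat.find_min hex ha hcon
  intro x hx
  rw [Finset.mem_insert] at hx
  rcases hx with rfl | hx
  · refine ⟨?_, ?_⟩
    · intro u hu huv hou
      have huC : u ∈ C := by
        rw [Finset.mem_insert] at hu
        rcases hu with rfl | hu
        · exact absurd huv (lt_irrefl _)
        · exact hu
      rw [Function.update_self, Function.update_of_ne huv.ne]
      intro hcon
      exact h1 (hcon ▸ Finset.mem_image.2 ⟨u, Finset.mem_filter.2 ⟨huC, hou⟩, rfl⟩)
    · intro a ha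
      rw [Function.update_self] at ha
      obtain ⟨u, hu, hcu⟩ := Finset.mem_image.1 (h2 a ha)
      rw [Finset.mem_filter] at hu
      exact ⟨u, Finset.mem_insert_of_mem hu.1, hv u hu.1, hu.2, by
        rw [Function.update_of_ne (hv u hu.1).ne]; exact hcu⟩
  · have hxv := hv x hx
    obtain ⟨h3, h4⟩ := h x hx
    rw [dn_insert_of_lt hxv]
    refine ⟨?_, ?_⟩
    · intro u hu hux hou
      have huv : u < v := hux.trans hxv
      have huC : u ∈ C := by
        rw [Finset.mem_insert] at hu
        rcases hu with rfl | hu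
        · exact absurd huv (lt_irrefl _)
        · exact hu
      rw [Function.update_of_ne huv.ne, Function.update_of_ne hxv.ne]
      exact h3 u huC hux hou
    · intro a ha
      rw [Function.update_of_ne hxv.ne] at ha
      obtain ⟨u, hu, hux, hou, hcu⟩ := h4 a ha
      exact ⟨u, Finset.mem_insert_of_mem hu, hux, hou, by
        rw [Function.update_of_ne (hv u hu).ne]; exact hcu⟩

open Classical in
/-- The component of `v` at its arrival. -/
noncomputable def comp (G : SimpleGraph V) (C : Finset V) (v : V) : Finset V :=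
  C.filter (fun u => (rst G (dn C v)).Reachable v u)

lemma mem_comp {G : SimpleGraph V} {C : Finset V} {v u : V} :
    u ∈ comp G C v ↔ u ∈ C ∧ (rst G (dn C v)).Reachable v u := by
  simp [comp]

lemma comp_subset {G : SimpleGraph V} {C : Finset V} {u v : V} (huv : u ≤ v)
    (h : (rst G (dn C v)).Reachable v u) : comp G C u ⊆ comp G C v := by
  intro x hx
  rw [mem_comp] at hx ⊢
  exact ⟨hx.1, h.trans (reach_mono (dn_mono C huv) hx.2)⟩

/-- two vertices with the same colour on different sides have disjoint components. -/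
lemma comp_disjoint {G : SimpleGraph V} {C : Finset V} {c : V → ℕ} (h : InvBip G C c)
    (hno : NoOdd G C) {v a b : V} (ha : a ∈ C) (hb : b ∈ C) (hav : a ≤ v) (hbv : b ≤ v)
    (hcab : c a = c b) (hor : OR G (dn C v) a b) : Disjoint (comp G C a) (comp G C b) := by
  have key : ∀ a ∈ C, ∀ b ∈ C, a ≤ v → b ≤ v → c a = c b → OR G (dn C v) a b → a < b →
      Disjoint (comp G C a) (comp G C b) := by
    intro a ha b hb hav hbv hcab hor hab
    rw [Finset.disjoint_left]
    intro x hxa hxb
    rw [mem_comp] at hxa hxb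
    have hr : (rst G (dn C b)).Reachable b a :=
      hxb.2.trans (reach_mono (dn_mono C hab.le) hxa.2).symm
    rcases er_or_or hr with he | ho
    · have h1 : OR G (dn C v) a a := hor.trans_er (he.mono (dn_mono C hbv))
      exact (hno.not_or a) (h1.mono (dn_subset C v))
    · exact (h b hb).1 a ha hab ho hcab
  rcases lt_trichotomy a b with hlt | heq | hgt
  · exact key a ha b hb hav hbv hcab hor hlt
  · subst heq
    exact absurd (hor.mono (dn_subset C v)) (hno.not_or a)
  · exact (key b hb a ha hbv hav hcab.symm hor.symm hgt).symm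

lemma InvBip.comp_card {G : SimpleGraph V} [WellFoundedLT V] {C : Finset V} {c : V → ℕ}
    (h : InvBip G C c) (hno : NoOdd G C) :
    ∀ v ∈ C, 2 ^ (c v / 2) ≤ (comp G C v).card := by
  intro v
  induction v using WellFoundedLT.induction with
  | ind v ih =>
    intro hv
    have hself : v ∈ comp G C v := mem_comp.2 ⟨hv, SimpleGraph.Reachable.refl v⟩
    rcases Nat.eq_zero_or_pos (c v / 2) with h0 | hpos
    · rw [h0, pow_zero]
      exact Finset.card_pos.2 ⟨v, hself⟩
    · obtain ⟨j, hj⟩ : ∃ j, c v / 2 = j + 1 := ⟨c v / 2 - 1, by omega⟩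
      have hc1 : 2 * j + 1 < c v := by omega
      have hc0 : 2 * j < c v := by omega
      obtain ⟨u1, hu1, hu1v, hor1, hcu1⟩ := (h v hv).2 _ hc1
      obtain ⟨u3, hu3, hu3v, hor3, hcu3⟩ := (h v hv).2 _ hc0
      obtain ⟨u2, hu2, hu2u1, hor2, hcu2⟩ := (h u1 hu1).2 (2 * j) (by omega)
      have hu2v : u2 < v := hu2u1.trans hu1v
      have her : ER G (dn C v) v u2 := hor1.trans (hor2.mono (dn_mono C hu1v.le))
      have hor23 : OR G (dn C v) u3 u2 := hor3.symm.trans_er her
      have hdis := comp_disjoint h hno hu3 hu2 hu3v.le hu2v.le (by rw [hcu3, hcu2]) hor23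
      have h2 := ih u2 hu2v hu2
      have h3 := ih u3 hu3v hu3
      have hs2 : comp G C u2 ⊆ comp G C v := comp_subset hu2v.le her.reach
      have hs3 : comp G C u3 ⊆ comp G C v := comp_subset hu3v.le hor3.reach
      have hun : (comp G C u3 ∪ comp G C u2).card ≤ (comp G C v).card :=
        Finset.card_le_card (Finset.union_subset hs3 hs2)
      rw [Finset.card_union_of_disjoint hdis] at hun
      rw [hcu2] at h2
      rw [hcu3] at h3
      rw [hj]
      have : 2 * j / 2 = j := by omega
      rw [this] at h2 h3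
      rw [pow_succ]
      omega

lemma InvBip.bound {G : SimpleGraph V} [WellFoundedLT V] {C : Finset V} {c : V → ℕ}
    (h : InvBip G C c) (hno : NoOdd G C) {v : V} (hv : v ∈ C) :
    c v < 2 * (Nat.log 2 C.card + 1) := by
  have h1 := h.comp_card hno v hv
  have h2 : (comp G C v).card ≤ C.card := Finset.card_le_card (by
    intro x hx
    exact (mem_comp.1 hx).1)
  have h3 : c v / 2 ≤ Nat.log 2 C.card := Nat.le_log_of_pow_le (by norm_num) (h1.trans h2)
  omega

end Pool.Agent.Lib.MP_2c0425_lc
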