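import Pool.Agent.Lib.MP_2c0425_lc.Mass

open Finset

namespace Pool.Agent.Lib.MP_2c0425_lc

/-- Conditions on the parameters. -/
structure ParOK (P : Par) (ξ : ℝ) : Prop where
  hw : 0 < P.w
  hr : 0 < P.r0
  hth : 0 < P.th
  hwr : P.w = P.th * P.r0
  hs0 : 0 < P.s0
  hd : 0 < P.d
  hθ0 : 0 < P.θ
  hθ1 : P.θ ≤ 1
  hΓ : 0 ≤ P.Γ
  hξ : 0 < ξ
  hx : 0 < P.xi2
  hτ : 8 ≤ P.τ * P.xi2
  hA : 3 ^ 25 * Real.exp (-P.Γ * (P.θ * P.w / 50)) ≤ 1 / 4
  hB : 3 ^ 25 * Real.exp (P.Γ * (25 * (P.θ * P.w))) * (25 * P.xi2 / ξ ^ 2) ≤ 1 / 4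
  hC : 25 * (3 * ξ + 76 * P.θ) ≤ 7 / 144 - 1 / 50

/-- Installing the vertex `z`. -/
noncomputable def instO (θ : ℝ) (W : ℕ → Finset ℕ) (om : ℕ → ℕ → ℝ) (z : ℕ) : ℕ → ℕ → ℝ :=
  fun u y => if u ∈ W z then (1 - θ) * om u y + (if y = z then θ else 0) else om u y

lemma OmI.mono {U Z Z' : Finset ℕ} {Dst Dst' : ℕ → Finset ℕ} {om : ℕ → ℕ → ℝ}
    (h : OmI U Z Dst om) (hZ : Z ⊆ Z') (hD : ∀ y ∈ Z, Dst' y = Dst y) :
    OmI U Z' Dst' om := by
  refine ⟨h.h0, ?_, ?_⟩
  · intro u hu
    rw [← h.h1 u hu]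
    symm
    apply Finset.sum_subset hZ
    intro y _ hy
    by_contra hne
    exact hy (h.h2 u hu y hne).1
  · intro u hu y hy
    obtain ⟨h1, h2⟩ := h.h2 u hu y hy
    exact ⟨hZ h1, by rw [hD y h1]; exact h2⟩

lemma OmI.inst {U Z : Finset ℕ} {Dst W : ℕ → Finset ℕ} {om : ℕ → ℕ → ℝ}
    (h : OmI U Z Dst om) {θ : ℝ} (hθ0 : 0 ≤ θ) (hθ1 : θ ≤ 1) {z : ℕ} (hz : z ∈ Z)
    (hW : W z = Dst z) : OmI U Z Dst (instO θ W om z) := by
  constructor
  · intro u hu y
    unfold instO
    have h1 := h.h0 u hu y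
    have h2 : 0 ≤ (1 - θ) * om u y := mul_nonneg (by linarith) h1
    split_ifs
    · linarith
    · linarith
    · exact h1
  · intro u hu
    unfold instO
    by_cases h1 : u ∈ W z
    · simp only [if_pos h1]
      rw [Finset.sum_add_distrib, ← Finset.mul_sum, h.h1 u hu, Finset.sum_ite_eq', if_pos hz]
      ring
    · simp only [if_neg h1]
      exact h.h1 u hu
  · intro u hu y
    unfold instO
    by_cases h1 : u ∈ W z
    · simp only [if_pos h1]
      by_cases h2 : y = z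
      · intro _
        subst h2
        exact ⟨hz, hW ▸ h1⟩
      · rw [if_neg h2, add_zero]
        intro h3
        exact h.h2 u hu y (fun h4 => h3 (by rw [h4, mul_zero]))
    · simp only [if_neg h1]
      exact h.h2 u hu y

lemma OmI.fold {U Z : Finset ℕ} {Dst W : ℕ → Finset ℕ} {θ : ℝ} (hθ0 : 0 ≤ θ) (hθ1 : θ ≤ 1)
    (l : List ℕ) (hl : ∀ z ∈ l, z ∈ Z ∧ W z = Dst z) :
    ∀ om : ℕ → ℕ → ℝ, OmI U Z Dst om → OmI U Z Dst (l.foldl (instO θ W) om) := by
  induction l with
  | nil => intro om h; exact h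
  | cons z l ih =>
    intro om h
    rw [List.foldl_cons]
    have hz := hl z List.mem_cons_self
    exact ih (fun z' hz' => hl z' (List.mem_cons_of_mem _ hz')) _ (h.inst hθ0 hθ1 hz.1 hz.2)

lemma prof_inst {Z : Finset ℕ} {W : ℕ → Finset ℕ} {θ : ℝ} (om : ℕ → ℕ → ℝ) {z : ℕ}
    (hz : z ∈ Z) (H : ℕ → Fin 3) :
    (fun u => prof Z (instO θ W om z u) H) =
      inst θ (fun u => prof Z (om u) H) (W z, H z) := by
  funext u c
  unfold inst prof instO
  by_cases h1 : u ∈ W z
  · simp only [if_pos h1]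
    rw [Finset.mul_sum]
    have : ∀ y ∈ Z, (if H y = c then (1 - θ) * om u y + (if y = z then θ else 0) else 0) =
        (1 - θ) * (if H y = c then om u y else 0) +
          (if y = z then (if H y = c then θ else 0) else 0) := by
      intro y _
      split_ifs <;> simp
    rw [Finset.sum_congr rfl this, Finset.sum_add_distrib, Finset.sum_ite_eq', if_pos hz]
    congr 1
    by_cases h2 : H z = c
    · rw [if_pos h2, if_pos h2.symm]
    · rw [if_neg h2, if_neg (fun h3 => h2 h3.symm)]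
  · simp only [if_neg h1]

lemma prof_fold {Z : Finset ℕ} {W : ℕ → Finset ℕ} {θ : ℝ} (H : ℕ → Fin 3) (l : List ℕ)
    (hl : ∀ z ∈ l, z ∈ Z) : ∀ om : ℕ → ℕ → ℝ,
    (fun u => prof Z (l.foldl (instO θ W) om u) H) =
      (l.map (fun z => (W z, H z))).foldl (inst θ) (fun u => prof Z (om u) H) := by
  induction l with
  | nil => intro om; rfl
  | cons z l ih =>
    intro om
    rw [List.foldl_cons, List.map_cons, List.foldl_cons,
      ih (fun z' hz' => hl z' (List.mem_cons_of_mem _ hz')), prof_inst om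
        (hl z List.mem_cons_self)]

lemma prof_ext {U Z Z' : Finset ℕ} {Dst : ℕ → Finset ℕ} {om : ℕ → ℕ → ℝ}
    (h : OmI U Z Dst om) (hZ : Z ⊆ Z') {u : ℕ} (hu : u ∈ U) (H : ℕ → Fin 3) (c : Fin 3) :
    prof Z' (om u) (restr Z' H) c = prof Z (om u) (restr Z H) c := by
  unfold prof
  symm
  calc ∑ y ∈ Z, (if restr Z H y = c then om u y else 0)
      = ∑ y ∈ Z, (if restr Z' H y = c then om u y else 0) := by
        apply Finset.sum_congr rfl
        intro y hy
        simp [restr, hy, hZ hy]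
    _ = ∑ y ∈ Z', (if restr Z' H y = c then om u y else 0) := by
        apply Finset.sum_subset hZ
        intro y _ hy
        have : om u y = 0 := by
          by_contra hne
          exact hy (h.h2 u hu y hne).1
        rw [this, ite_self]

/-- Data of a conflict. -/
structure Conf (P : Par) (g : SimpleGraph ℕ) (T : ℕ) (D : MD) (f : ℕ) (l : List ℕ) : Prop where
  hl : l.length ≤ 25
  hlT : ∀ z ∈ l, z < T
  hlZ : ∀ z ∈ l, z ∉ D.Z
  hlW : ∀ z ∈ l, D.W z ⊆ D.U ∧ (D.W z).card = P.w ∧ ∀ u ∈ D.W z, g.Adj z u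
  hf : D.W f ⊆ D.U ∧ (D.W f).card = P.w
  hnear : ∀ z ∈ l, pdist D.Hs (mu P D) D.Z (lam P D z) (lam P D f) ≤ P.xi2 * mass P D
  hsum : ∀ h : ℕ → Fin 3, Prp (rst g (range T)) h → ∀ p : Fin 3 → ℝ, (∀ c, 0 ≤ p c) →
    ∑ c, p c = 1 → 7 / 144 ≤ (l.map (fun z => gg (p (h z)))).sum

/-- The bookkeeping after a conflict. -/
noncomputable def MD.conf (P : Par) (g : SimpleGraph ℕ) (T : ℕ) (D : MD) (l : List ℕ) : MD :=
  { D with
    Z := D.Z ∪ l.toFinset
    Dst := fun y => if y ∈ D.Z then D.Dst y else D.W y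
    om := l.foldl (instO P.θ D.W) D.om
    C := D.C + 1
    Hs := hset g T (D.Z ∪ l.toFinset)
    Fd := ∅ }

section conf

variable {P : Par} {ξ : ℝ} {g : SimpleGraph ℕ} {T : ℕ} {D : MD} {f : ℕ} {l : List ℕ}

lemma Conf.omI (hP : ParOK P ξ) (hg : Geo P g T D) (h : Conf P g T D f l) :
    OmI (D.conf P g T l).U (D.conf P g T l).Z (D.conf P g T l).Dst (D.conf P g T l).om := by
  show OmI D.U (D.Z ∪ l.toFinset) (fun y => if y ∈ D.Z then D.Dst y else D.W y)
    (l.foldl (instO P.θ D.W) D.om)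
  apply OmI.fold hP.hθ0.le hP.hθ1
  · intro z hz
    refine ⟨Finset.mem_union_right _ (List.mem_toFinset.2 hz), ?_⟩
    show D.W z = if z ∈ D.Z then D.Dst z else D.W z
    rw [if_neg (h.hlZ z hz)]
  · exact hg.hom.mono Finset.subset_union_left (fun y hy => if_pos hy)

/-- The potential after the conflict, as an iterated installation. -/
lemma Conf.Phi_eq (h' : ℕ → Fin 3) :
    Phi (D.conf P g T l) (restr (D.conf P g T l).Z h') =
      pot D.U ((l.map (fun z => (D.W z, h' z))).foldl (inst P.θ)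
        (fun u => prof (D.Z ∪ l.toFinset) (D.om u) (restr (D.Z ∪ l.toFinset) h'))) := by
  show pot D.U (fun u => prof (D.Z ∪ l.toFinset) (l.foldl (instO P.θ D.W) D.om u)
    (restr (D.Z ∪ l.toFinset) h')) = _
  rw [prof_fold _ l (fun z hz => Finset.mem_union_right _ (List.mem_toFinset.2 hz))]
  congr 2
  apply List.map_congr_left
  intro z hz
  have : z ∈ D.Z ∪ l.toFinset := Finset.mem_union_right _ (List.mem_toFinset.2 hz)
  simp only [restr, if_pos this]

lemma Conf.Phi_eq0 (hg : Geo P g T D) (h' : ℕ → Fin 3) :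
    Phi D (restr D.Z h') =
      pot D.U (fun u => prof (D.Z ∪ l.toFinset) (D.om u) (restr (D.Z ∪ l.toFinset) h')) := by
  unfold Phi pot
  apply Finset.sum_congr rfl
  intro u hu
  have : ∀ c, prof (D.Z ∪ l.toFinset) (D.om u) (restr (D.Z ∪ l.toFinset) h') c =
      prof D.Z (D.om u) (restr D.Z h') c := fun c =>
    prof_ext hg.hom Finset.subset_union_left hu h' c
  simp only [this]

/-- The two gain estimates. -/
lemma Conf.gains (hP : ParOK P ξ) (hg : Geo P g T D) (h : Conf P g T D f l)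
    {h' : ℕ → Fin 3} (hh : Prp (rst g (range T)) h') :
    -(25 * (P.θ * P.w)) ≤ Phi (D.conf P g T l) (restr (D.conf P g T l).Z h') -
        Phi D (restr D.Z h') ∧
    ((∀ z ∈ l, ∑ c, (prof D.Z (lam P D z) (restr D.Z h') c -
        prof D.Z (lam P D f) (restr D.Z h') c) ^ 2 ≤ ξ ^ 2) →
      P.θ * P.w / 50 ≤ Phi (D.conf P g T l) (restr (D.conf P g T l).Z h') -
        Phi D (restr D.Z h')) := by
  set x : ℕ → Fin 3 → ℝ := fun u => prof (D.Z ∪ l.toFinset) (D.om u)
    (restr (D.Z ∪ l.toFinset) h') with hx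
  have hxe : ∀ u ∈ D.U, ∀ c, x u c = prof D.Z (D.om u) (restr D.Z h') c := fun u hu c =>
    prof_ext hg.hom Finset.subset_union_left hu h' c
  have hx0 : ∀ u ∈ D.U, ∀ c, 0 ≤ x u c := by
    intro u hu c
    rw [hxe u hu c]
    exact hg.hom.nonneg hu _ c
  have hx1 : ∀ u ∈ D.U, ∑ c, x u c = 1 := by
    intro u hu
    rw [Finset.sum_congr rfl (fun c _ => hxe u hu c)]
    exact hg.hom.sum hu _
  have hxh : ∀ u ∈ D.U, x u (h' u) = 0 := by
    intro u hu
    rw [hxe u hu]
    exact hg.prof_zero hh hu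
  have hW : ∀ e ∈ l.map (fun z => (D.W z, h' z)), e.1 ⊆ D.U ∧ e.1.card = P.w ∧
      ∀ u ∈ e.1, e.2 ≠ h' u := by
    intro e he
    obtain ⟨z, hz, rfl⟩ := List.mem_map.1 he
    obtain ⟨h1, h2, h3⟩ := h.hlW z hz
    refine ⟨h1, h2, fun u hu => ?_⟩
    exact hh z u ⟨h3 u hu, Finset.mem_range.2 (h.hlT z hz), hg.hU (h1 hu)⟩
  have hlen : (l.map (fun z => (D.W z, h' z))).length ≤ 25 := by
    rw [List.length_map]; exact h.hl
  have hθw : 0 ≤ P.θ * P.w := mul_nonneg hP.hθ0.le (Nat.cast_nonneg _)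
  rw [Conf.Phi_eq, Conf.Phi_eq0 (l := l) hg h']
  refine ⟨?_, ?_⟩
  · refine le_trans ?_ (gain_crude hx0 hx1 hxh hW hP.hθ0.le hP.hθ1)
    have : ((l.map (fun z => (D.W z, h' z))).length : ℝ) ≤ 25 := by exact_mod_cast hlen
    have := mul_le_mul_of_nonneg_right this hθw
    linarith
  · intro htyp
    set p : Fin 3 → ℝ := prof D.Z (lam P D f) (restr D.Z h') with hp
    have hp0 : ∀ c, 0 ≤ p c := fun c => prof_nonneg (fun y _ => lam_nonneg hg h.hf.1 y) _ c
    have hp1 : ∑ c, p c = 1 := by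
      rw [hp, prof_sum]
      exact lam_sum hP.hw hg h.hf.1 h.hf.2
    have hple : ∀ c, p c ≤ 1 := by
      intro c
      rw [← hp1]
      exact Finset.single_le_sum (fun i _ => hp0 i) (Finset.mem_univ c)
    have hnear : ∀ e ∈ l.map (fun z => (D.W z, h' z)), ∀ c,
        |(∑ u ∈ e.1, x u c) / (P.w : ℝ) - p c| ≤ ξ := by
      intro e he c
      obtain ⟨z, hz, rfl⟩ := List.mem_map.1 he
      have h1 : (∑ u ∈ D.W z, x u c) / (P.w : ℝ) = prof D.Z (lam P D z) (restr D.Z h') c := by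
        rw [lam_prof, Finset.sum_congr rfl (fun u hu => hxe u ((h.hlW z hz).1 hu) c)]
      show |(∑ u ∈ D.W z, x u c) / (P.w : ℝ) - p c| ≤ ξ
      rw [h1]
      apply abs_le_of_sq_le_sq _ hP.hξ.le
      refine le_trans ?_ (htyp z hz)
      exact Finset.single_le_sum (f := fun c => (prof D.Z (lam P D z) (restr D.Z h') c -
        prof D.Z (lam P D f) (restr D.Z h') c) ^ 2) (fun i _ => sq_nonneg _)
        (Finset.mem_univ c)
    refine le_trans ?_ (gain_main hP.hw hx0 hx1 hxh hlen hW hp0 hple hP.hξ.le hnear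
      hP.hθ0.le hP.hθ1)
    have h2 : ((l.map (fun z => (D.W z, h' z))).map (fun e => gg (p e.2))).sum =
        (l.map (fun z => gg (p (h' z)))).sum := by
      rw [List.map_map]
      rfl
    rw [h2]
    have h3 := h.hsum h' hh p hp0 hp1
    have h4 := hP.hC
    have h5 : (1 : ℝ) / 50 ≤ (l.map (fun z => gg (p (h' z)))).sum -
        25 * (3 * ξ + 76 * P.θ) := by linarith
    calc P.θ * P.w / 50 = P.θ * P.w * (1 / 50) := by ring
      _ ≤ _ := mul_le_mul_of_nonneg_left h5 hθw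

lemma Conf.mass_le (hP : ParOK P ξ) (hg : Geo P g T D) (h : Conf P g T D f l) :
    mass P (D.conf P g T l) ≤ mass P D / 2 := by
  classical
  let typ : (ℕ → Fin 3) → Prop := fun H => ∀ z ∈ l, ∑ c, (prof D.Z (lam P D z) H c -
        prof D.Z (lam P D f) H c) ^ 2 ≤ ξ ^ 2
  set A : ℝ := Real.exp (-P.Γ * (P.θ * P.w / 50)) with hA
  set B : ℝ := Real.exp (P.Γ * (25 * (P.θ * P.w))) with hB
  have hA0 : 0 < A := Real.exp_pos _
  have hB0 : 0 < B := Real.exp_pos _
  have hM0 : 0 ≤ mass P D := Finset.sum_nonneg (fun H _ => (mu_pos P D H).le)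
  have h1 : mass P (D.conf P g T l) ≤ 3 ^ 25 * ∑ H ∈ D.Hs, mu P D H *
      (if typ H then A else B) := by
    show ∑ H ∈ hset g T (D.Z ∪ l.toFinset), mu P (D.conf P g T l) H ≤ _
    apply sum_ext (Z := D.Z) Finset.subset_union_left hg.hHs
    · intro H _
      apply mul_nonneg (mu_pos P D H).le
      split_ifs
      · exact hA0.le
      · exact hB0.le
    · intro h' hh
      obtain ⟨hc1, hc2⟩ := h.gains hP hg hh
      have e1 : mu P (D.conf P g T l) (restr (D.Z ∪ l.toFinset) h') =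
          mu P D (restr D.Z h') * Real.exp (-P.Γ * (Phi (D.conf P g T l)
            (restr (D.conf P g T l).Z h') - Phi D (restr D.Z h'))) := by
        unfold mu
        rw [← Real.exp_add]
        congr 1
        show -P.Γ * Phi (D.conf P g T l) (restr (D.conf P g T l).Z h') = _
        ring
      rw [e1]
      apply mul_le_mul_of_nonneg_left _ (mu_pos P D _).le
      split_ifs with htyp
      · rw [hA]
        apply Real.exp_le_exp.2
        have := mul_le_mul_of_nonneg_left (hc2 htyp) hP.hΓ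
        linarith
      · rw [hB]
        apply Real.exp_le_exp.2
        have := mul_le_mul_of_nonneg_left hc1 hP.hΓ
        linarith
    · have e1 : (D.Z ∪ l.toFinset) \ D.Z ⊆ l.toFinset := by
        rw [Finset.union_sdiff_left]
        exact Finset.sdiff_subset
      exact (Finset.card_le_card e1).trans ((List.toFinset_card_le l).trans h.hl)
  have h2 : ∑ H ∈ D.Hs, mu P D H * (if typ H then A else B) ≤
      A * mass P D + B * (25 * P.xi2 / ξ ^ 2 * mass P D) := by
    have h3 : ∀ H ∈ D.Hs, mu P D H * (if typ H then A else B) ≤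
        A * mu P D H + B * ∑ i ∈ Finset.range l.length, (mu P D H *
          ∑ c, (prof D.Z (lam P D (l.getD i 0)) H c - prof D.Z (lam P D f) H c) ^ 2) / ξ ^ 2 := by
      intro H _
      have hmu := (mu_pos P D H).le
      have hnn : ∀ i ∈ Finset.range l.length, 0 ≤ (mu P D H *
          ∑ c, (prof D.Z (lam P D (l.getD i 0)) H c - prof D.Z (lam P D f) H c) ^ 2) / ξ ^ 2 := by
        intro i _
        apply div_nonneg _ (sq_nonneg _)
        exact mul_nonneg hmu (Finset.sum_nonneg (fun c _ => sq_nonneg _))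
      split_ifs with htyp
      · have := mul_nonneg hB0.le (Finset.sum_nonneg hnn)
        linarith
      · simp only [typ] at htyp
        push Not at htyp
        obtain ⟨z, hz, hzc⟩ := htyp
        obtain ⟨i, hi, hiz⟩ := List.getElem_of_mem hz
        have hget : l.getD i 0 = z := by
          rw [List.getD_eq_getElem _ _ hi, hiz]
        have h4 := Finset.single_le_sum hnn (Finset.mem_range.2 hi)
        rw [hget] at h4
        have h5 : mu P D H ≤ (mu P D H *
          ∑ c, (prof D.Z (lam P D z) H c - prof D.Z (lam P D f) H c) ^ 2) / ξ ^ 2 := by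
          rw [le_div_iff₀ (pow_pos hP.hξ 2)]
          exact mul_le_mul_of_nonneg_left hzc.le hmu
        have h6 := mul_le_mul_of_nonneg_left (h5.trans h4) hB0.le
        have h7 := mul_nonneg hA0.le hmu
        linarith
    refine (Finset.sum_le_sum h3).trans ?_
    rw [Finset.sum_add_distrib, ← Finset.mul_sum, ← Finset.mul_sum]
    apply add_le_add (le_of_eq rfl)
    apply mul_le_mul_of_nonneg_left _ hB0.le
    rw [Finset.sum_comm]
    have h4 : ∀ i ∈ Finset.range l.length, ∑ H ∈ D.Hs, (mu P D H *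
          ∑ c, (prof D.Z (lam P D (l.getD i 0)) H c - prof D.Z (lam P D f) H c) ^ 2) / ξ ^ 2 ≤
        P.xi2 * mass P D / ξ ^ 2 := by
      intro i hi
      rw [Finset.mem_range] at hi
      rw [← Finset.sum_div]
      apply div_le_div_of_nonneg_right _ (sq_nonneg _)
      have := h.hnear (l.getD i 0) (by
        rw [List.getD_eq_getElem _ _ hi]
        exact List.getElem_mem hi)
      exact this
    refine (Finset.sum_le_card_nsmul _ _ _ h4).trans ?_
    rw [Finset.card_range, nsmul_eq_mul]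
    have h5 : (l.length : ℝ) ≤ 25 := by exact_mod_cast h.hl
    have h6 : 0 ≤ P.xi2 * mass P D / ξ ^ 2 :=
      div_nonneg (mul_nonneg hP.hx.le hM0) (sq_nonneg _)
    calc (l.length : ℝ) * (P.xi2 * mass P D / ξ ^ 2) ≤ 25 * (P.xi2 * mass P D / ξ ^ 2) :=
          mul_le_mul_of_nonneg_right h5 h6
      _ = 25 * P.xi2 / ξ ^ 2 * mass P D := by ring
  have h3 : mass P (D.conf P g T l) ≤
      (3 ^ 25 * A + 3 ^ 25 * B * (25 * P.xi2 / ξ ^ 2)) * mass P D := by
    refine h1.trans ((mul_le_mul_of_nonneg_left h2 (by positivity)).trans (le_of_eq ?_))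
    ring
  have h4 : 3 ^ 25 * A + 3 ^ 25 * B * (25 * P.xi2 / ξ ^ 2) ≤ 1 / 2 := by
    have := hP.hA
    have := hP.hB
    linarith
  have h5 := mul_le_mul_of_nonneg_right h4 hM0
  linarith

/-- The geometric invariant after a conflict. -/
lemma Conf.geo (hP : ParOK P ξ) (hg : Geo P g T D) (h : Conf P g T D f l) :
    Geo P g T (D.conf P g T l) := by
  refine ⟨hg.hU, hg.hUc, ?_, ?_, ?_, h.omI hP hg, ?_, ?_⟩
  · show D.Z ∪ l.toFinset ⊆ range T
    apply Finset.union_subset hg.hZ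
    intro z hz
    exact Finset.mem_range.2 (h.hlT z (List.mem_toFinset.1 hz))
  · show (D.Z ∪ l.toFinset).card ≤ D.m + 25 * (D.C + 1)
    have h1 := Finset.card_union_le D.Z l.toFinset
    have h2 := (List.toFinset_card_le l).trans h.hl
    have h3 := hg.hZc
    omega
  · show ∀ y ∈ D.Z ∪ l.toFinset, (if y ∈ D.Z then D.Dst y else D.W y) ⊆ D.U ∧
      (if y ∈ D.Z then D.Dst y else D.W y).card = P.w ∧
      ∀ u ∈ (if y ∈ D.Z then D.Dst y else D.W y), g.Adj y u
    intro y hy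
    by_cases hyZ : y ∈ D.Z
    · simp only [if_pos hyZ]
      exact hg.hD y hyZ
    · simp only [if_neg hyZ]
      rw [Finset.mem_union] at hy
      exact h.hlW y (List.mem_toFinset.1 (hy.resolve_left hyZ))
  · intro h' hh
    show restr (D.Z ∪ l.toFinset) h' ∈ hset g T (D.Z ∪ l.toFinset)
    exact mem_hset.2 ⟨h', hh, rfl⟩
  · refine (h.mass_le hP hg).trans ?_
    show mass P D / 2 ≤ 3 ^ D.m / 2 ^ (D.C + 1)
    rw [pow_succ, ← div_div]
    exact div_le_div_of_nonneg_right hg.hM (by norm_num)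

end conf

end Pool.Agent.Lib.MP_2c0425_lc
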