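import Pool.Agent.Lib.MP_2c0425_lc.Step

open Finset

namespace Pool.Agent.Lib.MP_2c0425_lc

section count

variable {P : Par} {ξ : ℝ} {g : SimpleGraph ℕ} {n : ℕ} {c : ℕ → Col} {D : MD}

lemma img_le (k : ℕ × ℕ × ℕ) :
    ((clsOf c n k).image c).card ≤ ((clsOf c n k).image (fun x => (c x).2)).card := by
  have : (clsOf c n k).image c = ((clsOf c n k).image (fun x => (c x).2)).image
      (fun b => (k, b)) := by
    rw [Finset.image_image]
    apply Finset.image_congr
    intro x hx
    have := (mem_clsOf.1 hx).2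
    show c x = (k, (c x).2)
    rw [← this]
  rw [this]
  exact Finset.card_image_le

/-- The classes of the phases. -/
def phc (c : ℕ → Col) (n : ℕ) : Finset (ℕ × ℕ × ℕ) :=
  ((range n).filter (fun x => (c x).1.1 = 3)).image (fun x => (c x).1)

lemma phc_card (hP : ParOK P ξ) (h : MI P g n c D) :
    ((phc c n).card : ℝ) * (P.r0 : ℝ) ^ P.τ ≤
      ((D.m + D.C + 1 : ℕ) : ℝ) * (2 * (D.Z.card : ℝ) ^ P.τ) := by
  classical
  have hsub : phc c n ⊆ (range (D.m + D.C + 1)).biUnion
      (fun p => (fnd c n p).image (fun f => (3, p, f))) := by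
    intro k hk
    unfold phc at hk
    rw [Finset.mem_image] at hk
    obtain ⟨x, hx, rfl⟩ := hk
    rw [Finset.mem_filter, Finset.mem_range] at hx
    obtain ⟨hx1, hx2⟩ := hx
    rw [Finset.mem_biUnion]
    rcases h.col.hcls x hx1 with ⟨i, _, h5⟩ | h5 | ⟨y, _, h5⟩ | ⟨p, hp, f', h5⟩
    · rw [h5] at hx2; simp at hx2
    · rw [h5] at hx2; simp at hx2
    · rw [h5] at hx2; simp at hx2
    · refine ⟨p, Finset.mem_range.2 (by omega), ?_⟩
      rw [Finset.mem_image]
      exact ⟨f', mem_fnd.2 ⟨x, hx1, h5⟩, h5.symm⟩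
  have hcard : (phc c n).card ≤ ∑ p ∈ range (D.m + D.C + 1), (fnd c n p).card :=
    (Finset.card_le_card hsub).trans (Finset.card_biUnion_le.trans
      (Finset.sum_le_sum (fun p _ => Finset.card_image_le)))
  have hr0 : (0 : ℝ) ≤ (P.r0 : ℝ) ^ P.τ := by positivity
  calc ((phc c n).card : ℝ) * (P.r0 : ℝ) ^ P.τ
      ≤ (∑ p ∈ range (D.m + D.C + 1), ((fnd c n p).card : ℝ)) * (P.r0 : ℝ) ^ P.τ := by
        apply mul_le_mul_of_nonneg_right _ hr0
        exact_mod_cast hcard
    _ = ∑ p ∈ range (D.m + D.C + 1), ((fnd c n p).card : ℝ) * (P.r0 : ℝ) ^ P.τ := by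
        rw [Finset.sum_mul]
    _ ≤ ∑ p ∈ range (D.m + D.C + 1), (2 * (D.Z.card : ℝ) ^ P.τ) := by
        apply Finset.sum_le_sum
        intro p hp
        rw [Finset.mem_range] at hp
        rcases (show p < D.m + D.C ∨ p = D.m + D.C by omega) with h1 | h1
        · exact h.phi.hph p h1
        · rw [h1]
          have h2 : ((fnd c n (D.m + D.C)).card : ℝ) ≤ D.Fd.card := by
            exact_mod_cast Finset.card_le_card (fnd_sub h.phi)
          exact (mul_le_mul_of_nonneg_right h2 hr0).trans (fd_bound hP h)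
    _ = _ := by
        rw [Finset.sum_const, Finset.card_range, nsmul_eq_mul]

/-- Number of colours in the heavy groups. -/
lemma heavy_card (hP : ParOK P ξ) (h : MI P g n c D)
    (hcol : ∃ h', Prp (rst g (range n)) h') :
    (D.Z.biUnion (fun y => (clsOf c n (2, y, 0)).image c)).card ≤
      D.Z.card * (P.r0 * (4 * (Nat.log 2 n + 1) + 4) + 1) := by
  apply Finset.card_biUnion_le_card_mul
  intro y hy
  refine (img_le _).trans ?_
  obtain ⟨h', hh⟩ := hcol
  obtain ⟨r, hr1, hr2⟩ := (h.col.hK y hy).bound hP.hth (by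
    refine ⟨h', ?_, h' y, ?_⟩
    · intro a b hab
      refine hh a b (rst_mono ?_ hab)
      exact Finset.union_subset (clsOf_sub _ _ _) ((h.geo.hD y hy).1.trans h.geo.hU)
    · intro u hu
      exact (hh y u ⟨(h.geo.hD y hy).2.2 u hu, h.geo.hZ hy,
        h.geo.hU ((h.geo.hD y hy).1 hu)⟩).symm)
  rw [(h.geo.hD y hy).2.1, hP.hwr, mul_comm P.th] at hr1
  have hr3 : r ≤ P.r0 := Nat.le_of_mul_le_mul_right hr1 hP.hth
  refine hr2.trans ?_
  have h1 : Nat.log 2 (clsOf c n (2, y, 0)).card ≤ Nat.log 2 n := by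
    apply Nat.log_mono_right
    have := Finset.card_le_card (clsOf_sub c n (2, y, 0))
    rwa [Finset.card_range] at this
  have h2 : 4 * (Nat.log 2 (clsOf c n (2, y, 0)).card + 1) + 4 ≤
      4 * (Nat.log 2 n + 1) + 4 := by omega
  have := Nat.mul_le_mul hr3 h2
  omega

/-- Number of colours in the phase classes. -/
lemma phase_card (h : MI P g n c D) :
    ∃ R, R * (P.s0 * P.d) ≤ n ∧ ((phc c n).biUnion (fun k => (clsOf c n k).image c)).card ≤
      (phc c n).card * (P.s0 + P.d * P.d) + R := by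
  classical
  have hex : ∀ k ∈ phc c n, ∃ r, ((clsOf c n k).image c).card ≤ P.s0 + P.d * P.d + r ∧
      r * (P.s0 * P.d) ≤ (clsOf c n k).card := by
    intro k hk
    unfold phc at hk
    rw [Finset.mem_image] at hk
    obtain ⟨x, hx, rfl⟩ := hk
    rw [Finset.mem_filter, Finset.mem_range] at hx
    have h1 : (c x).1 = (3, (c x).1.2.1, (c x).1.2.2) := by
      rw [← hx.2]
    obtain ⟨r, hr1, hr2⟩ := (h.col.hOG (c x).1.2.1 (c x).1.2.2).bound
    rw [← h1] at hr1 hr2
    exact ⟨r, (img_le _).trans hr1, hr2⟩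
  choose! r hr using hex
  refine ⟨∑ k ∈ phc c n, r k, ?_, ?_⟩
  · rw [Finset.sum_mul]
    calc ∑ k ∈ phc c n, r k * (P.s0 * P.d) ≤ ∑ k ∈ phc c n, (clsOf c n k).card :=
          Finset.sum_le_sum (fun k hk => (hr k hk).2)
      _ = ((phc c n).biUnion (fun k => clsOf c n k)).card := by
          symm
          apply Finset.card_biUnion
          intro k _ k' _ hne
          show Disjoint (clsOf c n k) (clsOf c n k')
          rw [Finset.disjoint_left]
          intro x hx hx'
          exact hne ((mem_clsOf.1 hx).2.symm.trans (mem_clsOf.1 hx').2)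
      _ ≤ (range n).card := by
          apply Finset.card_le_card
          intro x hx
          obtain ⟨k, _, hk⟩ := Finset.mem_biUnion.1 hx
          exact clsOf_sub _ _ _ hk
      _ = n := Finset.card_range n
  · refine Finset.card_biUnion_le.trans ?_
    refine (Finset.sum_le_sum (fun k hk => (hr k hk).1)).trans ?_
    rw [Finset.sum_add_distrib, Finset.sum_const, smul_eq_mul]

lemma total_card (hP : ParOK P ξ) (h : MI P g n c D)
    (hcol : ∃ h', Prp (rst g (range n)) h') :
    ∃ R, R * (P.s0 * P.d) ≤ n ∧ ((range n).image c).card ≤ 2 * P.w + (D.m + D.C) +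
      D.Z.card * (P.r0 * (4 * (Nat.log 2 n + 1) + 4) + 1) +
      ((phc c n).card * (P.s0 + P.d * P.d) + R) := by
  classical
  obtain ⟨R, hR1, hR2⟩ := phase_card h
  refine ⟨R, hR1, ?_⟩
  have hsub : (range n).image c ⊆ (((range (2 * P.w)).image
      (fun i => (((0, i, 0), (0, 0, 0)) : Col))) ∪
      ((range n).filter (fun x => (c x).1.1 = 1)).image c ∪
      D.Z.biUnion (fun y => (clsOf c n (2, y, 0)).image c)) ∪
      (phc c n).biUnion (fun k => (clsOf c n k).image c) := by
    intro b hb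
    obtain ⟨x, hx, rfl⟩ := Finset.mem_image.1 hb
    rw [Finset.mem_range] at hx
    simp only [Finset.mem_union]
    rcases h.col.hcls x hx with ⟨i, hi, h5⟩ | h5 | ⟨y, hy, h5⟩ | ⟨p, hp, f', h5⟩
    · left; left; left
      rw [Finset.mem_image]
      exact ⟨i, Finset.mem_range.2 hi, h5.symm⟩
    · left; left; right
      rw [Finset.mem_image]
      refine ⟨x, ?_, rfl⟩
      rw [Finset.mem_filter, Finset.mem_range, h5]
      exact ⟨hx, rfl⟩
    · left; right
      rw [Finset.mem_biUnion]
      exact ⟨y, hy, Finset.mem_image.2 ⟨x, mem_clsOf.2 ⟨hx, h5⟩, rfl⟩⟩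
    · right
      rw [Finset.mem_biUnion]
      refine ⟨(c x).1, ?_, Finset.mem_image.2 ⟨x, mem_clsOf.2 ⟨hx, rfl⟩, rfl⟩⟩
      unfold phc
      rw [Finset.mem_image]
      refine ⟨x, ?_, rfl⟩
      rw [Finset.mem_filter, Finset.mem_range, h5]
      exact ⟨hx, rfl⟩
  refine (Finset.card_le_card hsub).trans ?_
  refine (Finset.card_union_le _ _).trans (add_le_add ?_ hR2)
  refine (Finset.card_union_le _ _).trans (add_le_add ?_ (heavy_card hP h hcol))
  refine (Finset.card_union_le _ _).trans (add_le_add ?_ ?_)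
  · exact Finset.card_image_le.trans (by rw [Finset.card_range])
  · refine Finset.card_image_le.trans ?_
    rw [h.col.hone]

end count

end Pool.Agent.Lib.MP_2c0425_lc
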