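import Mathlib

open Finset

namespace Pool.Agent.Lib.MP_2c0425_lc

/-- The colour profile of the weights `lam` under the labelling `H`. -/
noncomputable def prof (Z : Finset ℕ) (lam : ℕ → ℝ) (H : ℕ → Fin 3) (c : Fin 3) : ℝ :=
  ∑ y ∈ Z, if H y = c then lam y else 0

/-- The weighted squared distance of two weight functions. -/
noncomputable def pdist (Hs : Finset (ℕ → Fin 3)) (mu : (ℕ → Fin 3) → ℝ) (Z : Finset ℕ)
    (lam lam' : ℕ → ℝ) : ℝ :=
  ∑ H ∈ Hs, mu H * ∑ c, (prof Z lam H c - prof Z lam' H c) ^ 2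

/-- Second moment of a sum of `t` independent centred variables. -/
theorem cover_second_moment {t : ℕ} {Z : Finset ℕ} {l g : ℕ → ℝ} (h1 : ∑ y ∈ Z, l y = 1)
    (h0 : ∑ y ∈ Z, l y * g y = 0) :
    ∑ y ∈ Fintype.piFinset (fun _ : Fin t => Z), (∏ i, l (y i)) * (∑ i, g (y i)) ^ 2
      = t * ∑ y ∈ Z, l y * (g y) ^ 2 := by
  have key : ∀ i j : Fin t, ∑ y ∈ Fintype.piFinset (fun _ : Fin t => Z),
      (∏ k, l (y k)) * (g (y i) * g (y j))
        = if i = j then ∑ y ∈ Z, l y * (g y) ^ 2 else 0 := by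
    intro i j
    have e : ∀ y : Fin t → ℕ, (∏ k, l (y k)) * (g (y i) * g (y j))
        = ∏ k, (l (y k) * ((if k = i then g (y k) else 1) * (if k = j then g (y k) else 1))) := by
      intro y
      rw [Finset.prod_mul_distrib, Finset.prod_mul_distrib, Finset.prod_ite_eq',
        Finset.prod_ite_eq']
      simp
    simp_rw [e]
    rw [← Finset.prod_univ_sum (fun _ : Fin t => Z)
      (fun k z => l z * ((if k = i then g z else 1) * (if k = j then g z else 1)))]
    split_ifs with h
    · subst h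
      rw [Finset.prod_eq_single i]
      · refine Finset.sum_congr rfl fun z _ => ?_
        simp only [if_true]
        ring
      · intro b _ hb
        simp [hb, h1]
      · intro hi
        exact absurd (Finset.mem_univ _) hi
    · apply Finset.prod_eq_zero (Finset.mem_univ i)
      rw [← h0]
      refine Finset.sum_congr rfl fun z _ => ?_
      simp [h]
  have h2 : ∀ y : Fin t → ℕ, (∏ i, l (y i)) * (∑ i, g (y i)) ^ 2
      = ∑ i, ∑ j, (∏ k, l (y k)) * (g (y i) * g (y j)) := by
    intro y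
    rw [sq, Finset.sum_mul_sum, Finset.mul_sum]
    refine Finset.sum_congr rfl fun i _ => ?_
    rw [Finset.mul_sum]
  simp_rw [h2]
  rw [Finset.sum_comm]
  simp_rw [Finset.sum_comm (s := Fintype.piFinset (fun _ : Fin t => Z))]
  simp_rw [key]
  simp

/-- The total weight of all tuples is one. -/
theorem cover_total {t : ℕ} {Z : Finset ℕ} {l : ℕ → ℝ} (h1 : ∑ y ∈ Z, l y = 1) :
    ∑ y ∈ Fintype.piFinset (fun _ : Fin t => Z), (∏ i, l (y i)) = 1 := by
  rw [← Finset.prod_univ_sum (fun _ : Fin t => Z) (fun _ z => l z)]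
  simp [h1]

/-- The empirical profile. -/
noncomputable def coverEmp {t : ℕ} (y : Fin t → ℕ) (H : ℕ → Fin 3) (c : Fin 3) : ℝ :=
  (∑ i, if H (y i) = c then (1 : ℝ) else 0) / t

/-- The second moment of the empirical profile around the true one. -/
theorem cover_var {t : ℕ} (ht : 0 < t) {Z : Finset ℕ} {l : ℕ → ℝ} (h1 : ∑ y ∈ Z, l y = 1)
    (H : ℕ → Fin 3) (c : Fin 3) :
    ∑ y ∈ Fintype.piFinset (fun _ : Fin t => Z),
      (∏ i, l (y i)) * (coverEmp y H c - prof Z l H c) ^ 2
      = (prof Z l H c - prof Z l H c ^ 2) / t := by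
  have ht' : (t : ℝ) ≠ 0 := by positivity
  set P := prof Z l H c with hP
  have hPe : ∑ y ∈ Z, l y * (if H y = c then (1 : ℝ) else 0) = P := by
    rw [hP, prof]
    refine Finset.sum_congr rfl fun z _ => ?_
    split_ifs <;> simp
  have h0 : ∑ y ∈ Z, l y * ((if H y = c then (1 : ℝ) else 0) - P) = 0 := by
    simp_rw [mul_sub]
    rw [Finset.sum_sub_distrib, hPe, ← Finset.sum_mul, h1]
    ring
  have h2 := cover_second_moment (t := t) h1 h0
  have h3 : ∑ y ∈ Z, l y * ((if H y = c then (1 : ℝ) else 0) - P) ^ 2 = P - P ^ 2 := by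
    have : ∀ y, l y * ((if H y = c then (1 : ℝ) else 0) - P) ^ 2
        = l y * (if H y = c then (1 : ℝ) else 0) * (1 - 2 * P) + l y * P ^ 2 := by
      intro y
      split_ifs <;> ring
    simp_rw [this]
    rw [Finset.sum_add_distrib, ← Finset.sum_mul, ← Finset.sum_mul, hPe, h1]
    ring
  rw [h3] at h2
  have h4 : ∀ y : Fin t → ℕ, (∏ i, l (y i)) * (coverEmp y H c - P) ^ 2
      = ((∏ i, l (y i)) * (∑ i, ((if H (y i) = c then (1 : ℝ) else 0) - P)) ^ 2) / t ^ 2 := by
    intro y
    rw [coverEmp, Finset.sum_sub_distrib]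
    simp only [Finset.sum_const, Finset.card_univ, Fintype.card_fin, nsmul_eq_mul]
    field_simp
  simp_rw [h4]
  rw [← Finset.sum_div, h2]
  field_simp

/-- Packing bound for pairwise far weight functions, by sampling `t`-tuples: for `f ∈ F` the
`t`-tuples `y` in `Z` whose empirical profile is within `xi2 * M / 4` of `lam f` have
`lam f`-product weight at least `1/2` (second moment, Markov), every tuple has weight at most
`r⁻¹ ^ t`, and these sets of tuples are disjoint for different `f`. -/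
theorem cover {Z : Finset ℕ} {Hs : Finset (ℕ → Fin 3)} {mu : (ℕ → Fin 3) → ℝ}
    (hmu : ∀ H ∈ Hs, 0 ≤ mu H) {F : Finset ℕ} {lam : ℕ → ℕ → ℝ}
    (h0 : ∀ f ∈ F, ∀ y ∈ Z, 0 ≤ lam f y) (h1 : ∀ f ∈ F, ∑ y ∈ Z, lam f y = 1)
    {r : ℝ} (hr : 0 < r) (h2 : ∀ f ∈ F, ∀ y ∈ Z, lam f y * r ≤ 1)
    {xi2 : ℝ} {t : ℕ} (ht : 8 ≤ t * xi2)
    (hfar : ∀ f ∈ F, ∀ f' ∈ F, f ≠ f' →
      xi2 * ∑ H ∈ Hs, mu H < pdist Hs mu Z (lam f) (lam f')) :
    (F.card : ℝ) * r ^ t ≤ 2 * (Z.card : ℝ) ^ t := by
  classical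
  have ht0 : 0 < t := by
    rcases Nat.eq_zero_or_pos t with h | h
    · subst h
      norm_num at ht
    · exact h
  have htr : (0 : ℝ) < t := by exact_mod_cast ht0
  have hxi : 0 < xi2 := by
    by_contra hcon
    push Not at hcon
    nlinarith
  set M : ℝ := ∑ H ∈ Hs, mu H with hM
  have hM0 : 0 ≤ M := Finset.sum_nonneg hmu
  set T : Finset (Fin t → ℕ) := Fintype.piFinset (fun _ : Fin t => Z) with hT
  have hTcard : (T.card : ℝ) = (Z.card : ℝ) ^ t := by
    rw [hT, Fintype.card_piFinset]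
    simp
  -- the deviation
  let D : (ℕ → ℝ) → (Fin t → ℕ) → ℝ := fun l y =>
    ∑ H ∈ Hs, mu H * ∑ c, (coverEmp y H c - prof Z l H c) ^ 2
  have hD0 : ∀ l y, 0 ≤ D l y := fun l y =>
    Finset.sum_nonneg fun H hH => mul_nonneg (hmu H hH) (Finset.sum_nonneg fun c _ => sq_nonneg _)
  let G : ℕ → Finset (Fin t → ℕ) := fun f => T.filter fun y => D (lam f) y ≤ xi2 * M / 4
  have hw0 : ∀ f ∈ F, ∀ y ∈ T, 0 ≤ ∏ i, lam f (y i) := by
    intro f hf y hy
    exact Finset.prod_nonneg fun i _ => h0 f hf _ (Fintype.mem_piFinset.1 hy i)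
  -- expectation of the deviation
  have hE : ∀ f ∈ F, ∑ y ∈ T, (∏ i, lam f (y i)) * D (lam f) y ≤ M / t := by
    intro f hf
    have e1 : ∑ y ∈ T, (∏ i, lam f (y i)) * D (lam f) y
        = ∑ H ∈ Hs, mu H * ∑ c, ∑ y ∈ T, (∏ i, lam f (y i)) *
            (coverEmp y H c - prof Z (lam f) H c) ^ 2 := by
      have : ∀ y, (∏ i, lam f (y i)) * D (lam f) y
          = ∑ H ∈ Hs, mu H * ∑ c, (∏ i, lam f (y i)) *
            (coverEmp y H c - prof Z (lam f) H c) ^ 2 := by
        intro y
        show (∏ i, lam f (y i)) * (∑ H ∈ Hs, mu H * ∑ c, (coverEmp y H c - prof Z (lam f) H c) ^ 2) = _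
        rw [Finset.mul_sum]
        refine Finset.sum_congr rfl fun H _ => ?_
        rw [← Finset.mul_sum]
        ring
      simp_rw [this]
      rw [Finset.sum_comm]
      refine Finset.sum_congr rfl fun H _ => ?_
      rw [← Finset.mul_sum, Finset.sum_comm]
    rw [e1, hM, Finset.sum_div]
    refine Finset.sum_le_sum fun H hH => ?_
    have e2 : ∑ c, ∑ y ∈ T, (∏ i, lam f (y i)) * (coverEmp y H c - prof Z (lam f) H c) ^ 2
        ≤ 1 / t := by
      have e3 : ∀ c, ∑ y ∈ T, (∏ i, lam f (y i)) * (coverEmp y H c - prof Z (lam f) H c) ^ 2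
          ≤ prof Z (lam f) H c / t := by
        intro c
        rw [hT, cover_var ht0 (h1 f hf) H c]
        apply div_le_div_of_nonneg_right _ htr.le
        nlinarith [sq_nonneg (prof Z (lam f) H c)]
      refine (Finset.sum_le_sum fun c _ => e3 c).trans ?_
      rw [← Finset.sum_div]
      apply div_le_div_of_nonneg_right _ htr.le
      have : ∑ c, prof Z (lam f) H c = 1 := by
        simp_rw [prof]
        rw [Finset.sum_comm, ← h1 f hf]
        refine Finset.sum_congr rfl fun z _ => ?_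
        simp
      rw [this]
    calc mu H * _ ≤ mu H * (1 / t) := mul_le_mul_of_nonneg_left e2 (hmu H hH)
      _ = mu H / t := by ring
  -- good sets are heavy
  have hG : ∀ f ∈ F, 1 / 2 ≤ ∑ y ∈ G f, ∏ i, lam f (y i) := by
    intro f hf
    have htot : ∑ y ∈ T, ∏ i, lam f (y i) = 1 := cover_total (h1 f hf)
    have hsplit := Finset.sum_filter_add_sum_filter_not T (fun y => D (lam f) y ≤ xi2 * M / 4)
      (fun y => ∏ i, lam f (y i))
    have hbad : ∑ y ∈ T.filter (fun y => ¬ D (lam f) y ≤ xi2 * M / 4), ∏ i, lam f (y i)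
        ≤ 1 / 2 := by
      rcases hM0.eq_or_lt with h | h
      · -- all deviations vanish
        have hz : ∀ H ∈ Hs, mu H = 0 := (Finset.sum_eq_zero_iff_of_nonneg hmu).1 h.symm
        have : T.filter (fun y => ¬ D (lam f) y ≤ xi2 * M / 4) = ∅ := by
          apply Finset.filter_eq_empty_iff.2
          intro y _
          push Not
          have : D (lam f) y = 0 := Finset.sum_eq_zero fun H hH => by rw [hz H hH, zero_mul]
          rw [this, ← h]
          simp
        rw [this]
        norm_num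
      · have hpos : 0 < xi2 * M / 4 := by positivity
        have e1 : (xi2 * M / 4) *
            ∑ y ∈ T.filter (fun y => ¬ D (lam f) y ≤ xi2 * M / 4), ∏ i, lam f (y i)
            ≤ M / t := by
          calc _ = ∑ y ∈ T.filter (fun y => ¬ D (lam f) y ≤ xi2 * M / 4),
                (∏ i, lam f (y i)) * (xi2 * M / 4) := by
                rw [mul_comm, Finset.sum_mul]
            _ ≤ ∑ y ∈ T.filter (fun y => ¬ D (lam f) y ≤ xi2 * M / 4),
                (∏ i, lam f (y i)) * D (lam f) y := by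
                refine Finset.sum_le_sum fun y hy => ?_
                rw [Finset.mem_filter] at hy
                exact mul_le_mul_of_nonneg_left (not_le.1 hy.2).le (hw0 f hf y hy.1)
            _ ≤ ∑ y ∈ T, (∏ i, lam f (y i)) * D (lam f) y := by
                apply Finset.sum_le_sum_of_subset_of_nonneg (Finset.filter_subset _ _)
                intro y hy _
                exact mul_nonneg (hw0 f hf y hy) (hD0 _ _)
            _ ≤ M / t := hE f hf
        have e2 : M / t ≤ (xi2 * M / 4) * (1 / 2) := by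
          rw [div_le_iff₀ htr]
          nlinarith
        exact le_of_mul_le_mul_left (e1.trans e2) hpos
    have : ∑ y ∈ G f, ∏ i, lam f (y i) = 1 -
        ∑ y ∈ T.filter (fun y => ¬ D (lam f) y ≤ xi2 * M / 4), ∏ i, lam f (y i) := by
      rw [← htot, ← hsplit]
      ring
    rw [this]
    linarith
  -- good sets are large
  have hcard : ∀ f ∈ F, r ^ t ≤ 2 * ((G f).card : ℝ) := by
    intro f hf
    have e1 : ∑ y ∈ G f, ∏ i, lam f (y i) ≤ ∑ y ∈ G f, (1 / r) ^ t := by
      refine Finset.sum_le_sum fun y hy => ?_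
      have hyT : y ∈ T := (Finset.mem_filter.1 hy).1
      calc ∏ i, lam f (y i) ≤ ∏ _i : Fin t, (1 / r) := by
            apply Finset.prod_le_prod
            · intro i _
              exact h0 f hf _ (Fintype.mem_piFinset.1 hyT i)
            · intro i _
              rw [le_div_iff₀ hr]
              exact h2 f hf _ (Fintype.mem_piFinset.1 hyT i)
        _ = (1 / r) ^ t := by simp
    rw [Finset.sum_const, nsmul_eq_mul] at e1
    have e2 := (hG f hf).trans e1
    have hrt : 0 < r ^ t := pow_pos hr t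
    have e3 : ((G f).card : ℝ) * (1 / r) ^ t * r ^ t = (G f).card := by
      rw [mul_assoc, ← mul_pow, one_div_mul_cancel hr.ne', one_pow, mul_one]
    nlinarith [mul_le_mul_of_nonneg_right e2 hrt.le]
  -- disjointness
  have hdisj : ∀ f ∈ F, ∀ f' ∈ F, f ≠ f' → Disjoint (G f) (G f') := by
    intro f hf f' hf' hne
    rw [Finset.disjoint_left]
    intro y hy hy'
    have a1 : D (lam f) y ≤ xi2 * M / 4 := (Finset.mem_filter.1 hy).2
    have a2 : D (lam f') y ≤ xi2 * M / 4 := (Finset.mem_filter.1 hy').2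
    have a3 : pdist Hs mu Z (lam f) (lam f') ≤ 2 * D (lam f) y + 2 * D (lam f') y := by
      show ∑ H ∈ Hs, mu H * ∑ c, (prof Z (lam f) H c - prof Z (lam f') H c) ^ 2
        ≤ 2 * (∑ H ∈ Hs, mu H * ∑ c, (coverEmp y H c - prof Z (lam f) H c) ^ 2)
          + 2 * (∑ H ∈ Hs, mu H * ∑ c, (coverEmp y H c - prof Z (lam f') H c) ^ 2)
      rw [Finset.mul_sum, Finset.mul_sum, ← Finset.sum_add_distrib]
      refine Finset.sum_le_sum fun H hH => ?_
      have : ∑ c, (prof Z (lam f) H c - prof Z (lam f') H c) ^ 2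
          ≤ 2 * ∑ c, (coverEmp y H c - prof Z (lam f) H c) ^ 2
            + 2 * ∑ c, (coverEmp y H c - prof Z (lam f') H c) ^ 2 := by
        rw [Finset.mul_sum, Finset.mul_sum, ← Finset.sum_add_distrib]
        refine Finset.sum_le_sum fun c _ => ?_
        nlinarith [sq_nonneg ((coverEmp y H c - prof Z (lam f) H c)
          + (coverEmp y H c - prof Z (lam f') H c))]
      calc mu H * _ ≤ mu H * _ := mul_le_mul_of_nonneg_left this (hmu H hH)
        _ = _ := by ring
    have a4 := hfar f hf f' hf' hne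
    linarith
  -- summing up
  have hunion : (∑ f ∈ F, ((G f).card : ℝ)) ≤ (T.card : ℝ) := by
    have : (F.biUnion G).card = ∑ f ∈ F, (G f).card :=
      Finset.card_biUnion fun f hf f' hf' hne => hdisj f hf f' hf' hne
    have h5 : (F.biUnion G).card ≤ T.card := by
      apply Finset.card_le_card
      intro y hy
      rw [Finset.mem_biUnion] at hy
      obtain ⟨f, _, hy⟩ := hy
      exact (Finset.mem_filter.1 hy).1
    rw [this] at h5
    exact_mod_cast h5
  calc (F.card : ℝ) * r ^ t = ∑ f ∈ F, r ^ t := by rw [Finset.sum_const, nsmul_eq_mul]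
    _ ≤ ∑ f ∈ F, 2 * ((G f).card : ℝ) := Finset.sum_le_sum hcard
    _ = 2 * ∑ f ∈ F, ((G f).card : ℝ) := by rw [Finset.mul_sum]
    _ ≤ 2 * (T.card : ℝ) := by linarith
    _ = 2 * (Z.card : ℝ) ^ t := by rw [hTcard]

end Pool.Agent.Lib.MP_2c0425_lc
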