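import Pool.Agent.Lib.MP_2c0425_lc.Process

open Finset

namespace Pool.Agent.Lib.MP_2c0425_lc

lemma sum_geo (a : ℕ) (ha : 1 ≤ a) (I : ℕ) :
    ∑ i ∈ range (I + 1), (2 ^ i) ^ a ≤ 2 * (2 ^ I) ^ a := by
  induction I with
  | zero => simp
  | succ I ih =>
    rw [Finset.sum_range_succ]
    have h1 : 2 * (2 ^ I) ^ a ≤ (2 ^ (I + 1)) ^ a := by
      have h2 : (2 ^ (I + 1)) ^ a = 2 ^ a * (2 ^ I) ^ a := by
        rw [pow_succ, mul_pow, mul_comm]
      rw [h2]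
      apply Nat.mul_le_mul_right
      calc 2 = 2 ^ 1 := by norm_num
        _ ≤ 2 ^ a := Nat.pow_le_pow_right (by norm_num) ha
    omega

lemma two_pow_le {A a n : ℕ} (hA : 0 < A) (hn : 0 < n) :
    (((2 ^ ep A (n - 1)) ^ a : ℕ) : ℝ) ≤ 2 ^ a * (n : ℝ) ^ ((a : ℝ) / A) := by
  have hn1 : (1 : ℝ) ≤ n := by exact_mod_cast hn
  have hA' : (0 : ℝ) < A := by exact_mod_cast hA
  have hexp : (0 : ℝ) ≤ (a : ℝ) / A := by positivity
  have hpow : (1 : ℝ) ≤ (n : ℝ) ^ ((a : ℝ) / A) := Real.one_le_rpow hn1 hexp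
  have h2a : (1 : ℝ) ≤ 2 ^ a := one_le_pow₀ (by norm_num)
  rcases Nat.eq_zero_or_pos (ep A (n - 1)) with h0 | hpos
  · rw [h0]
    simp only [pow_zero, one_pow, Nat.cast_one]
    nlinarith
  · obtain ⟨J, hJ⟩ : ∃ J, ep A (n - 1) = J + 1 := ⟨ep A (n - 1) - 1, by omega⟩
    have h1 := st_ep A (n - 1)
    rw [hJ, st_succ] at h1
    have h2 : (((2 ^ J) ^ A : ℕ) : ℝ) ≤ n := by
      exact_mod_cast (show (2 ^ J) ^ A ≤ n by omega)
    have h3 : (((2 : ℝ) ^ J) ^ A) ^ ((a : ℝ) / A) = ((2 : ℝ) ^ J) ^ a := by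
      rw [← Real.rpow_natCast ((2 : ℝ) ^ J) A, ← Real.rpow_mul (by positivity),
        mul_div_cancel₀ _ hA'.ne', Real.rpow_natCast]
    have h4 : ((2 : ℝ) ^ J) ^ a ≤ (n : ℝ) ^ ((a : ℝ) / A) := by
      rw [← h3]
      apply Real.rpow_le_rpow (by positivity) _ hexp
      push_cast at h2
      exact h2
    rw [hJ]
    push_cast
    rw [pow_succ, mul_pow, mul_comm]
    exact mul_le_mul_of_nonneg_left h4 (by positivity)

lemma log_le {A n : ℕ} (hA : 0 < A) (hn : 0 < n) :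
    ((Nat.log 2 n + 1 : ℕ) : ℝ) ≤ (4 * A + 1) * (n : ℝ) ^ (1 / (2 * (A : ℝ))) := by
  have hn1 : (1 : ℝ) ≤ n := by exact_mod_cast hn
  have hA' : (0 : ℝ) < A := by exact_mod_cast hA
  have hδ : (0 : ℝ) < 1 / (2 * (A : ℝ)) := by positivity
  have h1 : ((Nat.log 2 n : ℕ) : ℝ) ≤ Real.logb 2 n := by
    exact_mod_cast Real.natLog_le_logb n 2
  have h2 : Real.logb 2 n ≤ 2 * Real.log n := by
    unfold Real.logb
    rw [div_le_iff₀ (Real.log_pos (by norm_num))]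
    have h3 := Real.log_two_gt_d9
    have h4 := Real.log_nonneg hn1
    nlinarith
  have h3 : Real.log n ≤ (n : ℝ) ^ (1 / (2 * (A : ℝ))) / (1 / (2 * (A : ℝ))) :=
    Real.log_le_rpow_div (by linarith) hδ
  have h4 : (n : ℝ) ^ (1 / (2 * (A : ℝ))) / (1 / (2 * (A : ℝ))) =
      2 * A * (n : ℝ) ^ (1 / (2 * (A : ℝ))) := by
    field_simp
  have h5 : (1 : ℝ) ≤ (n : ℝ) ^ (1 / (2 * (A : ℝ))) := Real.one_le_rpow hn1 hδ.le
  rw [h4] at h3
  push_cast
  linarith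

/-- The bound in terms of a power of `n`. -/
theorem main_bound : ∃ ε : ℝ, 0 < ε ∧ ε < 2 / 3 ∧ ∃ C : ℝ,
    ∃ alg : SimpleGraph ℕ → ℕ → ℕ, (∀ g g' t, Agr g g' (t + 1) → alg g t = alg g' t) ∧
      ∀ g n, Col3 g n → (∀ a < n, ∀ b < n, g.Adj a b → alg g a ≠ alg g b) ∧
        (((range n).image (alg g)).card : ℝ) ≤ C * (n : ℝ) ^ (2 / 3 - ε) := by
  obtain ⟨k⟩ := exists_consts
  obtain ⟨alg, h1, h2⟩ := unknown k
  set A : ℕ := 27 * k.t + 24 with hA
  set a : ℕ := 18 * k.t + 15 with ha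
  have hApos : 0 < A := by omega
  have hA' : (0 : ℝ) < A := by exact_mod_cast hApos
  have hA24 : (24 : ℝ) ≤ A := by exact_mod_cast (show 24 ≤ A by omega)
  have haA : (a : ℝ) = 2 / 3 * A - 1 := by
    rw [ha, hA]
    push_cast
    ring
  have ha1 : 1 ≤ a := by omega
  clear_value A a
  generalize k.B = B at h2
  refine ⟨1 / (2 * (A : ℝ)), by positivity, ?_, B * (4 * A + 1) * (2 * 2 ^ a), alg, h1, ?_⟩
  · rw [div_lt_iff₀ (by positivity)]
    linarith
  · intro g n hn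
    obtain ⟨h3, h4⟩ := h2 g n hn
    refine ⟨h3, ?_⟩
    rcases Nat.eq_zero_or_pos n with h0 | hpos
    · subst h0
      simp only [Finset.range_zero, Finset.image_empty, Finset.card_empty, Nat.cast_zero]
      exact mul_nonneg (by positivity) (Real.rpow_nonneg le_rfl _)
    · have h5 : ((range n).image (alg g)).card ≤
          B * (Nat.log 2 n + 1) * (2 * (2 ^ ep A (n - 1)) ^ a) := by
        refine h4.trans ?_
        rw [← Finset.mul_sum]
        exact Nat.mul_le_mul_left _ (sum_geo a ha1 _)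
      have h6 : (((range n).image (alg g)).card : ℝ) ≤
          B * ((Nat.log 2 n + 1 : ℕ) : ℝ) * (2 * (((2 ^ ep A (n - 1)) ^ a : ℕ) : ℝ)) := by
        exact_mod_cast h5
      refine h6.trans ?_
      have h7 := log_le hApos hpos
      have h8 := two_pow_le (a := a) hApos hpos
      have hnpos : (0 : ℝ) < n := by exact_mod_cast hpos
      have h9 : (n : ℝ) ^ (2 / 3 - 1 / (2 * (A : ℝ))) =
          (n : ℝ) ^ (1 / (2 * (A : ℝ))) * (n : ℝ) ^ ((a : ℝ) / A) := by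
        rw [← Real.rpow_add hnpos]
        congr 1
        rw [haA]
        field_simp
        ring
      rw [h9]
      have hB : (0 : ℝ) ≤ B := Nat.cast_nonneg _
      calc (B : ℝ) * ((Nat.log 2 n + 1 : ℕ) : ℝ) * (2 * (((2 ^ ep A (n - 1)) ^ a : ℕ) : ℝ))
          ≤ B * ((4 * A + 1) * (n : ℝ) ^ (1 / (2 * (A : ℝ)))) *
            (2 * (2 ^ a * (n : ℝ) ^ ((a : ℝ) / A))) := by
            apply mul_le_mul
            · exact mul_le_mul_of_nonneg_left h7 hB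
            · linarith
            · positivity
            · positivity
        _ = B * (4 * A + 1) * (2 * 2 ^ a) *
            ((n : ℝ) ^ (1 / (2 * (A : ℝ))) * (n : ℝ) ^ ((a : ℝ) / A)) := by ring

end Pool.Agent.Lib.MP_2c0425_lc
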