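import Mathlib

open Finset

namespace Pool.Agent.Lib.MP_2c0425_lc

/-- The function that controls the gain. -/
def gg (x : ℝ) : ℝ := (1 - x) * (1 - 2 * x)

/-- The potential of a family of profiles. -/
noncomputable def pot (U : Finset ℕ) (x : ℕ → Fin 3 → ℝ) : ℝ :=
  ∑ u ∈ U, (1 - ∑ c, x u c ^ 2) / 2

/-- Installing a vertex of colour `e.2` with the set `e.1`. -/
noncomputable def inst (θ : ℝ) (x : ℕ → Fin 3 → ℝ) (e : Finset ℕ × Fin 3) :
    ℕ → Fin 3 → ℝ :=
  fun u b => if u ∈ e.1 then (1 - θ) * x u b + (if b = e.2 then θ else 0) else x u b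

/-! ### One step -/

/-- The change of the term of a vertex in one install step. -/
lemma pot_term_step {θ : ℝ} {y : Fin 3 → ℝ} (h1 : ∑ c, y c = 1) {k c : Fin 3} (hk : y k = 0)
    (hc : c ≠ k) :
    (1 - ∑ b, ((1 - θ) * y b + (if b = c then θ else 0)) ^ 2) / 2 - (1 - ∑ b, y b ^ 2) / 2 =
      θ * (gg (y c) - θ * (1 - y c) ^ 2) := by
  rw [Fin.sum_univ_three] at h1 ⊢
  rw [Fin.sum_univ_three]
  unfold gg
  have key : ∀ a b : ℝ, a + b = 1 →
      (1 - (((1 - θ) * a + θ) ^ 2 + ((1 - θ) * b) ^ 2)) / 2 - (1 - (a ^ 2 + b ^ 2)) / 2 =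
      θ * ((1 - a) * (1 - 2 * a) - θ * (1 - a) ^ 2) := by
    intro a b hab
    have : b = 1 - a := by linarith
    subst this
    ring
  fin_cases k <;> fin_cases c <;> simp at hk hc ⊢ <;> rw [hk] at h1 ⊢
  · have := key (y 1) (y 2) (by linarith)
    linarith [this]
  · have := key (y 2) (y 1) (by linarith)
    linarith [this]
  · have := key (y 0) (y 2) (by linarith)
    linarith [this]
  · have := key (y 2) (y 0) (by linarith)
    linarith [this]
  · have := key (y 0) (y 1) (by linarith)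
    linarith [this]
  · have := key (y 1) (y 0) (by linarith)
    linarith [this]

/-- The change of the potential in one install step. -/
lemma pot_step {U : Finset ℕ} {x : ℕ → Fin 3 → ℝ} {h : ℕ → Fin 3}
    (hx1 : ∀ u ∈ U, ∑ c, x u c = 1)
    (hxh : ∀ u ∈ U, x u (h u) = 0) {e : Finset ℕ × Fin 3}
    (hW : e.1 ⊆ U ∧ ∀ u ∈ e.1, e.2 ≠ h u) (θ : ℝ) :
    pot U (inst θ x e) - pot U x =
      ∑ u ∈ e.1, θ * (gg (x u e.2) - θ * (1 - x u e.2) ^ 2) := by
  unfold pot
  rw [← Finset.sum_sub_distrib]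
  rw [← Finset.sum_subset hW.1]
  · apply Finset.sum_congr rfl
    intro u hu
    rw [← pot_term_step (hx1 u (hW.1 hu)) (hxh u (hW.1 hu)) (hW.2 u hu)]
    simp only [inst, hu, if_true]
  · intro u _ hu
    simp only [inst, hu, if_false, sub_self]

lemma inst_nonneg {U : Finset ℕ} {x : ℕ → Fin 3 → ℝ}
    (hx0 : ∀ u ∈ U, ∀ c, 0 ≤ x u c) {θ : ℝ} (hθ0 : 0 ≤ θ) (hθ1 : θ ≤ 1)
    (e : Finset ℕ × Fin 3) : ∀ u ∈ U, ∀ c, 0 ≤ inst θ x e u c := by
  intro u hu c
  unfold inst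
  have := hx0 u hu c
  have h2 : 0 ≤ (1 - θ) * x u c := mul_nonneg (by linarith) this
  split_ifs <;> linarith

lemma inst_sum {U : Finset ℕ} {x : ℕ → Fin 3 → ℝ}
    (hx1 : ∀ u ∈ U, ∑ c, x u c = 1) (θ : ℝ)
    (e : Finset ℕ × Fin 3) : ∀ u ∈ U, ∑ c, inst θ x e u c = 1 := by
  intro u hu
  unfold inst
  by_cases hue : u ∈ e.1
  · simp only [hue, if_true]
    rw [Finset.sum_add_distrib, ← Finset.mul_sum, hx1 u hu]
    simp
  · simp only [hue, if_false]
    exact hx1 u hu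

lemma inst_zero {U : Finset ℕ} {x : ℕ → Fin 3 → ℝ} {h : ℕ → Fin 3}
    (hxh : ∀ u ∈ U, x u (h u) = 0) (θ : ℝ)
    {e : Finset ℕ × Fin 3} (he : ∀ u ∈ e.1, e.2 ≠ h u) :
    ∀ u ∈ U, inst θ x e u (h u) = 0 := by
  intro u hu
  unfold inst
  by_cases hue : u ∈ e.1
  · simp only [hue, if_true, hxh u hu]
    simp [(he u hue).symm]
  · simp only [hue, if_false]
    exact hxh u hu

lemma le_one_of_sum {x : Fin 3 → ℝ} (h0 : ∀ c, 0 ≤ x c) (h1 : ∑ c, x c = 1) (c : Fin 3) :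
    x c ≤ 1 := by
  rw [← h1]
  exact Finset.single_le_sum (fun i _ => h0 i) (Finset.mem_univ c)

lemma inst_close {U : Finset ℕ} {x : ℕ → Fin 3 → ℝ}
    (hx0 : ∀ u ∈ U, ∀ c, 0 ≤ x u c) (hx1 : ∀ u ∈ U, ∑ c, x u c = 1)
    {θ : ℝ} (hθ0 : 0 ≤ θ)
    (e : Finset ℕ × Fin 3) : ∀ u ∈ U, ∀ c, |inst θ x e u c - x u c| ≤ θ := by
  intro u hu c
  have h0 := hx0 u hu c
  have h1 := le_one_of_sum (hx0 u hu) (hx1 u hu) c
  unfold inst
  rw [abs_le]
  have h2 : θ * x u c ≤ θ := by nlinarith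
  have h3 : 0 ≤ θ * x u c := mul_nonneg hθ0 h0
  split_ifs <;> constructor <;> nlinarith

/-- Crude bound: one install step lowers the potential by at most `θ * w`. -/
theorem gain_crude {U : Finset ℕ} {x : ℕ → Fin 3 → ℝ} {h : ℕ → Fin 3} {w : ℕ}
    (hx0 : ∀ u ∈ U, ∀ c, 0 ≤ x u c) (hx1 : ∀ u ∈ U, ∑ c, x u c = 1)
    (hxh : ∀ u ∈ U, x u (h u) = 0) {l : List (Finset ℕ × Fin 3)}
    (hW : ∀ e ∈ l, e.1 ⊆ U ∧ e.1.card = w ∧ ∀ u ∈ e.1, e.2 ≠ h u)
    {θ : ℝ} (hθ0 : 0 ≤ θ) (hθ1 : θ ≤ 1) :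
    - (l.length * (θ * w)) ≤ pot U (l.foldl (inst θ) x) - pot U x := by
  induction l generalizing x with
  | nil => simp
  | cons e l ih =>
    have he := hW e (by simp)
    have hl : ∀ e' ∈ l, e'.1 ⊆ U ∧ e'.1.card = w ∧ ∀ u ∈ e'.1, e'.2 ≠ h u :=
      fun e' he' => hW e' (by simp [he'])
    have h1 := ih (x := inst θ x e) (inst_nonneg hx0 hθ0 hθ1 e) (inst_sum hx1 θ e)
      (inst_zero hxh θ he.2.2) hl
    have h2 := pot_step hx1 hxh ⟨he.1, he.2.2⟩ θ
    have h3 : -(θ * w) ≤ ∑ u ∈ e.1, θ * (gg (x u e.2) - θ * (1 - x u e.2) ^ 2) := by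
      have h4 : ∀ u ∈ e.1, -θ ≤ θ * (gg (x u e.2) - θ * (1 - x u e.2) ^ 2) := by
        intro u hu
        have a0 := hx0 u (he.1 hu) e.2
        have a1 := le_one_of_sum (hx0 u (he.1 hu)) (hx1 u (he.1 hu)) e.2
        set y := x u e.2
        have h5 : -1 ≤ gg y - θ * (1 - y) ^ 2 := by
          unfold gg
          have h6 : θ * (1 - y) ^ 2 ≤ 1 * (1 - y) ^ 2 :=
            mul_le_mul_of_nonneg_right hθ1 (sq_nonneg _)
          nlinarith [sq_nonneg (y - 1 / 2)]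
        nlinarith
      calc -(θ * w) = ∑ u ∈ e.1, -θ := by
            rw [Finset.sum_const, he.2.1, nsmul_eq_mul]; ring
        _ ≤ _ := Finset.sum_le_sum h4
    simp only [List.foldl_cons, List.length_cons]
    push_cast
    linarith

/-! ### The main estimate -/

lemma gg_lip {a b : ℝ} (ha0 : 0 ≤ a) (ha1 : a ≤ 1) (hb0 : 0 ≤ b) (hb1 : b ≤ 1) {δ : ℝ}
    (h : |a - b| ≤ δ) : gg b - 3 * δ ≤ gg a := by
  unfold gg
  have h1 := (abs_le.mp h).1
  have h2 := (abs_le.mp h).2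
  rcases le_total a b with hab | hab
  · -- gg a - gg b = (b - a) * (3 - 2 (a + b))
    have : (1 - a) * (1 - 2 * a) - (1 - b) * (1 - 2 * b) = (b - a) * (3 - 2 * (a + b)) := by ring
    nlinarith
  · have : (1 - a) * (1 - 2 * a) - (1 - b) * (1 - 2 * b) = -((a - b) * (3 - 2 * (a + b))) := by
      ring
    have h3 : (a - b) * (3 - 2 * (a + b)) ≤ (a - b) * 3 :=
      mul_le_mul_of_nonneg_left (by linarith) (by linarith)
    nlinarith

lemma gg_jensen {W : Finset ℕ} (hW : 0 < W.card) (y : ℕ → ℝ) :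
    (W.card : ℝ) * gg ((∑ u ∈ W, y u) / W.card) ≤ ∑ u ∈ W, gg (y u) := by
  have hc : (0 : ℝ) < W.card := by exact_mod_cast hW
  set a := (∑ u ∈ W, y u) / W.card with ha
  have hsum : ∑ u ∈ W, y u = W.card * a := by
    rw [ha]; field_simp
  have h1 : ∀ u ∈ W, gg a + (4 * a - 3) * (y u - a) ≤ gg (y u) := by
    intro u _
    unfold gg
    nlinarith [sq_nonneg (y u - a)]
  calc (W.card : ℝ) * gg a = ∑ u ∈ W, (gg a + (4 * a - 3) * (y u - a)) := by
        rw [Finset.sum_add_distrib, ← Finset.mul_sum, Finset.sum_sub_distrib, hsum]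
        simp
    _ ≤ _ := Finset.sum_le_sum h1

/-- The induction behind `gain_main`: the current state `x` is close to the initial state `x0`. -/
lemma gain_main_aux {U : Finset ℕ} {x0 : ℕ → Fin 3 → ℝ} {h : ℕ → Fin 3} {w : ℕ} (hw : 0 < w)
    (hz0 : ∀ u ∈ U, ∀ c, 0 ≤ x0 u c) (hz1 : ∀ u ∈ U, ∑ c, x0 u c = 1)
    {p : Fin 3 → ℝ} (hp0 : ∀ c, 0 ≤ p c) (hp1 : ∀ c, p c ≤ 1) {ξ : ℝ}
    {θ : ℝ} (hθ0 : 0 ≤ θ) (hθ1 : θ ≤ 1) {l : List (Finset ℕ × Fin 3)}
    (hW : ∀ e ∈ l, e.1 ⊆ U ∧ e.1.card = w ∧ ∀ u ∈ e.1, e.2 ≠ h u)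
    (hp : ∀ e ∈ l, ∀ c, |(∑ u ∈ e.1, x0 u c) / w - p c| ≤ ξ) :
    ∀ (k : ℕ) (x : ℕ → Fin 3 → ℝ), k + l.length ≤ 25 →
    (∀ u ∈ U, ∀ c, 0 ≤ x u c) → (∀ u ∈ U, ∑ c, x u c = 1) → (∀ u ∈ U, x u (h u) = 0) →
    (∀ u ∈ U, ∀ c, |x u c - x0 u c| ≤ k * θ) →
    θ * w * ((l.map (fun e => gg (p e.2))).sum - l.length * (3 * ξ + 76 * θ)) ≤
      pot U (l.foldl (inst θ) x) - pot U x := by
  induction l with
  | nil => intro k x _ _ _ _ _; simp
  | cons e l ih =>
    intro k x hk hx0 hx1 hxh hcl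
    have he := hW e (by simp)
    have hl : ∀ e' ∈ l, e'.1 ⊆ U ∧ e'.1.card = w ∧ ∀ u ∈ e'.1, e'.2 ≠ h u :=
      fun e' he' => hW e' (by simp [he'])
    have hpl : ∀ e' ∈ l, ∀ c, |(∑ u ∈ e'.1, x0 u c) / w - p c| ≤ ξ :=
      fun e' he' => hp e' (by simp [he'])
    simp only [List.length_cons] at hk
    have h1 := ih hl hpl (k + 1) (inst θ x e) (by omega) (inst_nonneg hx0 hθ0 hθ1 e)
      (inst_sum hx1 θ e) (inst_zero hxh θ he.2.2) (by
        intro u hu c
        have a1 := inst_close hx0 hx1 hθ0 e u hu c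
        have a2 := hcl u hu c
        have a3 : inst θ x e u c - x0 u c = (inst θ x e u c - x u c) + (x u c - x0 u c) := by
          ring
        rw [a3]
        refine (abs_add_le _ _).trans ?_
        push_cast
        linarith)
    have h2 := pot_step hx1 hxh ⟨he.1, he.2.2⟩ θ
    have hwR : (0 : ℝ) < w := by exact_mod_cast hw
    have h3 : θ * w * (gg (p e.2) - (3 * ξ + 76 * θ)) ≤
        ∑ u ∈ e.1, θ * (gg (x u e.2) - θ * (1 - x u e.2) ^ 2) := by
      have h4 : ∀ u ∈ e.1, θ * (gg (x0 u e.2) - 76 * θ) ≤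
          θ * (gg (x u e.2) - θ * (1 - x u e.2) ^ 2) := by
        intro u hu
        have a0 := hx0 u (he.1 hu) e.2
        have a1 := le_one_of_sum (hx0 u (he.1 hu)) (hx1 u (he.1 hu)) e.2
        have b0 := hz0 u (he.1 hu) e.2
        have b1 := le_one_of_sum (hz0 u (he.1 hu)) (hz1 u (he.1 hu)) e.2
        have c1 := gg_lip a0 a1 b0 b1 (hcl u (he.1 hu) e.2)
        have c2 : (k : ℝ) * θ ≤ 25 * θ := by
          apply mul_le_mul_of_nonneg_right _ hθ0
          exact_mod_cast (by omega : k ≤ 25)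
        have c3 : θ * (1 - x u e.2) ^ 2 ≤ θ * 1 := by
          apply mul_le_mul_of_nonneg_left _ hθ0
          nlinarith
        apply mul_le_mul_of_nonneg_left _ hθ0
        linarith
      have h5 := gg_jensen (W := e.1) (by rw [he.2.1]; exact hw) (fun u => x0 u e.2)
      rw [he.2.1] at h5
      have h6 : gg (p e.2) - 3 * ξ ≤ gg ((∑ u ∈ e.1, x0 u e.2) / w) := by
        apply gg_lip _ _ (hp0 _) (hp1 _) (hp e (by simp) e.2)
        · apply div_nonneg _ hwR.le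
          exact Finset.sum_nonneg (fun u hu => hz0 u (he.1 hu) e.2)
        · rw [div_le_one hwR]
          calc ∑ u ∈ e.1, x0 u e.2 ≤ ∑ u ∈ e.1, (1 : ℝ) := Finset.sum_le_sum
                (fun u hu => le_one_of_sum (hz0 u (he.1 hu)) (hz1 u (he.1 hu)) e.2)
            _ = w := by rw [Finset.sum_const, he.2.1, nsmul_eq_mul, mul_one]
      calc θ * w * (gg (p e.2) - (3 * ξ + 76 * θ))
          ≤ θ * w * (gg ((∑ u ∈ e.1, x0 u e.2) / w) - 76 * θ) := by
            apply mul_le_mul_of_nonneg_left _ (mul_nonneg hθ0 hwR.le)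
            linarith
        _ = θ * (w * gg ((∑ u ∈ e.1, x0 u e.2) / w) - w * (76 * θ)) := by ring
        _ ≤ θ * (∑ u ∈ e.1, gg (x0 u e.2) - w * (76 * θ)) := by
            apply mul_le_mul_of_nonneg_left _ hθ0
            linarith
        _ = ∑ u ∈ e.1, θ * (gg (x0 u e.2) - 76 * θ) := by
            rw [← Finset.mul_sum, Finset.sum_sub_distrib, Finset.sum_const, he.2.1,
              nsmul_eq_mul]
        _ ≤ _ := Finset.sum_le_sum h4
    simp only [List.foldl_cons, List.length_cons, List.map_cons, List.sum_cons]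
    push_cast
    have h7 : θ * w * (gg (p e.2) + (l.map (fun e => gg (p e.2))).sum -
        ((l.length : ℝ) + 1) * (3 * ξ + 76 * θ)) =
        θ * w * (gg (p e.2) - (3 * ξ + 76 * θ)) +
        θ * w * ((l.map (fun e => gg (p e.2))).sum - l.length * (3 * ξ + 76 * θ)) := by ring
    rw [h7]
    linarith

/-- Main gain estimate.  One install step changes the potential by
`∑ u ∈ W, θ * (gg y - θ * (1 - y) ^ 2)`, where `y` is the current value `x u c`; the current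
value differs from the initial one by at most (number of steps) * `θ`, `gg` has slope at most `3`
on `[0,1]`, and `gg` is convex. -/
theorem gain_main {U : Finset ℕ} {x : ℕ → Fin 3 → ℝ} {h : ℕ → Fin 3} {w : ℕ} (hw : 0 < w)
    (hx0 : ∀ u ∈ U, ∀ c, 0 ≤ x u c) (hx1 : ∀ u ∈ U, ∑ c, x u c = 1)
    (hxh : ∀ u ∈ U, x u (h u) = 0) {l : List (Finset ℕ × Fin 3)} (hl : l.length ≤ 25)
    (hW : ∀ e ∈ l, e.1 ⊆ U ∧ e.1.card = w ∧ ∀ u ∈ e.1, e.2 ≠ h u)
    {p : Fin 3 → ℝ} (hp0 : ∀ c, 0 ≤ p c) (hp1 : ∀ c, p c ≤ 1) {ξ : ℝ} (hξ : 0 ≤ ξ)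
    (hp : ∀ e ∈ l, ∀ c, |(∑ u ∈ e.1, x u c) / w - p c| ≤ ξ)
    {θ : ℝ} (hθ0 : 0 ≤ θ) (hθ1 : θ ≤ 1) :
    θ * w * ((l.map (fun e => gg (p e.2))).sum - 25 * (3 * ξ + 76 * θ)) ≤
      pot U (l.foldl (inst θ) x) - pot U x := by
  have h1 := gain_main_aux hw hx0 hx1 hp0 hp1 hθ0 hθ1 hW hp 0 x (by omega) hx0 hx1 hxh
    (by intro u _ c; simp)
  refine le_trans ?_ h1
  apply mul_le_mul_of_nonneg_left _ (mul_nonneg hθ0 (Nat.cast_nonneg w))
  have h2 : (l.length : ℝ) ≤ 25 := by exact_mod_cast hl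
  have h3 : (l.length : ℝ) * (3 * ξ + 76 * θ) ≤ 25 * (3 * ξ + 76 * θ) :=
    mul_le_mul_of_nonneg_right h2 (by positivity)
  linarith

/-! ### Odd closed walks -/

lemma gg_pair {p : Fin 3 → ℝ} (hp0 : ∀ c, 0 ≤ p c) (hp1 : ∑ c, p c = 1) {i j : Fin 3}
    (hij : i ≠ j) : 0 ≤ gg (p i) + gg (p j) := by
  rw [Fin.sum_univ_three] at hp1
  unfold gg
  have key : ∀ a b c : ℝ, 0 ≤ c → a + b + c = 1 →
      0 ≤ (1 - a) * (1 - 2 * a) + (1 - b) * (1 - 2 * b) := by
    intro a b c hc habc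
    have : c = 1 - a - b := by linarith
    subst this
    nlinarith [sq_nonneg (a - b), sq_nonneg (1 - a - b)]
  have h0 := hp0 0
  have h1 := hp0 1
  have h2 := hp0 2
  fin_cases i <;> fin_cases j <;> simp at hij ⊢
  · exact key _ _ (p 2) h2 (by linarith)
  · exact key _ _ (p 1) h1 (by linarith)
  · exact key _ _ (p 2) h2 (by linarith)
  · exact key _ _ (p 0) h0 (by linarith)
  · exact key _ _ (p 1) h1 (by linarith)
  · exact key _ _ (p 0) h0 (by linarith)

lemma gg_walk_aux {V : Type*} {G : SimpleGraph V} {h : V → Fin 3}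
    (hh : ∀ a b, G.Adj a b → h a ≠ h b) {p : Fin 3 → ℝ} (hp0 : ∀ c, 0 ≤ p c)
    (hp1 : ∑ c, p c = 1) : ∀ (n : ℕ) {a b : V} (q : G.Walk a b), q.length = 2 * n →
    gg (p (h b)) ≤ (q.support.map (fun z => gg (p (h z)))).sum
  | 0, a, b, q, hq => by
    have : a = b := SimpleGraph.Walk.eq_of_length_eq_zero (by omega)
    subst this
    have h2 : q = SimpleGraph.Walk.nil := by
      cases q with
      | nil => rfl
      | cons _ _ => simp at hq
    subst h2
    simp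
  | n + 1, a, b, q, hq => by
    cases q with
    | nil => simp at hq
    | @cons _ v _ hav q1 =>
      cases q1 with
      | nil => simp at hq; omega
      | @cons _ v2 _ hv q2 =>
        have h2 := gg_walk_aux hh hp0 hp1 n q2 (by simp at hq; omega)
        simp only [SimpleGraph.Walk.support_cons, List.map_cons, List.sum_cons]
        have h3 := gg_pair hp0 hp1 (hh _ _ hav)
        linarith

lemma two_color_walk {V : Type*} {G : SimpleGraph V} {h : V → Fin 3}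
    (hh : ∀ a b, G.Adj a b → h a ≠ h b) {k : Fin 3} {a b : V} (q : G.Walk a b) :
    (∀ z ∈ q.support, h z ≠ k) → (Even q.length ↔ h a = h b) := by
  induction q with
  | nil => intro _; simp
  | @cons u v w huv q ih =>
    intro hq
    have h1 := ih (fun z hz => hq z (by simp [hz]))
    have h2 := hh _ _ huv
    have h3 := hq u (by simp)
    have h4 : h v ≠ k := hq v (by simp)
    have h5 : h w ≠ k := hq w (by simp)
    rw [SimpleGraph.Walk.length_cons, Nat.even_add_one, h1]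
    generalize h u = a1 at *
    generalize h v = a2 at *
    generalize h w = a3 at *
    clear h1 ih hq hh
    revert h2 h3 h4 h5
    revert a1 a2 a3 k
    decide

/-- On an odd closed walk in a properly 3-coloured graph the sum of `gg (p colour)` is at
least `7 / 144`: `gg (p i) + gg (p j) = p k + p k ^ 2 + (p i - p j) ^ 2 ≥ 0` for
`{i, j, k} = {0, 1, 2}`, all three colours occur, `gg ≥ -1/8`, and `gg (p k) ≥ 2/9` for the
colour with the smallest `p k`. -/
theorem gain_walk {V : Type*} {G : SimpleGraph V} {h : V → Fin 3}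
    (hh : ∀ a b, G.Adj a b → h a ≠ h b) {p : Fin 3 → ℝ} (hp0 : ∀ c, 0 ≤ p c)
    (hp1 : ∑ c, p c = 1) {x : V} (q : G.Walk x x) (hq : Odd q.length) :
    7 / 144 ≤ (q.support.tail.map (fun z => gg (p (h z)))).sum := by
  classical
  -- a colour with `p k ≤ 1/3`
  obtain ⟨k, hk⟩ : ∃ k, p k ≤ 1 / 3 := by
    by_contra hcon
    push Not at hcon
    have h0 := hcon 0
    have h1 := hcon 1
    have h2 := hcon 2
    rw [Fin.sum_univ_three] at hp1
    linarith
  -- it occurs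
  obtain ⟨z, hz, hzk⟩ : ∃ z ∈ q.support, h z = k := by
    by_contra hcon
    push Not at hcon
    have h1 := (two_color_walk hh q (k := k) hcon).mpr rfl
    exact (Nat.not_even_iff_odd.mpr hq) h1
  -- rotate
  have hrot : (q.support.tail.map (fun z => gg (p (h z)))).sum =
      ((q.rotate z hz).support.tail.map (fun z => gg (p (h z)))).sum := by
    apply List.Perm.sum_eq
    apply List.Perm.map
    exact (q.support_rotate z hz).perm.symm
  rw [hrot]
  have hlen : (q.rotate z hz).length = q.length := q.length_rotate z hz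
  generalize hq' : q.rotate z hz = q' at *
  cases q' with
  | nil => simp at hlen; rw [← hlen] at hq; simp at hq
  | @cons _ v _ hzv q1 =>
    rw [SimpleGraph.Walk.support_cons, List.tail_cons]
    rw [SimpleGraph.Walk.length_cons] at hlen
    obtain ⟨n, hn⟩ := hq
    have h1 := gg_walk_aux hh hp0 hp1 n q1 (by omega)
    rw [hzk] at h1
    refine le_trans ?_ h1
    have h2 := hp0 k
    unfold gg
    nlinarith

end Pool.Agent.Lib.MP_2c0425_lc
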