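import Pool.Agent.Lib.MP_2c0425_lc.Bip

open Finset

namespace Pool.Agent.Lib.MP_2c0425_lc

open Classical in
/-- The neighbours of `x` in `D`. -/
noncomputable def nbD (g : SimpleGraph ℕ) (D : Finset ℕ) (x : ℕ) : Finset ℕ :=
  D.filter (fun u => g.Adj x u)

/-- Bookkeeping of a heavy group: pairs of tests, refuted tests, index of the current pool. -/
structure KD where
  P : Finset (ℕ × ℕ)
  R : Finset ℕ
  p : ℕ

/-- the tests -/
def KD.T (K : KD) : Finset ℕ := K.P.image Prod.fst ∪ K.P.image Prod.snd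

/-- the class of the test `a`. -/
def cls (C : Finset ℕ) (c : ℕ → ℕ × ℕ × ℕ) (a : ℕ) : Finset ℕ :=
  C.filter (fun x => (c x).1 = 2 ∧ (c x).2.1 = a)

/-- Invariant of a heavy group (the fields may be changed freely; only the API below is
used). -/
structure KI (th : ℕ) (g : SimpleGraph ℕ) (D C : Finset ℕ) (c : ℕ → ℕ × ℕ × ℕ)
    (K : KD) : Prop where
  hTC : K.T ⊆ C
  hRT : K.R ⊆ K.T
  hdeg : ∀ x ∈ C, th ≤ (nbD g D x).card
  hcol : ∀ x ∈ C, (∃ i ≤ K.p, c x = (0, i, 0)) ∨ c x = (1, x, 0) ∨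
    ∃ a ∈ K.T, ∃ i, c x = (2, a, i)
  hown : (C.filter (fun x => c x = (1, x, 0))).card ≤ K.P.card + K.R.card
  hp : K.p ≤ K.P.card + K.R.card
  hpool : ∀ x ∈ C, ∀ y ∈ C, g.Adj x y → ∀ i, c x = (0, i, 0) → c y ≠ (0, i, 0)
  hcur : ∀ x ∈ C, c x = (0, K.p, 0) → x ∉ K.T ∧
    ∀ a ∈ K.T \ K.R, Disjoint (nbD g D x) (nbD g D a)
  hbip : ∀ a ∈ K.T, InvBip g (cls C c a) (fun x => (c x).2.2) ∧ NoOdd g (cls C c a)
  hcls : ∀ a ∈ K.T, ∀ x ∈ cls C c a, ¬ Disjoint (nbD g D x) (nbD g D a)
  hadj : ∀ q ∈ K.P, g.Adj q.1 q.2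
  hdis : ∀ q ∈ K.P, ∀ q' ∈ K.P, q ≠ q' → ∀ a, a = q.1 ∨ a = q.2 → a ∉ K.R →
    ∀ b, b = q'.1 ∨ b = q'.2 → b ∉ K.R → Disjoint (nbD g D a) (nbD g D b)
  href : ∀ a ∈ K.R, ∀ h : ℕ → Fin 3, Prp (rst g (C ∪ D)) h → (∃ k, ∀ u ∈ D, h u ≠ k) →
    ¬ ∃ i, ∀ u ∈ nbD g D a, h u = i

/-- Invariant of a heavy group. -/
def InvK (th : ℕ) (g : SimpleGraph ℕ) (D C : Finset ℕ) (c : ℕ → ℕ × ℕ × ℕ) : Prop :=
  ∃ K, KI th g D C c K

lemma mem_nbD {g : SimpleGraph ℕ} {D : Finset ℕ} {x u : ℕ} :
    u ∈ nbD g D x ↔ u ∈ D ∧ g.Adj x u := by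
  simp [nbD]

lemma mem_cls {C : Finset ℕ} {c : ℕ → ℕ × ℕ × ℕ} {a x : ℕ} :
    x ∈ cls C c a ↔ x ∈ C ∧ (c x).1 = 2 ∧ (c x).2.1 = a := by
  simp [cls]

lemma cls_subset {C : Finset ℕ} {c : ℕ → ℕ × ℕ × ℕ} {a : ℕ} : cls C c a ⊆ C :=
  fun _ hx => (mem_cls.1 hx).1

lemma KD.mem_T {K : KD} {a : ℕ} : a ∈ K.T ↔ ∃ q ∈ K.P, a = q.1 ∨ a = q.2 := by
  unfold KD.T
  rw [Finset.mem_union, Finset.mem_image, Finset.mem_image]
  constructor
  · rintro (⟨q, hq, rfl⟩ | ⟨q, hq, rfl⟩)
    · exact ⟨q, hq, Or.inl rfl⟩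
    · exact ⟨q, hq, Or.inr rfl⟩
  · rintro ⟨q, hq, rfl | rfl⟩
    · exact Or.inl ⟨q, hq, rfl⟩
    · exact Or.inr ⟨q, hq, rfl⟩

lemma nbD_congr {g g' : SimpleGraph ℕ} {D C : Finset ℕ}
    (hg : ∀ a ∈ C ∪ D, ∀ b ∈ C ∪ D, (g.Adj a b ↔ g'.Adj a b)) {x : ℕ} (hx : x ∈ C) :
    nbD g D x = nbD g' D x := by
  ext u
  rw [mem_nbD, mem_nbD]
  constructor
  · rintro ⟨h1, h2⟩
    exact ⟨h1, (hg x (Finset.mem_union_left _ hx) u (Finset.mem_union_right _ h1)).1 h2⟩
  · rintro ⟨h1, h2⟩
    exact ⟨h1, (hg x (Finset.mem_union_left _ hx) u (Finset.mem_union_right _ h1)).2 h2⟩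

lemma cls_congr {C : Finset ℕ} {c c' : ℕ → ℕ × ℕ × ℕ} (hc : ∀ a ∈ C, c a = c' a) (a : ℕ) :
    cls C c a = cls C c' a := by
  ext x
  rw [mem_cls, mem_cls]
  constructor
  · rintro ⟨h1, h2⟩
    exact ⟨h1, by rw [← hc x h1]; exact h2⟩
  · rintro ⟨h1, h2⟩
    exact ⟨h1, by rw [hc x h1]; exact h2⟩

lemma Prp.restrict {g : SimpleGraph ℕ} {E F : Finset ℕ} (hEF : E ⊆ F) {h : ℕ → Fin 3}
    (hp : Prp (rst g F) h) : Prp (rst g E) h :=
  fun a b hab => hp a b (rst_mono hEF hab)

lemma NoOdd.congr {g g' : SimpleGraph ℕ} {C : Finset ℕ}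
    (hg : ∀ a ∈ C, ∀ b ∈ C, (g.Adj a b ↔ g'.Adj a b)) (h : NoOdd g C) : NoOdd g' C := by
  unfold NoOdd at h ⊢
  rwa [← rst_congr hg]

lemma InvK.congr {th : ℕ} {g g' : SimpleGraph ℕ} {D C : Finset ℕ} {c c' : ℕ → ℕ × ℕ × ℕ}
    (hg : ∀ a ∈ C ∪ D, ∀ b ∈ C ∪ D, (g.Adj a b ↔ g'.Adj a b)) (hc : ∀ a ∈ C, c a = c' a)
    (h : InvK th g D C c) : InvK th g' D C c' := by
  obtain ⟨K, h⟩ := h
  have hgC : ∀ a ∈ C, ∀ b ∈ C, (g.Adj a b ↔ g'.Adj a b) := fun a ha b hb =>
    hg a (Finset.mem_union_left _ ha) b (Finset.mem_union_left _ hb)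
  have hr : rst g (C ∪ D) = rst g' (C ∪ D) := rst_congr hg
  have hn : ∀ x ∈ C, nbD g' D x = nbD g D x := fun x hx => (nbD_congr hg hx).symm
  have hcl : ∀ a, cls C c' a = cls C c a := fun a => (cls_congr hc a).symm
  have hP : ∀ q ∈ K.P, q.1 ∈ C ∧ q.2 ∈ C := fun q hq =>
    ⟨h.hTC (KD.mem_T.2 ⟨q, hq, Or.inl rfl⟩), h.hTC (KD.mem_T.2 ⟨q, hq, Or.inr rfl⟩)⟩
  refine ⟨K, ?_⟩
  constructor
  · exact h.hTC
  · exact h.hRT
  · intro x hx
    rw [hn x hx]
    exact h.hdeg x hx
  · intro x hx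
    rw [← hc x hx]
    exact h.hcol x hx
  · have : C.filter (fun x => c' x = (1, x, 0)) = C.filter (fun x => c x = (1, x, 0)) := by
      apply Finset.filter_congr
      intro x hx
      rw [hc x hx]
    rw [this]
    exact h.hown
  · exact h.hp
  · intro x hx y hy hxy i hxi
    rw [← hc y hy]
    rw [← hc x hx] at hxi
    exact h.hpool x hx y hy ((hgC x hx y hy).2 hxy) i hxi
  · intro x hx hxi
    rw [← hc x hx] at hxi
    obtain ⟨h1, h2⟩ := h.hcur x hx hxi
    refine ⟨h1, fun a ha => ?_⟩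
    have haC : a ∈ C := h.hTC (Finset.mem_sdiff.1 ha).1
    rw [hn x hx, hn a haC]
    exact h2 a ha
  · intro a ha
    rw [hcl a]
    obtain ⟨h1, h2⟩ := h.hbip a ha
    have hg1 : ∀ x ∈ cls C c a, ∀ y ∈ cls C c a, (g.Adj x y ↔ g'.Adj x y) :=
      fun x hx y hy => hgC x (cls_subset hx) y (cls_subset hy)
    refine ⟨h1.congr hg1 ?_, h2.congr hg1⟩
    intro x hx
    show (c x).2.2 = (c' x).2.2
    rw [hc x (cls_subset hx)]
  · intro a ha x hx
    rw [hcl a] at hx
    rw [hn x (cls_subset hx), hn a (h.hTC ha)]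
    exact h.hcls a ha x hx
  · intro q hq
    exact (hgC _ (hP q hq).1 _ (hP q hq).2).1 (h.hadj q hq)
  · intro q hq q' hq' hne a ha haR b hb hbR
    have haC : a ∈ C := by
      rcases ha with rfl | rfl
      · exact (hP q hq).1
      · exact (hP q hq).2
    have hbC : b ∈ C := by
      rcases hb with rfl | rfl
      · exact (hP q' hq').1
      · exact (hP q' hq').2
    rw [hn a haC, hn b hbC]
    exact h.hdis q hq q' hq' hne a ha haR b hb hbR
  · intro a ha f hf hk
    rw [hn a (h.hTC (h.hRT ha))]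
    rw [← hr] at hf
    exact h.href a ha f hf hk

lemma InvK.empty (th : ℕ) (g : SimpleGraph ℕ) (D : Finset ℕ) (c : ℕ → ℕ × ℕ × ℕ) :
    InvK th g D ∅ c := by
  refine ⟨⟨∅, ∅, 0⟩, ?_⟩
  constructor <;> simp [KD.T]

lemma InvK.proper {th : ℕ} {g : SimpleGraph ℕ} {D C : Finset ℕ} {c : ℕ → ℕ × ℕ × ℕ}
    (h : InvK th g D C c) : ∀ a ∈ C, ∀ b ∈ C, g.Adj a b → c a ≠ c b := by
  obtain ⟨K, h⟩ := h
  intro a ha b hb hab heq
  rcases h.hcol a ha with ⟨i, hi, hci⟩ | hci | ⟨t, ht, i, hci⟩
  · exact h.hpool a ha b hb hab i hci (heq ▸ hci)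
  · rcases h.hcol b hb with ⟨j, hj, hcj⟩ | hcj | ⟨t, ht, j, hcj⟩
    · rw [hci, hcj] at heq
      simp at heq
    · rw [hci, hcj] at heq
      simp only [Prod.mk.injEq, true_and, and_true] at heq
      exact g.loopless.irrefl a (heq ▸ hab)
    · rw [hci, hcj] at heq
      simp at heq
  · have h1 : a ∈ cls C c t := mem_cls.2 ⟨ha, by rw [hci], by rw [hci]⟩
    have h2 : b ∈ cls C c t := mem_cls.2 ⟨hb, by rw [← heq, hci], by rw [← heq, hci]⟩
    exact (h.hbip t ht).1.proper a h1 b h2 hab (by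
      show (c a).2.2 = (c b).2.2
      rw [heq])

/-- the class of `a` does not change when the new vertex is not put in it. -/
lemma cls_update {C : Finset ℕ} {c : ℕ → ℕ × ℕ × ℕ} {v : ℕ} (hv : v ∉ C)
    {b : ℕ × ℕ × ℕ} {a : ℕ} (hb : ¬ (b.1 = 2 ∧ b.2.1 = a)) :
    cls (insert v C) (Function.update c v b) a = cls C c a := by
  ext x
  rw [mem_cls, mem_cls, Finset.mem_insert]
  constructor
  · rintro ⟨rfl | h1, h2⟩
    · rw [Function.update_self] at h2
      exact absurd h2 hb
    · have hne : x ≠ v := fun h => hv (h ▸ h1)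
      rw [Function.update_of_ne hne] at h2
      exact ⟨h1, h2⟩
  · rintro ⟨h1, h2⟩
    have hne : x ≠ v := fun h => hv (h ▸ h1)
    rw [Function.update_of_ne hne]
    exact ⟨Or.inr h1, h2⟩

lemma cls_update_self {C : Finset ℕ} {c : ℕ → ℕ × ℕ × ℕ} {v : ℕ} (hv : v ∉ C)
    {a i : ℕ} :
    cls (insert v C) (Function.update c v (2, a, i)) a = insert v (cls C c a) := by
  ext x
  rw [mem_cls, Finset.mem_insert, Finset.mem_insert, mem_cls]
  constructor
  · rintro ⟨rfl | h1, h2⟩
    · exact Or.inl rfl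
    · have hne : x ≠ v := fun h => hv (h ▸ h1)
      rw [Function.update_of_ne hne] at h2
      exact Or.inr ⟨h1, h2⟩
  · rintro (rfl | ⟨h1, h2⟩)
    · rw [Function.update_self]
      exact ⟨Or.inl rfl, rfl, rfl⟩
    · have hne : x ≠ v := fun h => hv (h ▸ h1)
      rw [Function.update_of_ne hne]
      exact ⟨Or.inr h1, h2⟩

/-- A refuted test: the class of `a` with `v` has an odd closed walk. -/
lemma not_mono_of_odd {g : SimpleGraph ℕ} {D C E : Finset ℕ} {a : ℕ} (hE : E ⊆ C)
    (hcl : ∀ x ∈ E, ¬ Disjoint (nbD g D x) (nbD g D a)) (hno : ¬ NoOdd g E)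
    {h : ℕ → Fin 3} (hp : Prp (rst g (C ∪ D)) h) : ¬ ∃ i, ∀ u ∈ nbD g D a, h u = i := by
  rintro ⟨i, hi⟩
  apply hno
  have h1 : NoOdd (rst g (C ∪ D)) E := by
    apply noOdd_of_two hp (k := i)
    intro x hx
    obtain ⟨u, hu1, hu2⟩ := Finset.not_disjoint_iff.1 (hcl x hx)
    rw [← hi u hu2]
    have hu := mem_nbD.1 hu1
    exact hp x u ⟨hu.2, Finset.mem_union_left _ (hE hx), Finset.mem_union_right _ hu.1⟩
  refine NoOdd.congr ?_ h1
  intro x hx y hy
  constructor
  · intro hxy
    exact hxy.1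
  · intro hxy
    exact ⟨hxy, Finset.mem_union_left _ (hE hx), Finset.mem_union_left _ (hE hy)⟩

lemma KI.step_pool {th : ℕ} {g : SimpleGraph ℕ} {D C : Finset ℕ}
    {c : ℕ → ℕ × ℕ × ℕ} {K : KD} (h : KI th g D C c K) {v : ℕ} (hvC : v ∉ C)
    (hvd : th ≤ (nbD g D v).card)
    (hna : ∀ a ∈ K.T \ K.R, Disjoint (nbD g D v) (nbD g D a))
    (hnp : ∀ x ∈ C, c x = (0, K.p, 0) → ¬ g.Adj v x) :
    KI th g D (insert v C) (Function.update c v (0, K.p, 0)) K := by
  have hup : ∀ x ∈ C, Function.update c v (0, K.p, 0) x = c x := by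
    intro x hx
    have hne : x ≠ v := fun h => hvC (h ▸ hx)
    exact Function.update_of_ne hne _ _
  have hself : Function.update c v (0, K.p, 0) v = (0, K.p, 0) := Function.update_self _ _ _
  have hcl : ∀ a, cls (insert v C) (Function.update c v (0, K.p, 0)) a = cls C c a :=
    fun a => cls_update hvC (by simp)
  have hsub : C ∪ D ⊆ insert v C ∪ D :=
    Finset.union_subset_union_left (Finset.subset_insert _ _)
  constructor
  · exact h.hTC.trans (Finset.subset_insert _ _)
  · exact h.hRT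
  · intro x hx
    rcases Finset.mem_insert.1 hx with rfl | hx
    · exact hvd
    · exact h.hdeg x hx
  · intro x hx
    rcases Finset.mem_insert.1 hx with rfl | hx
    · exact Or.inl ⟨K.p, le_rfl, hself⟩
    · rw [hup x hx]
      exact h.hcol x hx
  · have : (insert v C).filter (fun x => Function.update c v (0, K.p, 0) x = (1, x, 0)) ⊆
        C.filter (fun x => c x = (1, x, 0)) := by
      intro x hx
      rw [Finset.mem_filter] at hx ⊢
      rcases Finset.mem_insert.1 hx.1 with rfl | hx1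
      · rw [hself] at hx
        simp at hx
      · rw [hup x hx1] at hx
        exact ⟨hx1, hx.2⟩
    exact (Finset.card_le_card this).trans h.hown
  · exact h.hp
  · intro x hx y hy hxy i hxi
    rcases Finset.mem_insert.1 hx with hx1 | hx1
    · subst hx1
      rw [hself] at hxi
      rcases Finset.mem_insert.1 hy with hy1 | hy1
      · subst hy1
        exact absurd hxy (g.loopless.irrefl _)
      · rw [hup y hy1, ← hxi]
        exact fun hcon => hnp y hy1 hcon hxy
    · rcases Finset.mem_insert.1 hy with hy1 | hy1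
      · subst hy1
        rw [hup x hx1] at hxi
        rw [hself]
        intro hcon
        exact hnp x hx1 (hxi.trans hcon.symm) hxy.symm
      · rw [hup x hx1] at hxi
        rw [hup y hy1]
        exact h.hpool x hx1 y hy1 hxy i hxi
  · intro x hx hxi
    rcases Finset.mem_insert.1 hx with rfl | hx
    · exact ⟨fun hcon => hvC (h.hTC hcon), hna⟩
    · rw [hup x hx] at hxi
      exact h.hcur x hx hxi
  · intro a ha
    rw [hcl a]
    obtain ⟨h1, h2⟩ := h.hbip a ha
    refine ⟨h1.congr (fun _ _ _ _ => Iff.rfl) ?_, h2⟩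
    intro x hx
    show (c x).2.2 = (Function.update c v (0, K.p, 0) x).2.2
    rw [hup x (cls_subset hx)]
  · intro a ha x hx
    rw [hcl a] at hx
    exact h.hcls a ha x hx
  · exact h.hadj
  · exact h.hdis
  · intro a ha f hf hk
    exact h.href a ha f (hf.restrict hsub) hk

lemma KI.step_class {th : ℕ} {g : SimpleGraph ℕ} {D C : Finset ℕ}
    {c : ℕ → ℕ × ℕ × ℕ} {K : KD} (h : KI th g D C c K) {v : ℕ} (hvC : v ∉ C)
    (hv : ∀ u ∈ C, u < v)
    (hvd : th ≤ (nbD g D v).card) {t : ℕ} (ht : t ∈ K.T)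
    (hvt : ¬ Disjoint (nbD g D v) (nbD g D t))
    (hno : NoOdd g (insert v (cls C c t))) :
    ∃ b, KI th g D (insert v C) (Function.update c v b) K := by
  obtain ⟨i, hi⟩ := (h.hbip t ht).1.step (v := v) (fun u hu => hv u (cls_subset hu))
  refine ⟨(2, t, i), ?_⟩
  have hup : ∀ x ∈ C, Function.update c v (2, t, i) x = c x := by
    intro x hx
    have hne : x ≠ v := fun h => hvC (h ▸ hx)
    exact Function.update_of_ne hne _ _
  have hself : Function.update c v (2, t, i) v = (2, t, i) := Function.update_self _ _ _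
  have hsub : C ∪ D ⊆ insert v C ∪ D :=
    Finset.union_subset_union_left (Finset.subset_insert _ _)
  constructor
  · exact h.hTC.trans (Finset.subset_insert _ _)
  · exact h.hRT
  · intro x hx
    rcases Finset.mem_insert.1 hx with rfl | hx
    · exact hvd
    · exact h.hdeg x hx
  · intro x hx
    rcases Finset.mem_insert.1 hx with rfl | hx
    · exact Or.inr (Or.inr ⟨t, ht, i, hself⟩)
    · rw [hup x hx]
      exact h.hcol x hx
  · have : (insert v C).filter (fun x => Function.update c v (2, t, i) x = (1, x, 0)) ⊆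
        C.filter (fun x => c x = (1, x, 0)) := by
      intro x hx
      rw [Finset.mem_filter] at hx ⊢
      rcases Finset.mem_insert.1 hx.1 with rfl | hx1
      · rw [hself] at hx
        simp at hx
      · rw [hup x hx1] at hx
        exact ⟨hx1, hx.2⟩
    exact (Finset.card_le_card this).trans h.hown
  · exact h.hp
  · intro x hx y hy hxy j hxi
    rcases Finset.mem_insert.1 hx with rfl | hx
    · rw [hself] at hxi
      simp at hxi
    · rcases Finset.mem_insert.1 hy with rfl | hy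
      · rw [hself]
        simp
      · rw [hup x hx] at hxi
        rw [hup y hy]
        exact h.hpool x hx y hy hxy j hxi
  · intro x hx hxi
    rcases Finset.mem_insert.1 hx with rfl | hx
    · rw [hself] at hxi
      simp at hxi
    · rw [hup x hx] at hxi
      exact h.hcur x hx hxi
  · intro a ha
    by_cases hat : a = t
    · subst hat
      rw [cls_update_self hvC]
      refine ⟨hi.congr (fun _ _ _ _ => Iff.rfl) ?_, hno⟩
      intro x hx
      rcases Finset.mem_insert.1 hx with rfl | hx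
      · rw [Function.update_self, hself]
      · have hxC : x ∈ C := cls_subset hx
        have hne : x ≠ v := fun h => hvC (h ▸ hxC)
        rw [Function.update_of_ne hne]
        show (c x).2.2 = (Function.update c v (2, a, i) x).2.2
        rw [hup x hxC]
    · rw [cls_update hvC (by simp; exact fun h => hat h.symm)]
      obtain ⟨h1, h2⟩ := h.hbip a ha
      refine ⟨h1.congr (fun _ _ _ _ => Iff.rfl) ?_, h2⟩
      intro x hx
      show (c x).2.2 = (Function.update c v (2, t, i) x).2.2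
      rw [hup x (cls_subset hx)]
  · intro a ha x hx
    by_cases hat : a = t
    · subst hat
      rw [cls_update_self hvC] at hx
      rcases Finset.mem_insert.1 hx with rfl | hx
      · exact hvt
      · exact h.hcls a ha x hx
    · rw [cls_update hvC (by simp; exact fun h => hat h.symm)] at hx
      exact h.hcls a ha x hx
  · exact h.hadj
  · exact h.hdis
  · intro a ha f hf hk
    exact h.href a ha f (hf.restrict hsub) hk

lemma KI.step_refute {th : ℕ} {g : SimpleGraph ℕ} {D C : Finset ℕ}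
    {c : ℕ → ℕ × ℕ × ℕ} {K : KD} (h : KI th g D C c K) {v : ℕ} (hvC : v ∉ C)
    (hvd : th ≤ (nbD g D v).card) {t : ℕ} (ht : t ∈ K.T) (htR : t ∉ K.R)
    (hvt : ¬ Disjoint (nbD g D v) (nbD g D t))
    (hno : ¬ NoOdd g (insert v (cls C c t))) :
    KI th g D (insert v C) (Function.update c v (1, v, 0)) ⟨K.P, insert t K.R, K.p + 1⟩ := by
  have hup : ∀ x ∈ C, Function.update c v (1, v, 0) x = c x := by
    intro x hx
    have hne : x ≠ v := fun h => hvC (h ▸ hx)
    exact Function.update_of_ne hne _ _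
  have hself : Function.update c v (1, v, 0) v = (1, v, 0) := Function.update_self _ _ _
  have hsub : C ∪ D ⊆ insert v C ∪ D :=
    Finset.union_subset_union_left (Finset.subset_insert _ _)
  have hcl : ∀ a, cls (insert v C) (Function.update c v (1, v, 0)) a = cls C c a :=
    fun a => cls_update hvC (by simp)
  have hT : KD.T ⟨K.P, insert t K.R, K.p + 1⟩ = K.T := rfl
  have hRc : (insert t K.R).card = K.R.card + 1 := Finset.card_insert_of_notMem htR
  constructor
  · exact h.hTC.trans (Finset.subset_insert _ _)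
  · exact Finset.insert_subset ht h.hRT
  · intro x hx
    rcases Finset.mem_insert.1 hx with rfl | hx
    · exact hvd
    · exact h.hdeg x hx
  · intro x hx
    rcases Finset.mem_insert.1 hx with rfl | hx
    · exact Or.inr (Or.inl hself)
    · rw [hup x hx]
      rcases h.hcol x hx with ⟨i, hi, hci⟩ | h1 | h1
      · exact Or.inl ⟨i, hi.trans (Nat.le_succ _), hci⟩
      · exact Or.inr (Or.inl h1)
      · exact Or.inr (Or.inr h1)
  · have : (insert v C).filter (fun x => Function.update c v (1, v, 0) x = (1, x, 0)) ⊆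
        insert v (C.filter (fun x => c x = (1, x, 0))) := by
      intro x hx
      rw [Finset.mem_insert, Finset.mem_filter]
      rw [Finset.mem_filter] at hx
      rcases Finset.mem_insert.1 hx.1 with rfl | hx1
      · exact Or.inl rfl
      · rw [hup x hx1] at hx
        exact Or.inr ⟨hx1, hx.2⟩
    show _ ≤ K.P.card + (insert t K.R).card
    rw [hRc]
    have h1 := Finset.card_le_card this
    have h2 := Finset.card_insert_le v (C.filter (fun x => c x = (1, x, 0)))
    have h3 := h.hown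
    omega
  · show K.p + 1 ≤ K.P.card + (insert t K.R).card
    rw [hRc]
    have := h.hp
    omega
  · intro x hx y hy hxy j hxi
    rcases Finset.mem_insert.1 hx with rfl | hx
    · rw [hself] at hxi
      simp at hxi
    · rcases Finset.mem_insert.1 hy with rfl | hy
      · rw [hself]
        simp
      · rw [hup x hx] at hxi
        rw [hup y hy]
        exact h.hpool x hx y hy hxy j hxi
  · intro x hx hxi
    exfalso
    rcases Finset.mem_insert.1 hx with rfl | hx
    · rw [hself] at hxi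
      simp at hxi
    · rw [hup x hx] at hxi
      rcases h.hcol x hx with ⟨i, hi, hci⟩ | h1 | ⟨a, ha, i, h1⟩
      · rw [hci] at hxi
        simp only [Prod.mk.injEq, true_and, and_true] at hxi
        omega
      · rw [h1] at hxi
        simp at hxi
      · rw [h1] at hxi
        simp at hxi
  · intro a ha
    rw [hcl a]
    obtain ⟨h1, h2⟩ := h.hbip a ha
    refine ⟨h1.congr (fun _ _ _ _ => Iff.rfl) ?_, h2⟩
    intro x hx
    show (c x).2.2 = (Function.update c v (1, v, 0) x).2.2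
    rw [hup x (cls_subset hx)]
  · intro a ha x hx
    rw [hcl a] at hx
    exact h.hcls a ha x hx
  · exact h.hadj
  · intro q hq q' hq' hne a ha haR b hb hbR
    exact h.hdis q hq q' hq' hne a ha (fun hh => haR (Finset.mem_insert_of_mem hh)) b hb
      (fun hh => hbR (Finset.mem_insert_of_mem hh))
  · intro a ha f hf hk
    rcases Finset.mem_insert.1 ha with rfl | ha
    · refine not_mono_of_odd (Finset.insert_subset_insert v cls_subset) ?_ hno hf
      intro x hx
      rcases Finset.mem_insert.1 hx with rfl | hx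
      · exact hvt
      · exact h.hcls a ht x hx
    · exact h.href a ha f (hf.restrict hsub) hk

lemma KI.step_pair {th : ℕ} {g : SimpleGraph ℕ} {D C : Finset ℕ}
    {c : ℕ → ℕ × ℕ × ℕ} {K : KD} (h : KI th g D C c K) {v : ℕ} (hvC : v ∉ C)
    (hvd : th ≤ (nbD g D v).card)
    (hna : ∀ a ∈ K.T \ K.R, Disjoint (nbD g D v) (nbD g D a))
    {x : ℕ} (hxC : x ∈ C) (hxp : c x = (0, K.p, 0)) (hvx : g.Adj v x) :
    KI th g D (insert v C) (Function.update c v (1, v, 0))
      ⟨insert (v, x) K.P, K.R, K.p + 1⟩ := by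
  have hup : ∀ x ∈ C, Function.update c v (1, v, 0) x = c x := by
    intro x hx
    have hne : x ≠ v := fun h => hvC (h ▸ hx)
    exact Function.update_of_ne hne _ _
  have hself : Function.update c v (1, v, 0) v = (1, v, 0) := Function.update_self _ _ _
  have hsub : C ∪ D ⊆ insert v C ∪ D :=
    Finset.union_subset_union_left (Finset.subset_insert _ _)
  have hcl : ∀ a, cls (insert v C) (Function.update c v (1, v, 0)) a = cls C c a :=
    fun a => cls_update hvC (by simp)
  have hvT : v ∉ K.T := fun hh => hvC (h.hTC hh)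
  obtain ⟨hxT, hxd⟩ := h.hcur x hxC hxp
  have hT : ∀ a, a ∈ KD.T ⟨insert (v, x) K.P, K.R, K.p + 1⟩ ↔ a = v ∨ a = x ∨ a ∈ K.T := by
    intro a
    rw [KD.mem_T, KD.mem_T]
    constructor
    · rintro ⟨q, hq, hqa⟩
      rcases Finset.mem_insert.1 hq with rfl | hq
      · rcases hqa with rfl | rfl
        · exact Or.inl rfl
        · exact Or.inr (Or.inl rfl)
      · exact Or.inr (Or.inr ⟨q, hq, hqa⟩)
    · rintro (rfl | rfl | ⟨q, hq, hqa⟩)
      · exact ⟨(a, x), Finset.mem_insert_self _ _, Or.inl rfl⟩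
      · exact ⟨(v, a), Finset.mem_insert_self _ _, Or.inr rfl⟩
      · exact ⟨q, Finset.mem_insert_of_mem hq, hqa⟩
  have hPn : (v, x) ∉ K.P := fun hh => hvT (KD.mem_T.2 ⟨_, hh, Or.inl rfl⟩)
  have hPc : (insert (v, x) K.P).card = K.P.card + 1 := Finset.card_insert_of_notMem hPn
  have hclemp : ∀ a, a ∉ K.T → cls C c a = ∅ := by
    intro a ha
    rw [Finset.eq_empty_iff_forall_notMem]
    intro y hy
    obtain ⟨hyC, hy1, hy2⟩ := mem_cls.1 hy
    rcases h.hcol y hyC with ⟨i, hi, hci⟩ | hci | ⟨t, ht, i, hci⟩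
    · rw [hci] at hy1
      simp at hy1
    · rw [hci] at hy1
      simp at hy1
    · rw [hci] at hy2
      exact ha (hy2 ▸ ht)
  constructor
  · intro a ha
    rcases (hT a).1 ha with rfl | rfl | ha
    · exact Finset.mem_insert_self _ _
    · exact Finset.mem_insert_of_mem hxC
    · exact Finset.mem_insert_of_mem (h.hTC ha)
  · intro a ha
    exact (hT a).2 (Or.inr (Or.inr (h.hRT ha)))
  · intro x hx
    rcases Finset.mem_insert.1 hx with rfl | hx
    · exact hvd
    · exact h.hdeg x hx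
  · intro x hx
    rcases Finset.mem_insert.1 hx with rfl | hx
    · exact Or.inr (Or.inl hself)
    · rw [hup x hx]
      rcases h.hcol x hx with ⟨i, hi, hci⟩ | h1 | ⟨a, ha, h1⟩
      · exact Or.inl ⟨i, hi.trans (Nat.le_succ _), hci⟩
      · exact Or.inr (Or.inl h1)
      · exact Or.inr (Or.inr ⟨a, (hT a).2 (Or.inr (Or.inr ha)), h1⟩)
  · have : (insert v C).filter (fun x => Function.update c v (1, v, 0) x = (1, x, 0)) ⊆
        insert v (C.filter (fun x => c x = (1, x, 0))) := by
      intro x hx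
      rw [Finset.mem_insert, Finset.mem_filter]
      rw [Finset.mem_filter] at hx
      rcases Finset.mem_insert.1 hx.1 with rfl | hx1
      · exact Or.inl rfl
      · rw [hup x hx1] at hx
        exact Or.inr ⟨hx1, hx.2⟩
    show _ ≤ (insert (v, x) K.P).card + K.R.card
    rw [hPc]
    have h1 := Finset.card_le_card this
    have h2 := Finset.card_insert_le v (C.filter (fun x => c x = (1, x, 0)))
    have h3 := h.hown
    omega
  · show K.p + 1 ≤ (insert (v, x) K.P).card + K.R.card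
    rw [hPc]
    have := h.hp
    omega
  · intro x hx y hy hxy j hxi
    rcases Finset.mem_insert.1 hx with rfl | hx
    · rw [hself] at hxi
      simp at hxi
    · rcases Finset.mem_insert.1 hy with rfl | hy
      · rw [hself]
        simp
      · rw [hup x hx] at hxi
        rw [hup y hy]
        exact h.hpool x hx y hy hxy j hxi
  · intro x hx hxi
    exfalso
    rcases Finset.mem_insert.1 hx with rfl | hx
    · rw [hself] at hxi
      simp at hxi
    · rw [hup x hx] at hxi
      rcases h.hcol x hx with ⟨i, hi, hci⟩ | h1 | ⟨a, ha, i, h1⟩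
      · rw [hci] at hxi
        simp only [Prod.mk.injEq, true_and, and_true] at hxi
        omega
      · rw [h1] at hxi
        simp at hxi
      · rw [h1] at hxi
        simp at hxi
  · intro a ha
    rw [hcl a]
    by_cases haT : a ∈ K.T
    · obtain ⟨h1, h2⟩ := h.hbip a haT
      refine ⟨h1.congr (fun _ _ _ _ => Iff.rfl) ?_, h2⟩
      intro x hx
      show (c x).2.2 = (Function.update c v (1, v, 0) x).2.2
      rw [hup x (cls_subset hx)]
    · rw [hclemp a haT]
      refine ⟨InvBip.empty _ _, ?_⟩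
      intro y p hodd
      cases p with
      | nil => simp at hodd
      | cons hab q => exact absurd hab.2.1 (Finset.notMem_empty _)
  · intro a ha y hy
    rw [hcl a] at hy
    by_cases haT : a ∈ K.T
    · exact h.hcls a haT y hy
    · rw [hclemp a haT] at hy
      exact absurd hy (Finset.notMem_empty _)
  · intro q hq
    rcases Finset.mem_insert.1 hq with rfl | hq
    · exact hvx
    · exact h.hadj q hq
  · have key : ∀ a, a = v ∨ a = x → ∀ q ∈ K.P, ∀ b, b = q.1 ∨ b = q.2 → b ∉ K.R →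
        Disjoint (nbD g D a) (nbD g D b) := by
      intro a ha q hq b hb hbR
      have hbT : b ∈ K.T \ K.R := Finset.mem_sdiff.2 ⟨KD.mem_T.2 ⟨q, hq, hb⟩, hbR⟩
      rcases ha with rfl | rfl
      · exact hna b hbT
      · exact hxd b hbT
    intro q hq q' hq' hne a ha haR b hb hbR
    rcases Finset.mem_insert.1 hq with rfl | hq
    · rcases Finset.mem_insert.1 hq' with rfl | hq'
      · exact absurd rfl hne
      · exact key a ha q' hq' b hb hbR
    · rcases Finset.mem_insert.1 hq' with rfl | hq'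
      · exact (key b hb q hq a ha haR).symm
      · exact h.hdis q hq q' hq' hne a ha haR b hb hbR
  · intro a ha f hf hk
    exact h.href a ha f (hf.restrict hsub) hk

/-- One step.  If `v` touches an active test `a` (i.e. `a ∈ T \ R`, `nbD v`, `nbD a` not
disjoint): join its class when there is no odd closed walk, else refute `a` (`R := insert a R`,
`p := p + 1`) and `v` gets its own colour `(1, v, 0)`.  If `v` touches no active test: join the
current pool `(0, p, 0)` if there is no neighbour in it; otherwise, with a neighbour `x` in the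
pool, add the pair `(v, x)`, `p := p + 1`, and `v` gets its own colour. -/
lemma InvK.step {th : ℕ} (hth : 0 < th) {g : SimpleGraph ℕ} {D C : Finset ℕ}
    {c : ℕ → ℕ × ℕ × ℕ} (h : InvK th g D C c) {v : ℕ} (hv : ∀ u ∈ C, u < v)
    (hvd : th ≤ (nbD g D v).card)
    (hcol : ∃ h : ℕ → Fin 3, Prp (rst g (insert v C ∪ D)) h ∧ ∃ k, ∀ u ∈ D, h u ≠ k) :
    ∃ a, InvK th g D (insert v C) (Function.update c v a) := by
  have _ := hth
  have _ := hcol
  have hvC : v ∉ C := fun hh => lt_irrefl _ (hv v hh)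
  obtain ⟨K, h⟩ := h
  by_cases htouch : ∃ t ∈ K.T \ K.R, ¬ Disjoint (nbD g D v) (nbD g D t)
  · obtain ⟨t, ht, hvt⟩ := htouch
    obtain ⟨htT, htR⟩ := Finset.mem_sdiff.1 ht
    by_cases hno : NoOdd g (insert v (cls C c t))
    · obtain ⟨b, hb⟩ := h.step_class hvC hv hvd htT hvt hno
      exact ⟨b, K, hb⟩
    · exact ⟨_, _, h.step_refute hvC hvd htT htR hvt hno⟩
  · have hna : ∀ a ∈ K.T \ K.R, Disjoint (nbD g D v) (nbD g D a) := by
      intro a ha
      by_contra hcon
      exact htouch ⟨a, ha, hcon⟩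
    by_cases hx : ∃ x ∈ C, c x = (0, K.p, 0) ∧ g.Adj v x
    · obtain ⟨x, hxC, hxp, hvx⟩ := hx
      exact ⟨_, _, h.step_pair hvC hvd hna hxC hxp hvx⟩
    · exact ⟨_, _, h.step_pool hvC hvd hna (fun x hxC hxp hvx => hx ⟨x, hxC, hxp, hvx⟩)⟩

/-- Not both tests of a pair are refuted. -/
lemma KI.not_both {th : ℕ} {g : SimpleGraph ℕ} {D C : Finset ℕ}
    {c : ℕ → ℕ × ℕ × ℕ} {K : KD} (h : KI th g D C c K)
    (hcol : ∃ h : ℕ → Fin 3, Prp (rst g (C ∪ D)) h ∧ ∃ k, ∀ u ∈ D, h u ≠ k)
    {q : ℕ × ℕ} (hq : q ∈ K.P) (h1 : q.1 ∈ K.R) (h2 : q.2 ∈ K.R) : False := by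
  obtain ⟨f, hf, k, hk⟩ := hcol
  have key : ∀ a ∈ K.R, f a = k := by
    intro a ha
    have haC : a ∈ C := h.hTC (h.hRT ha)
    have hnm := h.href a ha f hf ⟨k, hk⟩
    have hav : ∀ u ∈ nbD g D a, f a ≠ f u ∧ f u ≠ k := by
      intro u hu
      obtain ⟨hu1, hu2⟩ := mem_nbD.1 hu
      exact ⟨hf a u ⟨hu2, Finset.mem_union_left _ haC, Finset.mem_union_right _ hu1⟩,
        hk u hu1⟩
    by_contra hne
    apply hnm
    have : ∀ x k : Fin 3, x ≠ k → ∃ i : Fin 3, ∀ y, x ≠ y → y ≠ k → y = i := by decide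
    obtain ⟨i, hi⟩ := this (f a) k hne
    exact ⟨i, fun u hu => hi _ (hav u hu).1 (hav u hu).2⟩
  have hadj := h.hadj q hq
  have hC1 : q.1 ∈ C := h.hTC (h.hRT h1)
  have hC2 : q.2 ∈ C := h.hTC (h.hRT h2)
  exact hf q.1 q.2 ⟨hadj, Finset.mem_union_left _ hC1, Finset.mem_union_left _ hC2⟩
    ((key _ h1).trans (key _ h2).symm)

/-- Number of colours.  For each pair in `P` not both tests are refuted: otherwise, for the
given `h`, both ends have colour `k`, but they are adjacent.  Hence `|R| ≤ |P|` and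
`|P| * th ≤ |D|` (active tests of different pairs have disjoint sets `nbD`). -/
lemma InvK.bound {th : ℕ} (hth : 0 < th) {g : SimpleGraph ℕ} {D C : Finset ℕ}
    {c : ℕ → ℕ × ℕ × ℕ} (h : InvK th g D C c)
    (hcol : ∃ h : ℕ → Fin 3, Prp (rst g (C ∪ D)) h ∧ ∃ k, ∀ u ∈ D, h u ≠ k) :
    ∃ r, r * th ≤ D.card ∧
      (C.image c).card ≤ r * (4 * (Nat.log 2 C.card + 1) + 4) + 1 := by
  classical
  have _ := hth
  obtain ⟨K, h⟩ := h
  have hnb : ∀ q ∈ K.P, q.1 ∈ K.R → q.2 ∈ K.R → False := fun q hq h1 h2 =>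
    h.not_both hcol hq h1 h2
  refine ⟨K.P.card, ?_, ?_⟩
  · -- the disjoint neighbourhoods of active tests
    have hex : ∀ q : ℕ × ℕ, ∃ a, q ∈ K.P → (a = q.1 ∨ a = q.2) ∧ a ∉ K.R := by
      intro q
      by_cases hq : q ∈ K.P
      · by_cases h1 : q.1 ∈ K.R
        · exact ⟨q.2, fun _ => ⟨Or.inr rfl, fun h2 => hnb q hq h1 h2⟩⟩
        · exact ⟨q.1, fun _ => ⟨Or.inl rfl, h1⟩⟩
      · exact ⟨0, fun hh => absurd hh hq⟩
    choose s hs using hex
    have hdisj : ((K.P : Finset (ℕ × ℕ)) : Set (ℕ × ℕ)).PairwiseDisjoint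
        (fun q => nbD g D (s q)) := by
      intro q hq q' hq' hne
      have h1 := hs q hq
      have h2 := hs q' hq'
      exact h.hdis q hq q' hq' hne _ h1.1 h1.2 _ h2.1 h2.2
    have hsub : K.P.biUnion (fun q => nbD g D (s q)) ⊆ D := by
      intro u hu
      obtain ⟨q, _, hu⟩ := Finset.mem_biUnion.1 hu
      exact (mem_nbD.1 hu).1
    have h1 : ∑ _q ∈ K.P, th ≤ ∑ q ∈ K.P, (nbD g D (s q)).card := by
      apply Finset.sum_le_sum
      intro q hq
      apply h.hdeg
      exact h.hTC (KD.mem_T.2 ⟨q, hq, (hs q hq).1⟩)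
    rw [Finset.sum_const, smul_eq_mul, ← Finset.card_biUnion hdisj] at h1
    exact h1.trans (Finset.card_le_card hsub)
  · have hRP : K.R.card ≤ K.P.card := by
      have hex : ∀ a : ℕ, ∃ q, a ∈ K.R → q ∈ K.P ∧ (a = q.1 ∨ a = q.2) := by
        intro a
        by_cases ha : a ∈ K.R
        · obtain ⟨q, hq, hqa⟩ := KD.mem_T.1 (h.hRT ha)
          exact ⟨q, fun _ => ⟨hq, hqa⟩⟩
        · exact ⟨(0, 0), fun hh => absurd hh ha⟩
      choose s hs using hex
      apply Finset.card_le_card_of_injOn s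
      · intro a ha
        exact (hs a ha).1
      · intro a ha b hb hab
        obtain ⟨h1, h2⟩ := hs a ha
        obtain ⟨h3, h4⟩ := hs b hb
        rw [← hab] at h4
        by_contra hne
        apply hnb (s a) h1
        · rcases h2 with h2 | h2
          · rw [← h2]; exact ha
          · rcases h4 with h4 | h4
            · rw [← h4]; exact hb
            · exact absurd (h2.trans h4.symm) hne
        · rcases h2 with h2 | h2
          · rcases h4 with h4 | h4
            · exact absurd (h2.trans h4.symm) hne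
            · rw [← h4]; exact hb
          · rw [← h2]; exact ha
    have hTP : K.T.card ≤ 2 * K.P.card := by
      have h1 : K.T.card ≤ (K.P.image Prod.fst).card + (K.P.image Prod.snd).card :=
        Finset.card_union_le _ _
      have h2 : (K.P.image Prod.fst).card ≤ K.P.card := Finset.card_image_le
      have h3 : (K.P.image Prod.snd).card ≤ K.P.card := Finset.card_image_le
      omega
    set L := Nat.log 2 C.card with hL
    have hsub : C.image c ⊆ ((Finset.range (K.p + 1)).image (fun i => ((0 : ℕ), i, (0 : ℕ)))) ∪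
        (((C.filter (fun x => c x = (1, x, 0))).image (fun x => ((1 : ℕ), x, (0 : ℕ)))) ∪
        ((K.T ×ˢ Finset.range (2 * (L + 1))).image (fun z => ((2 : ℕ), z.1, z.2)))) := by
      intro y hy
      obtain ⟨x, hx, rfl⟩ := Finset.mem_image.1 hy
      rw [Finset.mem_union, Finset.mem_union]
      rcases h.hcol x hx with ⟨i, hi, hci⟩ | hci | ⟨t, ht, i, hci⟩
      · left
        exact Finset.mem_image.2 ⟨i, Finset.mem_range.2 (by omega), hci.symm⟩
      · right; left
        exact Finset.mem_image.2 ⟨x, Finset.mem_filter.2 ⟨hx, hci⟩, hci.symm⟩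
      · right; right
        have hxcl : x ∈ cls C c t := mem_cls.2 ⟨hx, by rw [hci], by rw [hci]⟩
        obtain ⟨hb1, hb2⟩ := h.hbip t ht
        have hb := hb1.bound hb2 hxcl
        have hmono : Nat.log 2 (cls C c t).card ≤ L :=
          Nat.log_mono_right (Finset.card_le_card cls_subset)
        have hi2 : i < 2 * (L + 1) := by
          have : (c x).2.2 = i := by rw [hci]
          simp only [this] at hb
          omega
        exact Finset.mem_image.2 ⟨(t, i), Finset.mem_product.2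
          ⟨ht, Finset.mem_range.2 hi2⟩, hci.symm⟩
    have h1 := Finset.card_le_card hsub
    have h2 := Finset.card_union_le
      ((Finset.range (K.p + 1)).image (fun i => ((0 : ℕ), i, (0 : ℕ))))
      (((C.filter (fun x => c x = (1, x, 0))).image (fun x => ((1 : ℕ), x, (0 : ℕ)))) ∪
        ((K.T ×ˢ Finset.range (2 * (L + 1))).image (fun z => ((2 : ℕ), z.1, z.2))))
    have h3 := Finset.card_union_le
      ((C.filter (fun x => c x = (1, x, 0))).image (fun x => ((1 : ℕ), x, (0 : ℕ))))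
      ((K.T ×ˢ Finset.range (2 * (L + 1))).image (fun z => ((2 : ℕ), z.1, z.2)))
    have h4 : ((Finset.range (K.p + 1)).image (fun i => ((0 : ℕ), i, (0 : ℕ)))).card ≤
        K.p + 1 := Finset.card_image_le.trans (by rw [Finset.card_range])
    have h5 : ((C.filter (fun x => c x = (1, x, 0))).image
        (fun x => ((1 : ℕ), x, (0 : ℕ)))).card ≤ K.P.card + K.R.card :=
      Finset.card_image_le.trans h.hown
    have h6 : ((K.T ×ˢ Finset.range (2 * (L + 1))).image
        (fun z => ((2 : ℕ), z.1, z.2))).card ≤ K.T.card * (2 * (L + 1)) :=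
      Finset.card_image_le.trans (by rw [Finset.card_product, Finset.card_range])
    have h7 : K.T.card * (2 * (L + 1)) ≤ (2 * K.P.card) * (2 * (L + 1)) :=
      Nat.mul_le_mul_right _ hTP
    have h8 := h.hp
    have h9 : (2 * K.P.card) * (2 * (L + 1)) = K.P.card * (4 * (L + 1)) := by ring
    have h10 : K.P.card * (4 * (L + 1) + 4) = K.P.card * (4 * (L + 1)) + 4 * K.P.card := by
      ring
    rw [h10]
    omega

end Pool.Agent.Lib.MP_2c0425_lc
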