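import Pool.Agent.Lib.MP_2c0425_lc.State

open Finset

namespace Pool.Agent.Lib.MP_2c0425_lc

lemma prof_nonneg {Z : Finset ℕ} {lam : ℕ → ℝ} (h : ∀ y ∈ Z, 0 ≤ lam y) (H : ℕ → Fin 3)
    (c : Fin 3) : 0 ≤ prof Z lam H c := by
  apply Finset.sum_nonneg
  intro y hy
  split_ifs
  · exact h y hy
  · exact le_rfl

lemma prof_sum (Z : Finset ℕ) (lam : ℕ → ℝ) (H : ℕ → Fin 3) :
    ∑ c, prof Z lam H c = ∑ y ∈ Z, lam y := by
  unfold prof
  rw [Finset.sum_comm]
  apply Finset.sum_congr rfl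
  intro y _
  rw [Finset.sum_ite_eq]
  simp

lemma OmI.nonneg {U Z : Finset ℕ} {Dst : ℕ → Finset ℕ} {om : ℕ → ℕ → ℝ}
    (h : OmI U Z Dst om) {u : ℕ} (hu : u ∈ U) (H : ℕ → Fin 3) (c : Fin 3) :
    0 ≤ prof Z (om u) H c := prof_nonneg (fun y _ => h.h0 u hu y) H c

lemma OmI.sum {U Z : Finset ℕ} {Dst : ℕ → Finset ℕ} {om : ℕ → ℕ → ℝ}
    (h : OmI U Z Dst om) {u : ℕ} (hu : u ∈ U) (H : ℕ → Fin 3) :
    ∑ c, prof Z (om u) H c = 1 := by
  rw [prof_sum, h.h1 u hu]

lemma OmI.le_one {U Z : Finset ℕ} {Dst : ℕ → Finset ℕ} {om : ℕ → ℕ → ℝ}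
    (h : OmI U Z Dst om) {u : ℕ} (hu : u ∈ U) (y : ℕ) : om u y ≤ 1 := by
  by_cases hy : om u y = 0
  · rw [hy]; exact zero_le_one
  · obtain ⟨h1, _⟩ := h.h2 u hu y hy
    rw [← h.h1 u hu]
    exact Finset.single_le_sum (fun i _ => h.h0 u hu i) h1

/-- The true colour of `u` does not occur in the profile of `u`. -/
lemma Geo.prof_zero {P : Par} {g : SimpleGraph ℕ} {t : ℕ} {D : MD} (hg : Geo P g t D)
    {h : ℕ → Fin 3} (hh : Prp (rst g (range t)) h) {u : ℕ} (hu : u ∈ D.U) :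
    prof D.Z (D.om u) (restr D.Z h) (h u) = 0 := by
  unfold prof
  apply Finset.sum_eq_zero
  intro y hy
  split_ifs with hc
  · by_contra hne
    obtain ⟨_, h2⟩ := hg.hom.h2 u hu y hne
    have h3 := (hg.hD y hy).2.2 u h2
    have h4 : (rst g (range t)).Adj y u := ⟨h3, hg.hZ hy, hg.hU hu⟩
    have h5 := hh y u h4
    simp only [restr, if_pos hy] at hc
    exact h5 hc
  · rfl

lemma lam_nonneg {P : Par} {g : SimpleGraph ℕ} {t : ℕ} {D : MD} (hg : Geo P g t D)
    {x : ℕ} (hx : D.W x ⊆ D.U) (y : ℕ) : 0 ≤ lam P D x y := by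
  apply div_nonneg _ (Nat.cast_nonneg _)
  exact Finset.sum_nonneg (fun u hu => hg.hom.h0 u (hx hu) y)

lemma lam_sum {P : Par} {g : SimpleGraph ℕ} {t : ℕ} {D : MD} (hw : 0 < P.w)
    (hg : Geo P g t D) {x : ℕ} (hx : D.W x ⊆ D.U) (hc : (D.W x).card = P.w) :
    ∑ y ∈ D.Z, lam P D x y = 1 := by
  unfold lam
  rw [← Finset.sum_div, Finset.sum_comm, Finset.sum_congr rfl (fun u hu => hg.hom.h1 u (hx hu))]
  rw [Finset.sum_const, hc, nsmul_eq_mul, mul_one]
  exact div_self (by exact_mod_cast hw.ne')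

lemma lam_r0 {P : Par} {g : SimpleGraph ℕ} {t : ℕ} {D : MD} (hw : 0 < P.w)
    (hg : Geo P g t D) {x : ℕ} (hx : Spr P g D x) {y : ℕ} (hy : y ∈ D.Z) :
    lam P D x y * P.r0 ≤ 1 := by
  have hw' : (0 : ℝ) < P.w := by exact_mod_cast hw
  unfold lam
  rw [div_mul_eq_mul_div, div_le_one hw']
  have h1 : ∑ u ∈ D.W x, D.om u y ≤ ((D.W x ∩ D.Dst y).card : ℝ) := by
    calc ∑ u ∈ D.W x, D.om u y ≤ ∑ u ∈ D.W x, (if u ∈ D.Dst y then (1 : ℝ) else 0) := by
          apply Finset.sum_le_sum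
          intro u hu
          split_ifs with hud
          · exact hg.hom.le_one (hx.hWU hu) y
          · by_contra hne
            push Not at hne
            exact hud (hg.hom.h2 u (hx.hWU hu) y hne.ne').2
      _ = ((D.W x ∩ D.Dst y).card : ℝ) := by
          rw [Finset.sum_ite_mem, Finset.sum_const, nsmul_eq_mul, mul_one]
  calc (∑ u ∈ D.W x, D.om u y) * (P.r0 : ℝ) ≤ ((D.W x ∩ D.Dst y).card : ℝ) * P.r0 :=
        mul_le_mul_of_nonneg_right h1 (Nat.cast_nonneg _)
    _ ≤ P.w := by exact_mod_cast hx.hWs y hy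

lemma lam_prof (P : Par) (D : MD) (x : ℕ) (H : ℕ → Fin 3) (c : Fin 3) :
    prof D.Z (lam P D x) H c = (∑ u ∈ D.W x, prof D.Z (D.om u) H c) / P.w := by
  unfold prof lam
  rw [Finset.sum_comm, Finset.sum_div]
  apply Finset.sum_congr rfl
  intro y _
  split_ifs
  · rfl
  · simp

lemma Phi_le {P : Par} {g : SimpleGraph ℕ} {t : ℕ} {D : MD} (hg : Geo P g t D)
    (H : ℕ → Fin 3) : Phi D H ≤ D.m * P.w / 2 := by
  unfold Phi pot
  have h1 : ∀ u ∈ D.U, (1 - ∑ c, prof D.Z (D.om u) H c ^ 2) / 2 ≤ (1 / 2 : ℝ) := by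
    intro u _
    have : 0 ≤ ∑ c, prof D.Z (D.om u) H c ^ 2 := Finset.sum_nonneg (fun c _ => sq_nonneg _)
    linarith
  refine (Finset.sum_le_card_nsmul _ _ _ h1).trans ?_
  rw [hg.hUc, nsmul_eq_mul]
  push_cast
  linarith

/-- The number of conflicts is bounded in terms of the number of first centres. -/
lemma Geo.C_le {P : Par} {g : SimpleGraph ℕ} {t : ℕ} {D : MD} (hg : Geo P g t D)
    (hΓ : 0 ≤ P.Γ) {h : ℕ → Fin 3} (hh : Prp (rst g (range t)) h) {K : ℕ}
    (hK : 3 * Real.exp (P.Γ * P.w / 2) ≤ 2 ^ K) : D.C ≤ K * D.m := by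
  have h1 : mu P D (restr D.Z h) ≤ mass P D :=
    Finset.single_le_sum (f := mu P D) (fun H _ => (mu_pos P D H).le) (hg.hHs h hh)
  have h2 : Real.exp (-(P.Γ * P.w / 2)) ^ D.m ≤ mu P D (restr D.Z h) := by
    rw [← Real.exp_nat_mul]
    apply Real.exp_le_exp.2
    have := mul_le_mul_of_nonneg_left (Phi_le hg (restr D.Z h)) hΓ
    linarith
  have h3 := (h2.trans h1).trans hg.hM
  have h4 : (2 : ℝ) ^ D.C ≤ (3 * Real.exp (P.Γ * P.w / 2)) ^ D.m := by
    rw [le_div_iff₀ (by positivity)] at h3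
    rw [mul_pow]
    have h5 : Real.exp (-(P.Γ * P.w / 2)) ^ D.m * Real.exp (P.Γ * P.w / 2) ^ D.m = 1 := by
      rw [← mul_pow, ← Real.exp_add]
      simp
    have h6 : (0 : ℝ) < Real.exp (P.Γ * P.w / 2) ^ D.m := by positivity
    calc (2 : ℝ) ^ D.C = Real.exp (-(P.Γ * P.w / 2)) ^ D.m * 2 ^ D.C *
          Real.exp (P.Γ * P.w / 2) ^ D.m := by
          rw [mul_right_comm, h5, one_mul]
      _ ≤ 3 ^ D.m * Real.exp (P.Γ * P.w / 2) ^ D.m :=
          mul_le_mul_of_nonneg_right h3 h6.le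
  have h5 : (2 : ℝ) ^ D.C ≤ 2 ^ (K * D.m) := by
    refine h4.trans ?_
    rw [pow_mul]
    exact pow_le_pow_left₀ (by positivity) hK _
  exact (pow_le_pow_iff_right₀ (by norm_num : (1 : ℝ) < 2)).1 h5

/-! ### A new first centre -/

/-- The weights after a new first centre. -/
noncomputable def omC (v : ℕ) (S : Finset ℕ) (om : ℕ → ℕ → ℝ) : ℕ → ℕ → ℝ :=
  fun u y => if u ∈ S then (if y = v then 1 else 0) else om u y

lemma OmI.centre {U Z : Finset ℕ} {Dst : ℕ → Finset ℕ} {om : ℕ → ℕ → ℝ}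
    (h : OmI U Z Dst om) {v : ℕ} {S : Finset ℕ} (hv : v ∉ Z) :
    OmI (U ∪ S) (insert v Z) (Function.update Dst v S) (omC v S om) := by
  constructor
  · intro u hu y
    unfold omC
    split_ifs with h1 h2
    · exact zero_le_one
    · exact le_rfl
    · rw [Finset.mem_union] at hu
      exact h.h0 u (hu.resolve_right h1) y
  · intro u hu
    unfold omC
    by_cases h1 : u ∈ S
    · simp only [if_pos h1]
      rw [Finset.sum_ite_eq']
      simp
    · simp only [if_neg h1]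
      rw [Finset.mem_union] at hu
      have hu' := hu.resolve_right h1
      rw [Finset.sum_insert hv, h.h1 u hu']
      have : om u v = 0 := by
        by_contra hne
        exact hv (h.h2 u hu' v hne).1
      rw [this, zero_add]
  · intro u hu y
    unfold omC
    by_cases h1 : u ∈ S
    · simp only [if_pos h1]
      split_ifs with h2
      · intro _
        subst h2
        rw [Function.update_self]
        exact ⟨Finset.mem_insert_self _ _, h1⟩
      · intro h3
        exact absurd rfl h3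
    · simp only [if_neg h1]
      intro h2
      rw [Finset.mem_union] at hu
      obtain ⟨h3, h4⟩ := h.h2 u (hu.resolve_right h1) y h2
      have : y ≠ v := fun hh => hv (hh ▸ h3)
      rw [Function.update_of_ne this]
      exact ⟨Finset.mem_insert_of_mem h3, h4⟩

lemma pot_centre {U Z S : Finset ℕ} {Dst : ℕ → Finset ℕ} {om : ℕ → ℕ → ℝ}
    (h : OmI U Z Dst om) {v : ℕ} (hv : v ∉ Z) (hS : Disjoint U S) (H : ℕ → Fin 3) :
    pot (U ∪ S) (fun u => prof (insert v Z) (omC v S om u) (restr (insert v Z) H)) =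
      pot U (fun u => prof Z (om u) (restr Z H)) := by
  unfold pot
  rw [Finset.sum_union hS]
  have h1 : ∑ u ∈ S, (1 - ∑ c, prof (insert v Z) (omC v S om u)
      (restr (insert v Z) H) c ^ 2) / 2 = 0 := by
    apply Finset.sum_eq_zero
    intro u hu
    have : ∀ c, prof (insert v Z) (omC v S om u) (restr (insert v Z) H) c =
        if H v = c then 1 else 0 := by
      intro c
      unfold prof omC
      simp only [if_pos hu]
      rw [Finset.sum_insert hv]
      rw [Finset.sum_eq_zero (s := Z)]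
      · simp [restr]
      · intro y hy
        have : y ≠ v := fun hh => hv (hh ▸ hy)
        simp [this]
    simp only [this]
    simp
  rw [h1, add_zero]
  apply Finset.sum_congr rfl
  intro u hu
  have hus : u ∉ S := Finset.disjoint_left.1 hS hu
  have : ∀ c, prof (insert v Z) (omC v S om u) (restr (insert v Z) H) c =
      prof Z (om u) (restr Z H) c := by
    intro c
    unfold prof omC
    simp only [if_neg hus]
    rw [Finset.sum_insert hv]
    have h2 : om u v = 0 := by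
      by_contra hne
      exact hv (h.h2 u hu v hne).1
    rw [h2, ite_self, zero_add]
    apply Finset.sum_congr rfl
    intro y hy
    simp [restr, hy]
  simp only [this]

end Pool.Agent.Lib.MP_2c0425_lc
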