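import Pool.Agent.Lib.MP_2c0425_lc.Basic

open Finset

namespace Pool.Agent.Lib.MP_2c0425_lc


/-- Bookkeeping of the colouring algorithm for graphs without short odd closed walks. -/
structure OGD where
  A : Finset ℕ
  Zc : Finset ℕ
  Gc : Finset ℕ
  own : ℕ → Finset ℕ
  last : ℕ → Finset ℕ
  NB : ℕ → Finset ℕ
  cl : ℕ → ℕ
  cur : ℕ → ℕ

/-- Two clusters are adjacent. -/
def cadj (G : SimpleGraph ℕ) (B : Finset ℕ) (cl : ℕ → ℕ)
    (z z' : ℕ) : Prop :=
  ∃ x ∈ B, ∃ y ∈ B, cl x = z ∧ cl y = z' ∧ G.Adj x y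

lemma cadj.symm {G : SimpleGraph ℕ} {B : Finset ℕ} {cl : ℕ → ℕ}
    {z z' : ℕ} (h : cadj G B cl z z') : cadj G B cl z' z := by
  obtain ⟨x, hx, y, hy, h1, h2, h3⟩ := h
  exact ⟨y, hy, x, hx, h2, h1, h3.symm⟩

open Classical in
/-- the level one colours used in a cluster. -/
noncomputable def colset (d : ℕ) (B : Finset ℕ) (cl : ℕ → ℕ)
    (c : ℕ → ℕ × ℕ × ℕ) (z : ℕ) : Finset ℕ :=
  (range (d * d)).filter (fun j => ∃ x ∈ B, cl x = z ∧ c x = (1, j, 0))

lemma mem_colset {d : ℕ} {B : Finset ℕ} {cl : ℕ → ℕ}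
    {c : ℕ → ℕ × ℕ × ℕ} {z : ℕ} {j : ℕ} :
    j ∈ colset d B cl c z ↔ j < d * d ∧ ∃ x ∈ B, cl x = z ∧ c x = (1, j, 0) := by
  simp [colset]

/-- The invariant of the algorithm, with its bookkeeping. -/
structure OGI (s0 d : ℕ) (G : SimpleGraph ℕ) (C : Finset ℕ)
    (c : ℕ → ℕ × ℕ × ℕ) (D : OGD) : Prop where
  hA : D.A ⊆ C
  hAc : ∀ x ∈ D.A, ∃ i < s0, c x = (0, i, 0)
  hAp : ∀ x ∈ D.A, ∀ y ∈ D.A, G.Adj x y → c x ≠ c y
  hZ : D.Zc ⊆ C \ D.A
  hown : ∀ z ∈ D.Zc, D.own z ⊆ D.A ∧ (D.own z).card = s0 ∧ ∀ a ∈ D.own z, G.Adj z a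
  hdisj : ∀ z ∈ D.Zc, ∀ z' ∈ D.Zc, z ≠ z' → Disjoint (D.own z) (D.own z')
  hcl : ∀ x ∈ C \ D.A, D.cl x ∈ D.Zc ∧ ∃ a ∈ D.own (D.cl x), G.Adj x a
  hlev : ∀ x ∈ C \ D.A, (∃ j < d * d, c x = (1, j, 0)) ∨ ∃ g ∈ D.Gc, c x = (2, g, 0)
  hcur : ∀ z ∈ D.Zc, colset d (C \ D.A) D.cl c z = ∅ ∨
    (D.cur z ∈ colset d (C \ D.A) D.cl c z ∧
      (∀ z' ∈ D.last z, z' ∈ D.Zc ∧ cadj G (C \ D.A) D.cl z z') ∧
      (D.last z).card < d ∧
      (colset d (C \ D.A) D.cl c z).card ≤ (D.last z).card + 1 ∧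
      ∀ z' ∈ D.last z, D.cur z ∉ colset d (C \ D.A) D.cl c z')
  hp : ∀ x ∈ C \ D.A, ∀ y ∈ C \ D.A, G.Adj x y → c x ≠ c y
  hG : D.Gc ⊆ C \ D.A
  hNB : ∀ g ∈ D.Gc, (∀ z' ∈ D.NB g, z' ∈ D.Zc ∧ cadj G (C \ D.A) D.cl (D.cl g) z') ∧
    (D.NB g).card = d
  hNBd : ∀ g ∈ D.Gc, ∀ g' ∈ D.Gc, g ≠ g' → Disjoint (D.NB g) (D.NB g')
  hlev2 : ∀ x ∈ C \ D.A, ∀ g ∈ D.Gc, c x = (2, g, 0) →
    ∃ z' ∈ D.NB g, cadj G (C \ D.A) D.cl (D.cl x) z'

/-- The invariant of the algorithm. -/
def InvOG (s0 d : ℕ) (G : SimpleGraph ℕ) (C : Finset ℕ)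
    (c : ℕ → ℕ × ℕ × ℕ) : Prop := ∃ D, OGI s0 d G C c D

lemma cadj_congr {G G' : SimpleGraph ℕ} {B : Finset ℕ} {cl : ℕ → ℕ}
    (hG : ∀ a ∈ B, ∀ b ∈ B, (G.Adj a b ↔ G'.Adj a b)) (z z' : ℕ) :
    cadj G B cl z z' ↔ cadj G' B cl z z' := by
  constructor
  · rintro ⟨x, hx, y, hy, h1, h2, h3⟩
    exact ⟨x, hx, y, hy, h1, h2, (hG x hx y hy).1 h3⟩
  · rintro ⟨x, hx, y, hy, h1, h2, h3⟩
    exact ⟨x, hx, y, hy, h1, h2, (hG x hx y hy).2 h3⟩

lemma colset_congr {d : ℕ} {B : Finset ℕ} {cl : ℕ → ℕ}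
    {c c' : ℕ → ℕ × ℕ × ℕ} (hc : ∀ a ∈ B, c a = c' a) (z : ℕ) :
    colset d B cl c z = colset d B cl c' z := by
  ext j
  simp only [mem_colset]
  constructor
  · rintro ⟨h1, x, hx, h2, h3⟩
    exact ⟨h1, x, hx, h2, by rw [← hc x hx]; exact h3⟩
  · rintro ⟨h1, x, hx, h2, h3⟩
    exact ⟨h1, x, hx, h2, by rw [hc x hx]; exact h3⟩

lemma OGI.congr {s0 d : ℕ} {G G' : SimpleGraph ℕ} {C : Finset ℕ}
    {c c' : ℕ → ℕ × ℕ × ℕ} {D : OGD}
    (hG : ∀ a ∈ C, ∀ b ∈ C, (G.Adj a b ↔ G'.Adj a b)) (hc : ∀ a ∈ C, c a = c' a)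
    (h : OGI s0 d G C c D) : OGI s0 d G' C c' D := by
  have hB : C \ D.A ⊆ C := Finset.sdiff_subset
  have hcs : ∀ z, colset d (C \ D.A) D.cl c z = colset d (C \ D.A) D.cl c' z :=
    fun z => colset_congr (fun a ha => hc a (hB ha)) z
  have hca : ∀ z z', cadj G (C \ D.A) D.cl z z' ↔ cadj G' (C \ D.A) D.cl z z' :=
    fun z z' => cadj_congr (fun a ha b hb => hG a (hB ha) b (hB hb)) z z'
  refine ⟨h.hA, ?_, ?_, h.hZ, ?_, h.hdisj, ?_, ?_, ?_, ?_, h.hG, ?_, h.hNBd, ?_⟩
  · intro x hx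
    rw [← hc x (h.hA hx)]
    exact h.hAc x hx
  · intro x hx y hy hxy
    rw [← hc x (h.hA hx), ← hc y (h.hA hy)]
    exact h.hAp x hx y hy ((hG x (h.hA hx) y (h.hA hy)).2 hxy)
  · intro z hz
    obtain ⟨h1, h2, h3⟩ := h.hown z hz
    exact ⟨h1, h2, fun a ha => (hG z (hB (h.hZ hz)) a (h.hA (h1 ha))).1 (h3 a ha)⟩
  · intro x hx
    obtain ⟨h1, a, ha, h2⟩ := h.hcl x hx
    exact ⟨h1, a, ha, (hG x (hB hx) a (h.hA ((h.hown _ h1).1 ha))).1 h2⟩
  · intro x hx
    rw [← hc x (hB hx)]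
    exact h.hlev x hx
  · intro z hz
    have := h.hcur z hz
    simp only [hcs, hca] at this
    exact this
  · intro x hx y hy hxy
    rw [← hc x (hB hx), ← hc y (hB hy)]
    exact h.hp x hx y hy ((hG x (hB hx) y (hB hy)).2 hxy)
  · intro g hg
    have := h.hNB g hg
    simp only [hca] at this
    exact this
  · intro x hx g hg hxg
    rw [← hc x (hB hx)] at hxg
    obtain ⟨z', h1, h2⟩ := h.hlev2 x hx g hg hxg
    exact ⟨z', h1, (hca _ _).1 h2⟩

lemma InvOG.congr {s0 d : ℕ} {G G' : SimpleGraph ℕ} {C : Finset ℕ}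
    {c c' : ℕ → ℕ × ℕ × ℕ}
    (hG : ∀ a ∈ C, ∀ b ∈ C, (G.Adj a b ↔ G'.Adj a b)) (hc : ∀ a ∈ C, c a = c' a)
    (h : InvOG s0 d G C c) : InvOG s0 d G' C c' := by
  obtain ⟨D, hD⟩ := h
  exact ⟨D, hD.congr hG hc⟩

lemma InvOG.empty (s0 d : ℕ) (G : SimpleGraph ℕ) (c : ℕ → ℕ × ℕ × ℕ) :
    InvOG s0 d G ∅ c := by
  refine ⟨⟨∅, ∅, ∅, fun _ => ∅, fun _ => ∅, fun _ => ∅, id, fun _ => 0⟩, ?_⟩
  constructor <;> simp

lemma InvOG.proper {s0 d : ℕ} {G : SimpleGraph ℕ} {C : Finset ℕ}
    {c : ℕ → ℕ × ℕ × ℕ} (h : InvOG s0 d G C c) :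
    ∀ a ∈ C, ∀ b ∈ C, G.Adj a b → c a ≠ c b := by
  obtain ⟨D, h⟩ := h
  have key : ∀ a ∈ D.A, ∀ b ∈ C \ D.A, c a ≠ c b := by
    intro a ha b hb hab
    obtain ⟨i, _, hi⟩ := h.hAc a ha
    rcases h.hlev b hb with ⟨j, _, hj⟩ | ⟨g, _, hg⟩
    · rw [hi, hj] at hab
      simp at hab
    · rw [hi, hg] at hab
      simp at hab
  intro a ha b hb hab
  by_cases h1 : a ∈ D.A
  · by_cases h2 : b ∈ D.A
    · exact h.hAp a h1 b h2 hab
    · exact key a h1 b (Finset.mem_sdiff.2 ⟨hb, h2⟩)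
  · by_cases h2 : b ∈ D.A
    · exact (key b h2 a (Finset.mem_sdiff.2 ⟨ha, h1⟩)).symm
    · exact h.hp a (Finset.mem_sdiff.2 ⟨ha, h1⟩) b (Finset.mem_sdiff.2 ⟨hb, h2⟩) hab

/-- number of colours. -/
lemma InvOG.bound {s0 d : ℕ} {G : SimpleGraph ℕ} {C : Finset ℕ}
    {c : ℕ → ℕ × ℕ × ℕ} (h : InvOG s0 d G C c) :
    ∃ r, (C.image c).card ≤ s0 + d * d + r ∧ r * (s0 * d) ≤ C.card := by
  classical
  obtain ⟨D, h⟩ := h
  refine ⟨D.Gc.card, ?_, ?_⟩
  · have hsub : C.image c ⊆ ((range s0).image (fun i => ((0, i, 0) : ℕ × ℕ × ℕ))) ∪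
        ((range (d * d)).image (fun j => ((1, j, 0) : ℕ × ℕ × ℕ))) ∪
        (D.Gc.image (fun g => ((2, g, 0) : ℕ × ℕ × ℕ))) := by
      intro y hy
      obtain ⟨x, hx, rfl⟩ := Finset.mem_image.1 hy
      by_cases hxA : x ∈ D.A
      · obtain ⟨i, hi, hci⟩ := h.hAc x hxA
        rw [hci]
        simp [hi]
      · rcases h.hlev x (Finset.mem_sdiff.2 ⟨hx, hxA⟩) with ⟨j, hj, hcj⟩ | ⟨g, hg, hcg⟩
        · rw [hcj]
          simp [hj]
        · rw [hcg]
          simp only [Finset.mem_union, Finset.mem_image]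
          exact Or.inr ⟨g, hg, rfl⟩
    refine (Finset.card_le_card hsub).trans ?_
    refine (Finset.card_union_le _ _).trans ?_
    refine add_le_add ((Finset.card_union_le _ _).trans ?_) Finset.card_image_le
    refine add_le_add ?_ ?_
    · exact Finset.card_image_le.trans (by simp)
    · exact Finset.card_image_le.trans (by simp)
  · have h1 : D.Gc.card * d ≤ D.Zc.card := by
      have : (D.Gc.biUnion D.NB).card = ∑ g ∈ D.Gc, (D.NB g).card :=
        Finset.card_biUnion (fun g hg g' hg' hne => h.hNBd g hg g' hg' hne)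
      rw [Finset.sum_congr rfl (fun g hg => (h.hNB g hg).2)] at this
      rw [Finset.sum_const, smul_eq_mul] at this
      rw [← this]
      refine Finset.card_le_card ?_
      intro z hz
      obtain ⟨g, hg, hz⟩ := Finset.mem_biUnion.1 hz
      exact ((h.hNB g hg).1 z hz).1
    have h2 : D.Zc.card * s0 ≤ D.A.card := by
      have : (D.Zc.biUnion D.own).card = ∑ g ∈ D.Zc, (D.own g).card :=
        Finset.card_biUnion (fun g hg g' hg' hne => h.hdisj g hg g' hg' hne)
      rw [Finset.sum_congr rfl (fun g hg => (h.hown g hg).2.1)] at this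
      rw [Finset.sum_const, smul_eq_mul] at this
      rw [← this]
      refine Finset.card_le_card ?_
      intro z hz
      obtain ⟨g, hg, hz⟩ := Finset.mem_biUnion.1 hz
      exact (h.hown g hg).1 hz
    have h3 : D.A.card ≤ C.card := Finset.card_le_card h.hA
    calc D.Gc.card * (s0 * d) = D.Gc.card * d * s0 := by ring
      _ ≤ D.Zc.card * s0 := Nat.mul_le_mul_right _ h1
      _ ≤ C.card := h2.trans h3


/-- The situation after the new vertex `v` has joined a cluster, before it is coloured. -/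
structure OGP (s0 d : ℕ) (G : SimpleGraph ℕ) (C : Finset ℕ)
    (c : ℕ → ℕ × ℕ × ℕ) (v : ℕ) (D : OGD) : Prop where
  hv : v ∉ C
  hA : D.A ⊆ C
  hAc : ∀ x ∈ D.A, ∃ i < s0, c x = (0, i, 0)
  hAp : ∀ x ∈ D.A, ∀ y ∈ D.A, G.Adj x y → c x ≠ c y
  hZ : D.Zc ⊆ insert v (C \ D.A)
  hown : ∀ z ∈ D.Zc, D.own z ⊆ D.A ∧ (D.own z).card = s0 ∧ ∀ a ∈ D.own z, G.Adj z a
  hdisj : ∀ z ∈ D.Zc, ∀ z' ∈ D.Zc, z ≠ z' → Disjoint (D.own z) (D.own z')
  hcl : ∀ x ∈ insert v (C \ D.A), D.cl x ∈ D.Zc ∧ ∃ a ∈ D.own (D.cl x), G.Adj x a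
  hlev : ∀ x ∈ C \ D.A, (∃ j < d * d, c x = (1, j, 0)) ∨ ∃ g ∈ D.Gc, c x = (2, g, 0)
  hcur : ∀ z ∈ D.Zc, colset d (C \ D.A) D.cl c z = ∅ ∨
    (D.cur z ∈ colset d (C \ D.A) D.cl c z ∧
      (∀ z' ∈ D.last z, z' ∈ D.Zc ∧ cadj G (insert v (C \ D.A)) D.cl z z') ∧
      (D.last z).card < d ∧
      (colset d (C \ D.A) D.cl c z).card ≤ (D.last z).card + 1 ∧
      ∀ z' ∈ D.last z, D.cur z ∉ colset d (C \ D.A) D.cl c z')
  hp : ∀ x ∈ C \ D.A, ∀ y ∈ C \ D.A, G.Adj x y → c x ≠ c y
  hG : D.Gc ⊆ C \ D.A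
  hNB : ∀ g ∈ D.Gc, (∀ z' ∈ D.NB g, z' ∈ D.Zc ∧
    cadj G (insert v (C \ D.A)) D.cl (D.cl g) z') ∧ (D.NB g).card = d
  hNBd : ∀ g ∈ D.Gc, ∀ g' ∈ D.Gc, g ≠ g' → Disjoint (D.NB g) (D.NB g')
  hlev2 : ∀ x ∈ C \ D.A, ∀ g ∈ D.Gc, c x = (2, g, 0) →
    ∃ z' ∈ D.NB g, cadj G (insert v (C \ D.A)) D.cl (D.cl x) z'

section finish

variable {s0 d : ℕ} {G : SimpleGraph ℕ} {C : Finset ℕ}
    {c : ℕ → ℕ × ℕ × ℕ} {v : ℕ} {D : OGD}

lemma OGP.walk4 (h : OGP s0 d G C c v D) {x y : ℕ} (hx : x ∈ insert v (C \ D.A))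
    (hy : y ∈ insert v (C \ D.A)) (hxy : D.cl x = D.cl y) :
    ∃ p : (rst G (insert v C)).Walk x y, p.length = 4 := by
  have hsub : insert v (C \ D.A) ⊆ insert v C :=
    Finset.insert_subset_insert _ Finset.sdiff_subset
  obtain ⟨hz, a, ha, hxa⟩ := h.hcl x hx
  obtain ⟨_, b, hb, hyb⟩ := h.hcl y hy
  rw [← hxy] at hb
  obtain ⟨ho1, _, ho2⟩ := h.hown _ hz
  have hzC : D.cl x ∈ insert v C := hsub (h.hZ hz)
  have haC : a ∈ insert v C := Finset.mem_insert_of_mem (h.hA (ho1 ha))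
  have hbC : b ∈ insert v C := Finset.mem_insert_of_mem (h.hA (ho1 hb))
  have e1 : (rst G (insert v C)).Adj x a := ⟨hxa, hsub hx, haC⟩
  have e2 : (rst G (insert v C)).Adj a (D.cl x) := ⟨(ho2 a ha).symm, haC, hzC⟩
  have e3 : (rst G (insert v C)).Adj (D.cl x) b := ⟨ho2 b hb, hzC, hbC⟩
  have e4 : (rst G (insert v C)).Adj b y := ⟨hyb.symm, hbC, hsub hy⟩
  exact ⟨.cons e1 (.cons e2 (.cons e3 (.cons e4 .nil))), by simp⟩

lemma OGP.noloop (h : OGP s0 d G C c v D) (hno : NoShortOdd 25 G (insert v C)) (z : ℕ) :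
    ¬ cadj G (insert v (C \ D.A)) D.cl z z := by
  rintro ⟨x, hx, y, hy, h1, h2, h3⟩
  have hsub : insert v (C \ D.A) ⊆ insert v C :=
    Finset.insert_subset_insert _ Finset.sdiff_subset
  obtain ⟨p, hp⟩ := h.walk4 hy hx (h2.trans h1.symm)
  have e1 : (rst G (insert v C)).Adj x y := ⟨h3, hsub hx, hsub hy⟩
  refine hno x (.cons e1 p) ?_ ?_
  · rw [SimpleGraph.Walk.length_cons, hp]; norm_num
  · rw [SimpleGraph.Walk.length_cons, hp]; decide

/-- a walk of length nine through two adjacent clusters. -/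
lemma OGP.walk5 (h : OGP s0 d G C c v D) {x z : ℕ} (hx : x ∈ insert v (C \ D.A))
    (hz : cadj G (insert v (C \ D.A)) D.cl (D.cl x) z) :
    ∃ y ∈ insert v (C \ D.A), D.cl y = z ∧
      ∃ p : (rst G (insert v C)).Walk x y, p.length = 5 := by
  have hsub : insert v (C \ D.A) ⊆ insert v C :=
    Finset.insert_subset_insert _ Finset.sdiff_subset
  obtain ⟨x', hx', y, hy, h1, h2, h3⟩ := hz
  obtain ⟨p, hp⟩ := h.walk4 hx hx' h1.symm
  have e1 : (rst G (insert v C)).Adj x' y := ⟨h3, hsub hx', hsub hy⟩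
  exact ⟨y, hy, h2, p.append e1.toWalk, by
    rw [SimpleGraph.Walk.length_append, hp]; simp⟩

lemma OGP.two (h : OGP s0 d G C c v D) (hno : NoShortOdd 25 G (insert v C)) {g x y z z' : ℕ}
    (hx : x ∈ insert v (C \ D.A))
    (hy : y ∈ insert v (C \ D.A))
    (hz : cadj G (insert v (C \ D.A)) D.cl (D.cl g) z)
    (hz' : cadj G (insert v (C \ D.A)) D.cl (D.cl g) z')
    (hxz : cadj G (insert v (C \ D.A)) D.cl (D.cl x) z)
    (hyz : cadj G (insert v (C \ D.A)) D.cl (D.cl y) z') : ¬ G.Adj x y := by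
  intro hxy
  have hsub : insert v (C \ D.A) ⊆ insert v C :=
    Finset.insert_subset_insert _ Finset.sdiff_subset
  obtain ⟨a, ha, hac, p1, hp1⟩ := h.walk5 hx hxz
  obtain ⟨a', ha', hac', p1', hp1'⟩ := h.walk5 hy hyz
  obtain ⟨g1, hg1, b, hb, e1, e2, e3⟩ := hz
  obtain ⟨g2, hg2, b', hb', e1', e2', e3'⟩ := hz'
  obtain ⟨q, hq⟩ := h.walk4 ha hb (hac.trans e2.symm)
  obtain ⟨q', hq'⟩ := h.walk4 hb' ha' (e2'.trans hac'.symm)
  obtain ⟨q2, hq2⟩ := h.walk4 hg1 hg2 (e1.trans e1'.symm)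
  have e : (rst G (insert v C)).Adj y x := ⟨hxy.symm, hsub hy, hsub hx⟩
  have eb : (rst G (insert v C)).Adj b g1 := ⟨e3.symm, hsub hb, hsub hg1⟩
  have eb' : (rst G (insert v C)).Adj g2 b' := ⟨e3', hsub hg2, hsub hb'⟩
  let w : (rst G (insert v C)).Walk x x :=
    (((((((p1.append q).append eb.toWalk).append q2).append eb'.toWalk).append q').append
      p1'.reverse).append e.toWalk)
  have hw : w.length = 25 := by
    simp only [w, SimpleGraph.Walk.length_append, SimpleGraph.Walk.length_reverse, hp1, hq,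
      hq2, hq', hp1']
    simp
  exact hno x w hw.le (by rw [hw]; decide)

lemma colset_one {B : Finset ℕ} {cl : ℕ → ℕ} {c : ℕ → ℕ × ℕ × ℕ} {v j : ℕ} (hv : v ∉ B)
    (hj : j < d * d) (z : ℕ) :
    colset d (insert v B) cl (Function.update c v (1, j, 0)) z =
      if cl v = z then insert j (colset d B cl c z) else colset d B cl c z := by
  classical
  have hne : ∀ x ∈ B, x ≠ v := fun x hx hxv => hv (hxv ▸ hx)
  ext i
  rw [mem_colset]
  constructor
  · rintro ⟨hi, x, hx, hxz, hxc⟩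
    rw [Finset.mem_insert] at hx
    rcases hx with rfl | hx
    · rw [Function.update_self] at hxc
      simp only [Prod.mk.injEq, and_true, true_and] at hxc
      rw [if_pos hxz, hxc]
      exact Finset.mem_insert_self _ _
    · rw [Function.update_of_ne (hne x hx)] at hxc
      have : i ∈ colset d B cl c z := mem_colset.2 ⟨hi, x, hx, hxz, hxc⟩
      split_ifs
      · exact Finset.mem_insert_of_mem this
      · exact this
  · intro hi
    have key : i ∈ colset d B cl c z → i < d * d ∧ ∃ x ∈ insert v B, cl x = z ∧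
        Function.update c v (1, j, 0) x = (1, i, 0) := by
      intro hi
      obtain ⟨h1, x, hx, hxz, hxc⟩ := mem_colset.1 hi
      exact ⟨h1, x, Finset.mem_insert_of_mem hx, hxz, by
        rw [Function.update_of_ne (hne x hx)]; exact hxc⟩
    split_ifs at hi with hz
    · rw [Finset.mem_insert] at hi
      rcases hi with rfl | hi
      · exact ⟨hj, v, Finset.mem_insert_self _ _, hz, by rw [Function.update_self]⟩
      · exact key hi
    · exact key hi

lemma colset_two {B : Finset ℕ} {cl : ℕ → ℕ} {c : ℕ → ℕ × ℕ × ℕ} {v g : ℕ} (hv : v ∉ B)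
    (z : ℕ) :
    colset d (insert v B) cl (Function.update c v (2, g, 0)) z = colset d B cl c z := by
  classical
  have hne : ∀ x ∈ B, x ≠ v := fun x hx hxv => hv (hxv ▸ hx)
  ext i
  rw [mem_colset, mem_colset]
  constructor
  · rintro ⟨hi, x, hx, hxz, hxc⟩
    rw [Finset.mem_insert] at hx
    rcases hx with rfl | hx
    · rw [Function.update_self] at hxc
      simp at hxc
    · rw [Function.update_of_ne (hne x hx)] at hxc
      exact ⟨hi, x, hx, hxz, hxc⟩
  · rintro ⟨hi, x, hx, hxz, hxc⟩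
    exact ⟨hi, x, Finset.mem_insert_of_mem hx, hxz, by
      rw [Function.update_of_ne (hne x hx)]; exact hxc⟩

lemma OGP.fin_small (h : OGP s0 d G C c v D) {j : ℕ} (hj : j < d * d) {L : Finset ℕ}
    (hL : ∀ z' ∈ L, z' ∈ D.Zc ∧ cadj G (insert v (C \ D.A)) D.cl (D.cl v) z')
    (hLd : L.card < d)
    (hcs : (insert j (colset d (C \ D.A) D.cl c (D.cl v))).card ≤ L.card + 1)
    (hjO : ∀ z' ∈ D.Zc, cadj G (insert v (C \ D.A)) D.cl (D.cl v) z' →
      j ∉ colset d (C \ D.A) D.cl c z')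
    (hloop : ¬ cadj G (insert v (C \ D.A)) D.cl (D.cl v) (D.cl v)) :
    OGI s0 d G (insert v C) (Function.update c v (1, j, 0))
      { D with last := Function.update D.last (D.cl v) L
               cur := Function.update D.cur (D.cl v) j } := by
  have hvA : v ∉ D.A := fun hh => h.hv (h.hA hh)
  have hvB : v ∉ C \ D.A := fun hh => h.hv (Finset.mem_sdiff.1 hh).1
  have hins : insert v C \ D.A = insert v (C \ D.A) := Finset.insert_sdiff_of_notMem _ hvA
  have hneA : ∀ x ∈ D.A, x ≠ v := fun x hx hxv => hvA (hxv ▸ hx)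
  have hneB : ∀ x ∈ C \ D.A, x ≠ v := fun x hx hxv => hvB (hxv ▸ hx)
  have hvI : v ∈ insert v (C \ D.A) := Finset.mem_insert_self _ _
  have hBI : C \ D.A ⊆ insert v (C \ D.A) := Finset.subset_insert _ _
  constructor
  · exact h.hA.trans (Finset.subset_insert _ _)
  · intro x hx
    rw [Function.update_of_ne (hneA x hx)]
    exact h.hAc x hx
  · intro x hx y hy hxy
    rw [Function.update_of_ne (hneA x hx), Function.update_of_ne (hneA y hy)]
    exact h.hAp x hx y hy hxy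
  · show D.Zc ⊆ insert v C \ D.A
    rw [hins]
    exact h.hZ
  · exact h.hown
  · exact h.hdisj
  · show ∀ x ∈ insert v C \ D.A, _
    rw [hins]
    exact h.hcl
  · show ∀ x ∈ insert v C \ D.A, _
    rw [hins]
    intro x hx
    rw [Finset.mem_insert] at hx
    rcases hx with rfl | hx
    · rw [Function.update_self]
      exact Or.inl ⟨j, hj, rfl⟩
    · rw [Function.update_of_ne (hneB x hx)]
      exact h.hlev x hx
  · show ∀ z ∈ D.Zc, colset d (insert v C \ D.A) D.cl (Function.update c v (1, j, 0)) z = ∅ ∨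
      (Function.update D.cur (D.cl v) j z ∈
        colset d (insert v C \ D.A) D.cl (Function.update c v (1, j, 0)) z ∧
      (∀ z' ∈ Function.update D.last (D.cl v) L z, z' ∈ D.Zc ∧
        cadj G (insert v C \ D.A) D.cl z z') ∧
      (Function.update D.last (D.cl v) L z).card < d ∧
      (colset d (insert v C \ D.A) D.cl (Function.update c v (1, j, 0)) z).card ≤
        (Function.update D.last (D.cl v) L z).card + 1 ∧
      ∀ z' ∈ Function.update D.last (D.cl v) L z, Function.update D.cur (D.cl v) j z ∉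
        colset d (insert v C \ D.A) D.cl (Function.update c v (1, j, 0)) z')
    rw [hins]
    intro z hz
    by_cases hzv : D.cl v = z
    · right
      subst hzv
      rw [Function.update_self, Function.update_self, colset_one hvB hj, if_pos rfl]
      refine ⟨Finset.mem_insert_self _ _, hL, hLd, hcs, ?_⟩
      intro z' hz'
      have h1 := hL z' hz'
      have hne : D.cl v ≠ z' := fun hh => hloop (by rw [← hh] at h1; exact h1.2)
      rw [colset_one hvB hj, if_neg hne]
      exact hjO z' h1.1 h1.2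
    · rw [Function.update_of_ne (Ne.symm hzv), Function.update_of_ne (Ne.symm hzv),
        colset_one hvB hj, if_neg hzv]
      rcases h.hcur z hz with h0 | ⟨h1, h2, h3, h4, h5⟩
      · exact Or.inl h0
      · right
        refine ⟨h1, h2, h3, h4, ?_⟩
        intro z' hz'
        rw [colset_one hvB hj]
        split_ifs with hvz'
        · rw [Finset.mem_insert, not_or]
          refine ⟨?_, h5 z' hz'⟩
          intro hcj
          have h6 := h2 z' hz'
          rw [← hvz'] at h6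
          exact hjO z hz h6.2.symm (hcj ▸ h1)
        · exact h5 z' hz'
  · show ∀ x ∈ insert v C \ D.A, ∀ y ∈ insert v C \ D.A, _
    rw [hins]
    have key : ∀ x ∈ C \ D.A, G.Adj v x → c x ≠ (1, j, 0) := by
      intro x hx hvx hcx
      have h1 : cadj G (insert v (C \ D.A)) D.cl (D.cl v) (D.cl x) :=
        ⟨v, hvI, x, hBI hx, rfl, rfl, hvx⟩
      exact hjO _ (h.hcl x (hBI hx)).1 h1 (mem_colset.2 ⟨hj, x, hx, rfl, hcx⟩)
    intro x hx y hy hxy
    rw [Finset.mem_insert] at hx hy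
    rcases hx with rfl | hx
    · rcases hy with rfl | hy
      · exact absurd hxy (G.loopless.irrefl _)
      · rw [Function.update_self, Function.update_of_ne (hneB y hy)]
        exact (key y hy hxy).symm
    · rcases hy with rfl | hy
      · rw [Function.update_self, Function.update_of_ne (hneB x hx)]
        exact key x hx hxy.symm
      · rw [Function.update_of_ne (hneB x hx), Function.update_of_ne (hneB y hy)]
        exact h.hp x hx y hy hxy
  · show D.Gc ⊆ insert v C \ D.A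
    rw [hins]
    exact h.hG.trans hBI
  · show ∀ g ∈ D.Gc, (∀ z' ∈ D.NB g, z' ∈ D.Zc ∧
      cadj G (insert v C \ D.A) D.cl (D.cl g) z') ∧ (D.NB g).card = d
    rw [hins]
    exact h.hNB
  · exact h.hNBd
  · show ∀ x ∈ insert v C \ D.A, ∀ g ∈ D.Gc, Function.update c v (1, j, 0) x = (2, g, 0) →
      ∃ z' ∈ D.NB g, cadj G (insert v C \ D.A) D.cl (D.cl x) z'
    rw [hins]
    intro x hx g hg hxg
    rw [Finset.mem_insert] at hx
    rcases hx with rfl | hx
    · rw [Function.update_self] at hxg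
      simp at hxg
    · rw [Function.update_of_ne (hneB x hx)] at hxg
      exact h.hlev2 x hx g hg hxg

open Classical in
/-- the clusters adjacent to the cluster of `v`. -/
noncomputable def nbc (G : SimpleGraph ℕ) (C : Finset ℕ) (v : ℕ) (D : OGD) : Finset ℕ :=
  D.Zc.filter (fun z' => cadj G (insert v (C \ D.A)) D.cl (D.cl v) z')

lemma mem_nbc {z' : ℕ} : z' ∈ nbc G C v D ↔
    z' ∈ D.Zc ∧ cadj G (insert v (C \ D.A)) D.cl (D.cl v) z' := by
  simp [nbc]

lemma OGP.small (h : OGP s0 d G C c v D) (hno : NoShortOdd 25 G (insert v C))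
    (hnb : (nbc G C v D).card < d) :
    ∃ a, InvOG s0 d G (insert v C) (Function.update c v a) := by
  classical
  have hvI : v ∈ insert v (C \ D.A) := Finset.mem_insert_self _ _
  have hloop := h.noloop hno (D.cl v)
  set O : Finset ℕ := (nbc G C v D).biUnion (fun z' => colset d (C \ D.A) D.cl c z') with hO
  have hcs : ∀ z' ∈ D.Zc, (colset d (C \ D.A) D.cl c z').card ≤ d := by
    intro z' hz'
    rcases h.hcur z' hz' with h0 | ⟨_, _, h3, h4, _⟩
    · rw [h0]; simp
    · omega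
  have hOc : O.card < d * d := by
    have h1 : O.card ≤ (nbc G C v D).card * d :=
      Finset.card_biUnion_le_card_mul _ _ _ (fun z' hz' => hcs z' (mem_nbc.1 hz').1)
    have h2 : (nbc G C v D).card * d < d * d := by
      apply Nat.mul_lt_mul_of_pos_right hnb
      omega
    omega
  have hjO : ∀ j, j ∉ O → ∀ z' ∈ D.Zc, cadj G (insert v (C \ D.A)) D.cl (D.cl v) z' →
      j ∉ colset d (C \ D.A) D.cl c z' := by
    intro j hj z' hz' hc hcon
    exact hj (Finset.mem_biUnion.2 ⟨z', mem_nbc.2 ⟨hz', hc⟩, hcon⟩)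
  obtain ⟨j0, hj0, hj0O⟩ : ∃ j ∈ range (d * d), j ∉ O := by
    by_contra hcon
    push Not at hcon
    have : (range (d * d)).card ≤ O.card := Finset.card_le_card hcon
    rw [Finset.card_range] at this
    omega
  rw [Finset.mem_range] at hj0
  have hzv := (h.hcl v hvI).1
  rcases h.hcur _ hzv with h0 | ⟨h1, h2, h3, h4, h5⟩
  · refine ⟨(1, j0, 0), _, h.fin_small hj0 (L := nbc G C v D)
      (fun z' hz' => mem_nbc.1 hz') hnb ?_ (hjO j0 hj0O) hloop⟩
    rw [h0]
    simp
  · have hsub : D.last (D.cl v) ⊆ nbc G C v D := fun z' hz' => mem_nbc.2 (h2 z' hz')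
    by_cases hcur : D.cur (D.cl v) ∈ O
    · refine ⟨(1, j0, 0), _, h.fin_small hj0 (L := nbc G C v D)
        (fun z' hz' => mem_nbc.1 hz') hnb ?_ (hjO j0 hj0O) hloop⟩
      obtain ⟨z', hz', hcz'⟩ := Finset.mem_biUnion.1 hcur
      have hlt : (D.last (D.cl v)).card < (nbc G C v D).card := by
        apply Finset.card_lt_card
        refine ⟨hsub, fun hcon => ?_⟩
        exact h5 z' (hcon hz') hcz'
      have := Finset.card_insert_le j0 (colset d (C \ D.A) D.cl c (D.cl v))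
      omega
    · refine ⟨(1, D.cur (D.cl v), 0), _, h.fin_small (mem_colset.1 h1).1 (L := nbc G C v D)
        (fun z' hz' => mem_nbc.1 hz') hnb ?_ (hjO _ hcur) hloop⟩
      rw [Finset.insert_eq_of_mem h1]
      have := Finset.card_le_card hsub
      omega

/-- the new vertex gets a colour of the last kind. -/
lemma OGP.fin_big (h : OGP s0 d G C c v D) {Gc' : Finset ℕ} {NB' : ℕ → Finset ℕ} {g : ℕ}
    (hG : Gc' ⊆ insert v (C \ D.A)) (hGs : D.Gc ⊆ Gc') (hgG : g ∈ Gc')
    (hNB : ∀ g ∈ Gc', (∀ z' ∈ NB' g, z' ∈ D.Zc ∧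
      cadj G (insert v (C \ D.A)) D.cl (D.cl g) z') ∧ (NB' g).card = d)
    (hNBd : ∀ g ∈ Gc', ∀ g' ∈ Gc', g ≠ g' → Disjoint (NB' g) (NB' g'))
    (hNe : ∀ g ∈ D.Gc, NB' g = D.NB g) (hGv : ∀ g ∈ Gc', g ∈ D.Gc ∨ g = v)
    (hv2 : ∃ z' ∈ NB' g, cadj G (insert v (C \ D.A)) D.cl (D.cl v) z')
    (hp : ∀ x ∈ C \ D.A, G.Adj v x → c x ≠ (2, g, 0)) :
    OGI s0 d G (insert v C) (Function.update c v (2, g, 0))
      { D with Gc := Gc', NB := NB' } := by
  have hvA : v ∉ D.A := fun hh => h.hv (h.hA hh)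
  have hvB : v ∉ C \ D.A := fun hh => h.hv (Finset.mem_sdiff.1 hh).1
  have hins : insert v C \ D.A = insert v (C \ D.A) := Finset.insert_sdiff_of_notMem _ hvA
  have hneA : ∀ x ∈ D.A, x ≠ v := fun x hx hxv => hvA (hxv ▸ hx)
  have hneB : ∀ x ∈ C \ D.A, x ≠ v := fun x hx hxv => hvB (hxv ▸ hx)
  have hvI : v ∈ insert v (C \ D.A) := Finset.mem_insert_self _ _
  have hBI : C \ D.A ⊆ insert v (C \ D.A) := Finset.subset_insert _ _
  constructor
  · exact h.hA.trans (Finset.subset_insert _ _)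
  · intro x hx
    rw [Function.update_of_ne (hneA x hx)]
    exact h.hAc x hx
  · intro x hx y hy hxy
    rw [Function.update_of_ne (hneA x hx), Function.update_of_ne (hneA y hy)]
    exact h.hAp x hx y hy hxy
  · show D.Zc ⊆ insert v C \ D.A
    rw [hins]
    exact h.hZ
  · exact h.hown
  · exact h.hdisj
  · show ∀ x ∈ insert v C \ D.A, _
    rw [hins]
    exact h.hcl
  · show ∀ x ∈ insert v C \ D.A, _
    rw [hins]
    intro x hx
    rw [Finset.mem_insert] at hx
    rcases hx with rfl | hx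
    · rw [Function.update_self]
      exact Or.inr ⟨g, hgG, rfl⟩
    · rw [Function.update_of_ne (hneB x hx)]
      rcases h.hlev x hx with h1 | ⟨g', hg', h1⟩
      · exact Or.inl h1
      · exact Or.inr ⟨g', hGs hg', h1⟩
  · show ∀ z ∈ D.Zc, colset d (insert v C \ D.A) D.cl (Function.update c v (2, g, 0)) z = ∅ ∨
      (D.cur z ∈ colset d (insert v C \ D.A) D.cl (Function.update c v (2, g, 0)) z ∧
      (∀ z' ∈ D.last z, z' ∈ D.Zc ∧ cadj G (insert v C \ D.A) D.cl z z') ∧
      (D.last z).card < d ∧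
      (colset d (insert v C \ D.A) D.cl (Function.update c v (2, g, 0)) z).card ≤
        (D.last z).card + 1 ∧
      ∀ z' ∈ D.last z, D.cur z ∉
        colset d (insert v C \ D.A) D.cl (Function.update c v (2, g, 0)) z')
    rw [hins]
    intro z hz
    simp only [colset_two hvB]
    exact h.hcur z hz
  · show ∀ x ∈ insert v C \ D.A, ∀ y ∈ insert v C \ D.A, _
    rw [hins]
    intro x hx y hy hxy
    rw [Finset.mem_insert] at hx hy
    rcases hx with rfl | hx
    · rcases hy with rfl | hy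
      · exact absurd hxy (G.loopless.irrefl _)
      · rw [Function.update_self, Function.update_of_ne (hneB y hy)]
        exact (hp y hy hxy).symm
    · rcases hy with rfl | hy
      · rw [Function.update_self, Function.update_of_ne (hneB x hx)]
        exact hp x hx hxy.symm
      · rw [Function.update_of_ne (hneB x hx), Function.update_of_ne (hneB y hy)]
        exact h.hp x hx y hy hxy
  · show Gc' ⊆ insert v C \ D.A
    rw [hins]
    exact hG
  · show ∀ g ∈ Gc', (∀ z' ∈ NB' g, z' ∈ D.Zc ∧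
      cadj G (insert v C \ D.A) D.cl (D.cl g) z') ∧ (NB' g).card = d
    rw [hins]
    exact hNB
  · exact hNBd
  · show ∀ x ∈ insert v C \ D.A, ∀ g' ∈ Gc', Function.update c v (2, g, 0) x = (2, g', 0) →
      ∃ z' ∈ NB' g', cadj G (insert v C \ D.A) D.cl (D.cl x) z'
    rw [hins]
    intro x hx g' hg' hxg
    rw [Finset.mem_insert] at hx
    rcases hx with rfl | hx
    · rw [Function.update_self] at hxg
      simp only [Prod.mk.injEq, and_true, true_and] at hxg
      rw [← hxg]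
      exact hv2
    · rw [Function.update_of_ne (hneB x hx)] at hxg
      rcases hGv g' hg' with hg2 | hg2
      · rw [hNe g' hg2]
        exact h.hlev2 x hx g' hg2 hxg
      · exfalso
        rcases h.hlev x hx with ⟨i, _, h1⟩ | ⟨g3, hg3, h1⟩
        · rw [h1] at hxg
          simp at hxg
        · rw [h1] at hxg
          simp only [Prod.mk.injEq, and_true, true_and] at hxg
          have := h.hG hg3
          rw [hxg, hg2] at this
          exact hvB this

lemma OGP.big (h : OGP s0 d G C c v D) (hno : NoShortOdd 25 G (insert v C)) (hd : 0 < d)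
    (hnb : d ≤ (nbc G C v D).card) :
    ∃ a, InvOG s0 d G (insert v C) (Function.update c v a) := by
  classical
  have hvB : v ∉ C \ D.A := fun hh => h.hv (Finset.mem_sdiff.1 hh).1
  have hvI : v ∈ insert v (C \ D.A) := Finset.mem_insert_self _ _
  have hBI : C \ D.A ⊆ insert v (C \ D.A) := Finset.subset_insert _ _
  by_cases hex : ∃ g ∈ D.Gc, ¬ Disjoint (D.NB g) (nbc G C v D)
  · obtain ⟨g, hg, hgd⟩ := hex
    rw [Finset.not_disjoint_iff] at hgd
    obtain ⟨z', hz1, hz2⟩ := hgd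
    refine ⟨(2, g, 0), _, h.fin_big (Gc' := D.Gc) (NB' := D.NB) (g := g) (h.hG.trans hBI)
      (Finset.Subset.refl _) hg h.hNB h.hNBd (fun _ _ => rfl) (fun _ hh => Or.inl hh)
      ⟨z', hz1, (mem_nbc.1 hz2).2⟩ ?_⟩
    intro x hx hvx hcx
    obtain ⟨z2, hz3, hz4⟩ := h.hlev2 x hx g hg hcx
    exact h.two hno (g := g) hvI (hBI hx) ((h.hNB g hg).1 z' hz1).2 ((h.hNB g hg).1 z2 hz3).2
      (mem_nbc.1 hz2).2 hz4 hvx
  · push Not at hex
    obtain ⟨S, hS, hSc⟩ := Finset.exists_subset_card_eq hnb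
    have hvG : v ∉ D.Gc := fun hh => hvB (h.hG hh)
    have hneG : ∀ g ∈ D.Gc, g ≠ v := fun g hg hgv => hvG (hgv ▸ hg)
    refine ⟨(2, v, 0), _, h.fin_big (Gc' := insert v D.Gc) (NB' := Function.update D.NB v S)
      (g := v) ?_ (Finset.subset_insert _ _) (Finset.mem_insert_self _ _) ?_ ?_ ?_ ?_ ?_ ?_⟩
    · rw [Finset.insert_subset_iff]
      exact ⟨hvI, h.hG.trans hBI⟩
    · intro g hg
      rw [Finset.mem_insert] at hg
      rcases hg with rfl | hg
      · rw [Function.update_self]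
        exact ⟨fun z' hz' => mem_nbc.1 (hS hz'), hSc⟩
      · rw [Function.update_of_ne (hneG g hg)]
        exact h.hNB g hg
    · intro g hg g' hg' hne
      rw [Finset.mem_insert] at hg hg'
      rcases hg with rfl | hg
      · rcases hg' with rfl | hg'
        · exact absurd rfl hne
        · rw [Function.update_self, Function.update_of_ne (hneG g' hg')]
          exact (Finset.disjoint_of_subset_right hS (hex g' hg')).symm
      · rcases hg' with rfl | hg'
        · rw [Function.update_self, Function.update_of_ne (hneG g hg)]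
          exact Finset.disjoint_of_subset_right hS (hex g hg)
        · rw [Function.update_of_ne (hneG g hg), Function.update_of_ne (hneG g' hg')]
          exact h.hNBd g hg g' hg' hne
    · intro g hg
      rw [Function.update_of_ne (hneG g hg)]
    · intro g hg
      rw [Finset.mem_insert] at hg
      exact hg.symm
    · rw [Function.update_self]
      have : S.Nonempty := Finset.card_pos.1 (by omega)
      obtain ⟨z', hz'⟩ := this
      exact ⟨z', hz', (mem_nbc.1 (hS hz')).2⟩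
    · intro x hx _ hcx
      rcases h.hlev x hx with ⟨i, _, h1⟩ | ⟨g3, hg3, h1⟩
      · rw [h1] at hcx
        simp at hcx
      · rw [h1] at hcx
        simp only [Prod.mk.injEq, and_true, true_and] at hcx
        exact hvG (hcx ▸ hg3)

lemma OGP.finish (h : OGP s0 d G C c v D) (hno : NoShortOdd 25 G (insert v C)) (hd : 0 < d) :
    ∃ a, InvOG s0 d G (insert v C) (Function.update c v a) := by
  rcases lt_or_ge (nbc G C v D).card d with h1 | h1
  · exact h.small hno h1
  · exact h.big hno hd h1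

end finish

section start

variable {s0 d : ℕ} {G : SimpleGraph ℕ} {C : Finset ℕ}
    {c : ℕ → ℕ × ℕ × ℕ} {v : ℕ} {D : OGD}

lemma cadj_mono {B B' : Finset ℕ} {cl cl' : ℕ → ℕ} {z z' : ℕ} (hB : B ⊆ B')
    (hcl : ∀ x ∈ B, cl' x = cl x) (h : cadj G B cl z z') : cadj G B' cl' z z' := by
  obtain ⟨x, hx, y, hy, h1, h2, h3⟩ := h
  exact ⟨x, hB hx, y, hB hy, by rw [hcl x hx, h1], by rw [hcl y hy, h2], h3⟩

lemma colset_cl {B : Finset ℕ} {cl cl' : ℕ → ℕ} (hcl : ∀ x ∈ B, cl' x = cl x) (z : ℕ) :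
    colset d B cl' c z = colset d B cl c z := by
  ext j
  rw [mem_colset, mem_colset]
  constructor
  · rintro ⟨h1, x, hx, h2, h3⟩
    exact ⟨h1, x, hx, by rw [← hcl x hx, h2], h3⟩
  · rintro ⟨h1, x, hx, h2, h3⟩
    exact ⟨h1, x, hx, by rw [hcl x hx, h2], h3⟩

/-- `v` gets a first fit colour. -/
lemma OGI.ff (h : OGI s0 d G C c D) (hv : v ∉ C) {i : ℕ} (hi : i < s0)
    (hfree : ∀ a ∈ D.A, G.Adj v a → c a ≠ (0, i, 0)) :
    OGI s0 d G (insert v C) (Function.update c v (0, i, 0)) { D with A := insert v D.A } := by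
  classical
  have hneC : ∀ x ∈ C, x ≠ v := fun x hx hxv => hv (hxv ▸ hx)
  have hneA : ∀ x ∈ D.A, x ≠ v := fun x hx => hneC x (h.hA hx)
  have hB : insert v C \ insert v D.A = C \ D.A := by
    ext x
    simp only [Finset.mem_sdiff, Finset.mem_insert, not_or]
    constructor
    · rintro ⟨h1 | h1, h2, h3⟩
      · exact absurd h1 h2
      · exact ⟨h1, h3⟩
    · rintro ⟨h1, h2⟩
      exact ⟨Or.inr h1, hneC x h1, h2⟩
  have hneB : ∀ x ∈ C \ D.A, x ≠ v := fun x hx => hneC x (Finset.mem_sdiff.1 hx).1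
  have hc : ∀ x ∈ C \ D.A, c x = Function.update c v (0, i, 0) x := by
    intro x hx
    rw [Function.update_of_ne (hneB x hx)]
  have hcs : ∀ z, colset d (C \ D.A) D.cl (Function.update c v (0, i, 0)) z =
      colset d (C \ D.A) D.cl c z := fun z => (colset_congr hc z).symm
  constructor
  · exact Finset.insert_subset_insert _ h.hA
  · show ∀ x ∈ insert v D.A, _
    intro x hx
    rw [Finset.mem_insert] at hx
    rcases hx with rfl | hx
    · rw [Function.update_self]
      exact ⟨i, hi, rfl⟩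
    · rw [Function.update_of_ne (hneA x hx)]
      exact h.hAc x hx
  · show ∀ x ∈ insert v D.A, ∀ y ∈ insert v D.A, _
    intro x hx y hy hxy
    rw [Finset.mem_insert] at hx hy
    rcases hx with rfl | hx
    · rcases hy with rfl | hy
      · exact absurd hxy (G.loopless.irrefl _)
      · rw [Function.update_self, Function.update_of_ne (hneA y hy)]
        exact (hfree y hy hxy).symm
    · rcases hy with rfl | hy
      · rw [Function.update_self, Function.update_of_ne (hneA x hx)]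
        exact hfree x hx hxy.symm
      · rw [Function.update_of_ne (hneA x hx), Function.update_of_ne (hneA y hy)]
        exact h.hAp x hx y hy hxy
  · show D.Zc ⊆ insert v C \ insert v D.A
    rw [hB]
    exact h.hZ
  · show ∀ z ∈ D.Zc, D.own z ⊆ insert v D.A ∧ (D.own z).card = s0 ∧
      ∀ a ∈ D.own z, G.Adj z a
    intro z hz
    obtain ⟨h1, h2, h3⟩ := h.hown z hz
    exact ⟨h1.trans (Finset.subset_insert _ _), h2, h3⟩
  · exact h.hdisj
  · show ∀ x ∈ insert v C \ insert v D.A, _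
    rw [hB]
    exact h.hcl
  · show ∀ x ∈ insert v C \ insert v D.A, _
    rw [hB]
    intro x hx
    rw [Function.update_of_ne (hneB x hx)]
    exact h.hlev x hx
  · show ∀ z ∈ D.Zc,
      colset d (insert v C \ insert v D.A) D.cl (Function.update c v (0, i, 0)) z = ∅ ∨
      (D.cur z ∈ colset d (insert v C \ insert v D.A) D.cl (Function.update c v (0, i, 0)) z ∧
      (∀ z' ∈ D.last z, z' ∈ D.Zc ∧ cadj G (insert v C \ insert v D.A) D.cl z z') ∧
      (D.last z).card < d ∧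
      (colset d (insert v C \ insert v D.A) D.cl (Function.update c v (0, i, 0)) z).card ≤
        (D.last z).card + 1 ∧
      ∀ z' ∈ D.last z, D.cur z ∉
        colset d (insert v C \ insert v D.A) D.cl (Function.update c v (0, i, 0)) z')
    rw [hB]
    simp only [hcs]
    exact h.hcur
  · show ∀ x ∈ insert v C \ insert v D.A, ∀ y ∈ insert v C \ insert v D.A, _
    rw [hB]
    intro x hx y hy hxy
    rw [Function.update_of_ne (hneB x hx), Function.update_of_ne (hneB y hy)]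
    exact h.hp x hx y hy hxy
  · show D.Gc ⊆ insert v C \ insert v D.A
    rw [hB]
    exact h.hG
  · show ∀ g ∈ D.Gc, (∀ z' ∈ D.NB g, z' ∈ D.Zc ∧
      cadj G (insert v C \ insert v D.A) D.cl (D.cl g) z') ∧ (D.NB g).card = d
    rw [hB]
    exact h.hNB
  · exact h.hNBd
  · show ∀ x ∈ insert v C \ insert v D.A, ∀ g ∈ D.Gc,
      Function.update c v (0, i, 0) x = (2, g, 0) →
      ∃ z' ∈ D.NB g, cadj G (insert v C \ insert v D.A) D.cl (D.cl x) z'
    rw [hB]
    intro x hx g hg hxg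
    rw [Function.update_of_ne (hneB x hx)] at hxg
    exact h.hlev2 x hx g hg hxg

/-- `v` joins an existing cluster. -/
lemma OGI.join (h : OGI s0 d G C c D) (hv : v ∉ C) {z a : ℕ} (hz : z ∈ D.Zc)
    (ha : a ∈ D.own z) (hva : G.Adj v a) :
    OGP s0 d G C c v { D with cl := Function.update D.cl v z } := by
  have hneC : ∀ x ∈ C, x ≠ v := fun x hx hxv => hv (hxv ▸ hx)
  have hneB : ∀ x ∈ C \ D.A, x ≠ v := fun x hx => hneC x (Finset.mem_sdiff.1 hx).1
  have hBI : C \ D.A ⊆ insert v (C \ D.A) := Finset.subset_insert _ _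
  have hcl : ∀ x ∈ C \ D.A, Function.update D.cl v z x = D.cl x := fun x hx => by
    rw [Function.update_of_ne (hneB x hx)]
  have hcs : ∀ z', colset d (C \ D.A) (Function.update D.cl v z) c z' =
      colset d (C \ D.A) D.cl c z' := fun z' => colset_cl hcl z'
  have hca : ∀ z' z'', cadj G (C \ D.A) D.cl z' z'' →
      cadj G (insert v (C \ D.A)) (Function.update D.cl v z) z' z'' :=
    fun _ _ hh => cadj_mono hBI hcl hh
  constructor
  · exact hv
  · exact h.hA
  · exact h.hAc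
  · exact h.hAp
  · exact h.hZ.trans hBI
  · exact h.hown
  · exact h.hdisj
  · show ∀ x ∈ insert v (C \ D.A), Function.update D.cl v z x ∈ D.Zc ∧
      ∃ a ∈ D.own (Function.update D.cl v z x), G.Adj x a
    intro x hx
    rw [Finset.mem_insert] at hx
    rcases hx with rfl | hx
    · rw [Function.update_self]
      exact ⟨hz, a, ha, hva⟩
    · rw [hcl x hx]
      exact h.hcl x hx
  · exact h.hlev
  · show ∀ z' ∈ D.Zc, colset d (C \ D.A) (Function.update D.cl v z) c z' = ∅ ∨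
      (D.cur z' ∈ colset d (C \ D.A) (Function.update D.cl v z) c z' ∧
      (∀ z'' ∈ D.last z', z'' ∈ D.Zc ∧
        cadj G (insert v (C \ D.A)) (Function.update D.cl v z) z' z'') ∧
      (D.last z').card < d ∧
      (colset d (C \ D.A) (Function.update D.cl v z) c z').card ≤ (D.last z').card + 1 ∧
      ∀ z'' ∈ D.last z', D.cur z' ∉ colset d (C \ D.A) (Function.update D.cl v z) c z'')
    simp only [hcs]
    intro z' hz'
    rcases h.hcur z' hz' with h0 | ⟨h1, h2, h3, h4, h5⟩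
    · exact Or.inl h0
    · exact Or.inr ⟨h1, fun z'' hz'' => ⟨(h2 z'' hz'').1, hca _ _ (h2 z'' hz'').2⟩, h3, h4, h5⟩
  · exact h.hp
  · exact h.hG
  · show ∀ g ∈ D.Gc, (∀ z' ∈ D.NB g, z' ∈ D.Zc ∧
      cadj G (insert v (C \ D.A)) (Function.update D.cl v z)
        (Function.update D.cl v z g) z') ∧ (D.NB g).card = d
    intro g hg
    obtain ⟨h1, h2⟩ := h.hNB g hg
    rw [hcl g (h.hG hg)]
    exact ⟨fun z' hz' => ⟨(h1 z' hz').1, hca _ _ (h1 z' hz').2⟩, h2⟩
  · exact h.hNBd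
  · show ∀ x ∈ C \ D.A, ∀ g ∈ D.Gc, c x = (2, g, 0) → ∃ z' ∈ D.NB g,
      cadj G (insert v (C \ D.A)) (Function.update D.cl v z)
        (Function.update D.cl v z x) z'
    intro x hx g hg hxg
    obtain ⟨z', h1, h2⟩ := h.hlev2 x hx g hg hxg
    rw [hcl x hx]
    exact ⟨z', h1, hca _ _ h2⟩

/-- `v` becomes a new centre. -/
lemma OGI.centre (h : OGI s0 d G C c D) (hv : v ∉ C) (hs0 : 0 < s0) {S : Finset ℕ}
    (hS : S ⊆ D.A) (hSc : S.card = s0) (hSa : ∀ a ∈ S, G.Adj v a)
    (hSd : ∀ z ∈ D.Zc, Disjoint S (D.own z)) :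
    OGP s0 d G C c v { D with cl := Function.update D.cl v v
                              Zc := insert v D.Zc
                              own := Function.update D.own v S } := by
  classical
  have hneC : ∀ x ∈ C, x ≠ v := fun x hx hxv => hv (hxv ▸ hx)
  have hneB : ∀ x ∈ C \ D.A, x ≠ v := fun x hx => hneC x (Finset.mem_sdiff.1 hx).1
  have hneZ : ∀ x ∈ D.Zc, x ≠ v := fun x hx => hneB x (h.hZ hx)
  have hBI : C \ D.A ⊆ insert v (C \ D.A) := Finset.subset_insert _ _
  have hcl : ∀ x ∈ C \ D.A, Function.update D.cl v v x = D.cl x := fun x hx => by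
    rw [Function.update_of_ne (hneB x hx)]
  have hcs : ∀ z', colset d (C \ D.A) (Function.update D.cl v v) c z' =
      colset d (C \ D.A) D.cl c z' := fun z' => colset_cl hcl z'
  have hca : ∀ z' z'', cadj G (C \ D.A) D.cl z' z'' →
      cadj G (insert v (C \ D.A)) (Function.update D.cl v v) z' z'' :=
    fun _ _ hh => cadj_mono hBI hcl hh
  constructor
  · exact hv
  · exact h.hA
  · exact h.hAc
  · exact h.hAp
  · show insert v D.Zc ⊆ insert v (C \ D.A)
    exact Finset.insert_subset_insert _ h.hZ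
  · show ∀ z ∈ insert v D.Zc, Function.update D.own v S z ⊆ D.A ∧
      (Function.update D.own v S z).card = s0 ∧ ∀ a ∈ Function.update D.own v S z, G.Adj z a
    intro z hz
    rw [Finset.mem_insert] at hz
    rcases hz with rfl | hz
    · rw [Function.update_self]
      exact ⟨hS, hSc, hSa⟩
    · rw [Function.update_of_ne (hneZ z hz)]
      exact h.hown z hz
  · show ∀ z ∈ insert v D.Zc, ∀ z' ∈ insert v D.Zc, z ≠ z' →
      Disjoint (Function.update D.own v S z) (Function.update D.own v S z')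
    intro z hz z' hz' hne
    rw [Finset.mem_insert] at hz hz'
    rcases hz with rfl | hz
    · rcases hz' with rfl | hz'
      · exact absurd rfl hne
      · rw [Function.update_self, Function.update_of_ne (hneZ z' hz')]
        exact hSd z' hz'
    · rcases hz' with rfl | hz'
      · rw [Function.update_self, Function.update_of_ne (hneZ z hz)]
        exact (hSd z hz).symm
      · rw [Function.update_of_ne (hneZ z hz), Function.update_of_ne (hneZ z' hz')]
        exact h.hdisj z hz z' hz' hne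
  · show ∀ x ∈ insert v (C \ D.A), Function.update D.cl v v x ∈ insert v D.Zc ∧
      ∃ a ∈ Function.update D.own v S (Function.update D.cl v v x), G.Adj x a
    intro x hx
    rw [Finset.mem_insert] at hx
    rcases hx with rfl | hx
    · rw [Function.update_self, Function.update_self]
      have : S.Nonempty := Finset.card_pos.1 (by omega)
      obtain ⟨a, ha⟩ := this
      exact ⟨Finset.mem_insert_self _ _, a, ha, hSa a ha⟩
    · obtain ⟨h1, h2⟩ := h.hcl x hx
      rw [hcl x hx, Function.update_of_ne (hneZ _ h1)]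
      exact ⟨Finset.mem_insert_of_mem h1, h2⟩
  · exact h.hlev
  · show ∀ z' ∈ insert v D.Zc, colset d (C \ D.A) (Function.update D.cl v v) c z' = ∅ ∨
      (D.cur z' ∈ colset d (C \ D.A) (Function.update D.cl v v) c z' ∧
      (∀ z'' ∈ D.last z', z'' ∈ insert v D.Zc ∧
        cadj G (insert v (C \ D.A)) (Function.update D.cl v v) z' z'') ∧
      (D.last z').card < d ∧
      (colset d (C \ D.A) (Function.update D.cl v v) c z').card ≤ (D.last z').card + 1 ∧
      ∀ z'' ∈ D.last z', D.cur z' ∉ colset d (C \ D.A) (Function.update D.cl v v) c z'')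
    simp only [hcs]
    intro z' hz'
    rw [Finset.mem_insert] at hz'
    rcases hz' with rfl | hz'
    · left
      rw [Finset.eq_empty_iff_forall_notMem]
      intro j hj
      obtain ⟨_, x, hx, hxz, _⟩ := mem_colset.1 hj
      have h1 := (h.hcl x hx).1
      rw [hxz] at h1
      exact hneZ _ h1 rfl
    · rcases h.hcur z' hz' with h0 | ⟨h1, h2, h3, h4, h5⟩
      · exact Or.inl h0
      · exact Or.inr ⟨h1, fun z'' hz'' => ⟨Finset.mem_insert_of_mem (h2 z'' hz'').1,
          hca _ _ (h2 z'' hz'').2⟩, h3, h4, h5⟩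
  · exact h.hp
  · exact h.hG
  · show ∀ g ∈ D.Gc, (∀ z' ∈ D.NB g, z' ∈ insert v D.Zc ∧
      cadj G (insert v (C \ D.A)) (Function.update D.cl v v)
        (Function.update D.cl v v g) z') ∧ (D.NB g).card = d
    intro g hg
    obtain ⟨h1, h2⟩ := h.hNB g hg
    rw [hcl g (h.hG hg)]
    exact ⟨fun z' hz' => ⟨Finset.mem_insert_of_mem (h1 z' hz').1, hca _ _ (h1 z' hz').2⟩, h2⟩
  · exact h.hNBd
  · show ∀ x ∈ C \ D.A, ∀ g ∈ D.Gc, c x = (2, g, 0) → ∃ z' ∈ D.NB g,
      cadj G (insert v (C \ D.A)) (Function.update D.cl v v)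
        (Function.update D.cl v v x) z'
    intro x hx g hg hxg
    obtain ⟨z', h1, h2⟩ := h.hlev2 x hx g hg hxg
    rw [hcl x hx]
    exact ⟨z', h1, hca _ _ h2⟩

/-- The algorithm always finds a colour. -/
lemma InvOG.step (h : InvOG s0 d G C c) (hv : v ∉ C) (hs0 : 0 < s0) (hd : 0 < d)
    (hno : NoShortOdd 25 G (insert v C)) :
    ∃ a, InvOG s0 d G (insert v C) (Function.update c v a) := by
  classical
  obtain ⟨D, h⟩ := h
  by_cases hff : ∃ i < s0, ∀ a ∈ D.A, G.Adj v a → c a ≠ (0, i, 0)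
  · obtain ⟨i, hi, hfree⟩ := hff
    exact ⟨_, _, h.ff hv hi hfree⟩
  · push Not at hff
    by_cases hj : ∃ z ∈ D.Zc, ∃ a ∈ D.own z, G.Adj v a
    · obtain ⟨z, hz, a, ha, hva⟩ := hj
      exact (h.join hv hz ha hva).finish hno hd
    · push Not at hj
      choose! f hf using hff
      have hcard : s0 ≤ (D.A.filter (fun a => G.Adj v a)).card := by
        have h1 : ((range s0).image f).card = s0 := by
          rw [Finset.card_image_of_injOn, Finset.card_range]
          intro i hi j hj hij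
          simp only [Finset.coe_range, Set.mem_Iio] at hi hj
          have h2 := (hf i hi).2.2
          have h3 := (hf j hj).2.2
          rw [hij, h3] at h2
          simp only [Prod.mk.injEq, and_true, true_and] at h2
          exact h2.symm
        rw [← h1]
        refine Finset.card_le_card ?_
        intro x hx
        obtain ⟨i, hi, rfl⟩ := Finset.mem_image.1 hx
        rw [Finset.mem_range] at hi
        exact Finset.mem_filter.2 ⟨(hf i hi).1, (hf i hi).2.1⟩
      obtain ⟨S, hS, hSc⟩ := Finset.exists_subset_card_eq hcard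
      have hSA : S ⊆ D.A := hS.trans (Finset.filter_subset _ _)
      have hSa : ∀ a ∈ S, G.Adj v a := fun a ha => (Finset.mem_filter.1 (hS ha)).2
      refine (h.centre hv hs0 hSA hSc hSa ?_).finish hno hd
      intro z hz
      rw [Finset.disjoint_left]
      intro a ha haz
      exact hj z hz a haz (hSa a ha)

end start

end Pool.Agent.Lib.MP_2c0425_lc
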