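import Pool.Agent.Lib.MP_2c0425_lc.Count

open Finset

namespace Pool.Agent.Lib.MP_2c0425_lc

/-- The constants. -/
structure Consts where
  γ : ℝ
  xi2 : ℝ
  t : ℕ
  K : ℕ
  hγ : 0 ≤ γ
  hx : 0 < xi2
  ht : 8 ≤ t * xi2
  hA : 3 ^ 25 * Real.exp (-(γ / 50)) ≤ 1 / 4
  hB : 3 ^ 25 * Real.exp (25 * γ) * (25 * xi2 / (1 / 7500) ^ 2) ≤ 1 / 4
  hK : 3 * Real.exp (γ * 190000 / 2) ≤ 2 ^ K

lemma exists_consts : Nonempty Consts := by
  set γ : ℝ := 50 * Real.log (4 * 3 ^ 25) with hγ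
  have h0 : 0 ≤ γ := by
    apply mul_nonneg (by norm_num)
    exact Real.log_nonneg (by norm_num)
  set B : ℝ := 3 ^ 25 * Real.exp (25 * γ) * 25 * 7500 ^ 2 with hB
  have hB0 : 0 < B := by positivity
  obtain ⟨t, ht⟩ := exists_nat_ge (8 * (4 * B))
  obtain ⟨K, hK⟩ := pow_unbounded_of_one_lt (3 * Real.exp (γ * 190000 / 2))
    (by norm_num : (1 : ℝ) < 2)
  refine ⟨⟨γ, 1 / (4 * B), t, K, h0, by positivity, ?_, ?_, ?_, hK.le⟩⟩
  · rw [mul_one_div, le_div_iff₀ (by positivity)]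
    exact ht
  · have : Real.exp (-(γ / 50)) = 1 / (4 * 3 ^ 25) := by
      have : -(γ / 50) = -Real.log (4 * 3 ^ 25) := by rw [hγ]; ring
      rw [this, Real.exp_neg, Real.exp_log (by norm_num)]
      norm_num
    rw [this]
    norm_num
  · have : 3 ^ 25 * Real.exp (25 * γ) * (25 * (1 / (4 * B)) / (1 / 7500) ^ 2) = B / (4 * B) := by
      rw [hB]
      ring
    rw [this]
    apply le_of_eq
    field_simp

/-- The parameters of the algorithm for at most `q ^ (27 * t + 24)` vertices. -/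
noncomputable def par (k : Consts) (q : ℕ) : Par where
  w := q ^ (18 * k.t + 15)
  r0 := q ^ (9 * k.t + 6)
  th := q ^ (9 * k.t + 9)
  s0 := q ^ (6 * k.t + 6)
  d := q ^ (3 * k.t + 3)
  τ := k.t
  θ := 1 / 190000
  Γ := k.γ * 190000 / (q : ℝ) ^ (18 * k.t + 15)
  xi2 := k.xi2

lemma par_ok (k : Consts) {q : ℕ} (hq : 0 < q) : ParOK (par k q) (1 / 7500) := by
  have hq' : (0 : ℝ) < q := by exact_mod_cast hq
  have hqp : (q : ℝ) ^ (18 * k.t + 15) ≠ 0 := by positivity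
  constructor
  · exact pow_pos hq _
  · exact pow_pos hq _
  · exact pow_pos hq _
  · show q ^ (18 * k.t + 15) = q ^ (9 * k.t + 9) * q ^ (9 * k.t + 6)
    rw [← pow_add]
    congr 1
    ring
  · exact pow_pos hq _
  · exact pow_pos hq _
  · show (0 : ℝ) < 1 / 190000
    norm_num
  · show (1 : ℝ) / 190000 ≤ 1
    norm_num
  · show 0 ≤ k.γ * 190000 / (q : ℝ) ^ (18 * k.t + 15)
    have := k.hγ
    positivity
  · norm_num
  · exact k.hx
  · exact k.ht
  · show 3 ^ 25 * Real.exp (-(k.γ * 190000 / (q : ℝ) ^ (18 * k.t + 15)) *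
      (1 / 190000 * ((q ^ (18 * k.t + 15) : ℕ) : ℝ) / 50)) ≤ 1 / 4
    have : -(k.γ * 190000 / (q : ℝ) ^ (18 * k.t + 15)) *
      (1 / 190000 * ((q ^ (18 * k.t + 15) : ℕ) : ℝ) / 50) = -(k.γ / 50) := by
      push_cast
      field_simp
    rw [this]
    exact k.hA
  · show 3 ^ 25 * Real.exp (k.γ * 190000 / (q : ℝ) ^ (18 * k.t + 15) *
      (25 * (1 / 190000 * ((q ^ (18 * k.t + 15) : ℕ) : ℝ)))) *
      (25 * k.xi2 / (1 / 7500) ^ 2) ≤ 1 / 4
    have : k.γ * 190000 / (q : ℝ) ^ (18 * k.t + 15) *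
      (25 * (1 / 190000 * ((q ^ (18 * k.t + 15) : ℕ) : ℝ))) = 25 * k.γ := by
      push_cast
      field_simp
    rw [this]
    exact k.hB
  · show (25 : ℝ) * (3 * (1 / 7500) + 76 * (1 / 190000)) ≤ 7 / 144 - 1 / 50
    norm_num

/-- The constant in the number of colours. -/
def Consts.B (k : Consts) : ℕ :=
  2 + (k.K + 1) + (1 + 25 * k.K) * 9 + 4 * (k.K + 2) * (1 + 25 * k.K) ^ k.t + 1

/-- Number of colours used by the algorithm. -/
theorem colours_le (k : Consts) {q : ℕ} (hq : 0 < q) {g : SimpleGraph ℕ} {n : ℕ}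
    {c : ℕ → Col} (h : Inv (par k q) g n c) (hn : n ≤ q ^ (27 * k.t + 24))
    (hcol : ∃ h', Prp (rst g (range n)) h') :
    ((range n).image c).card ≤ k.B * (Nat.log 2 n + 1) * q ^ (18 * k.t + 15) := by
  obtain ⟨D, h⟩ := h
  have hP := par_ok k hq
  obtain ⟨R, hR, hT⟩ := total_card hP h hcol
  have hT' : ((range n).image c).card ≤ 2 * q ^ (18 * k.t + 15) + (D.m + D.C) +
      D.Z.card * (q ^ (9 * k.t + 6) * (4 * (Nat.log 2 n + 1) + 4) + 1) +
      ((phc c n).card * (q ^ (6 * k.t + 6) + q ^ (3 * k.t + 3) * q ^ (3 * k.t + 3)) + R) := hT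
  have hR' : R * (q ^ (6 * k.t + 6) * q ^ (3 * k.t + 3)) ≤ n := hR
  obtain ⟨h', hh⟩ := hcol
  set a := q ^ (18 * k.t + 15) with ha
  set b := q ^ (9 * k.t + 9) with hb
  set K1 := 1 + 25 * k.K with hK1
  have hapos : 0 < a := pow_pos hq _
  have hbpos : 0 < b := pow_pos hq _
  have hab : q ^ (27 * k.t + 24) = b * a := by
    rw [ha, hb, ← pow_add]
    congr 1
    ring
  have hm : D.m ≤ b := by
    have h1 : D.m * a ≤ n := by
      have h2 : D.U.card = D.m * a := h.geo.hUc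
      rw [← h2]
      have := Finset.card_le_card h.geo.hU
      rwa [Finset.card_range] at this
    exact Nat.le_of_mul_le_mul_right (h1.trans (hn.trans hab.le)) hapos
  have hC : D.C ≤ k.K * D.m := by
    apply h.geo.C_le hP.hΓ hh
    show 3 * Real.exp (k.γ * 190000 / (q : ℝ) ^ (18 * k.t + 15) *
      ((q ^ (18 * k.t + 15) : ℕ) : ℝ) / 2) ≤ 2 ^ k.K
    have hq' : (0 : ℝ) < q := by exact_mod_cast hq
    have hqp : (q : ℝ) ^ (18 * k.t + 15) ≠ 0 := by positivity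
    have : k.γ * 190000 / (q : ℝ) ^ (18 * k.t + 15) *
      ((q ^ (18 * k.t + 15) : ℕ) : ℝ) / 2 = k.γ * 190000 / 2 := by
      push_cast
      field_simp
    rw [this]
    exact k.hK
  have hCb : D.C ≤ k.K * b := hC.trans (Nat.mul_le_mul_left _ hm)
  have hZ : D.Z.card ≤ K1 * b := by
    have := h.geo.hZc
    calc D.Z.card ≤ D.m + 25 * D.C := this
      _ ≤ b + 25 * (k.K * b) := by omega
      _ = K1 * b := by rw [hK1]; ring
  have hba : b ≤ a := by
    rw [ha, hb]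
    exact Nat.pow_le_pow_right hq (by omega)
  have h1 : D.m + D.C ≤ (k.K + 1) * a := by
    calc D.m + D.C ≤ b + k.K * b := by omega
      _ = (k.K + 1) * b := by ring
      _ ≤ (k.K + 1) * a := Nat.mul_le_mul_left _ hba
  set L := Nat.log 2 n + 1 with hL
  have hL1 : 1 ≤ L := by omega
  have h2 : D.Z.card * (q ^ (9 * k.t + 6) * (4 * L + 4) + 1) ≤ K1 * 9 * L * a := by
    have e1 : q ^ (9 * k.t + 6) * (4 * L + 4) + 1 ≤ q ^ (9 * k.t + 6) * (9 * L) := by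
      have e2 : 1 ≤ q ^ (9 * k.t + 6) := Nat.one_le_pow _ _ hq
      nlinarith
    have e3 : b * q ^ (9 * k.t + 6) = a := by
      rw [ha, hb, ← pow_add]
      congr 1
      ring
    calc D.Z.card * (q ^ (9 * k.t + 6) * (4 * L + 4) + 1)
        ≤ (K1 * b) * (q ^ (9 * k.t + 6) * (9 * L)) := Nat.mul_le_mul hZ e1
      _ = K1 * 9 * L * (b * q ^ (9 * k.t + 6)) := by ring
      _ = K1 * 9 * L * a := by rw [e3]
  have h3 : (phc c n).card ≤ (k.K + 2) * b * (2 * (K1 ^ k.t * q ^ (3 * k.t))) := by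
    have e1 := phc_card hP h
    have e2 : ((phc c n).card : ℝ) * ((q ^ (9 * k.t + 6) : ℕ) : ℝ) ^ k.t ≤
      ((D.m + D.C + 1 : ℕ) : ℝ) * (2 * (D.Z.card : ℝ) ^ k.t) := e1
    have e3 : (phc c n).card * (q ^ (9 * k.t + 6)) ^ k.t ≤
      (D.m + D.C + 1) * (2 * D.Z.card ^ k.t) := by exact_mod_cast e2
    have e4 : D.m + D.C + 1 ≤ (k.K + 2) * b := by
      calc D.m + D.C + 1 ≤ b + k.K * b + b := by omega
        _ = (k.K + 2) * b := by ring
    have e5 : D.Z.card ^ k.t ≤ K1 ^ k.t * q ^ (3 * k.t) * (q ^ (9 * k.t + 6)) ^ k.t := by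
      calc D.Z.card ^ k.t ≤ (K1 * b) ^ k.t := Nat.pow_le_pow_left hZ _
        _ = K1 ^ k.t * q ^ (3 * k.t) * (q ^ (9 * k.t + 6)) ^ k.t := by
          rw [hb, mul_pow, ← pow_mul, ← pow_mul, mul_assoc, ← pow_add]
          congr 2
          ring
    have e6 : (phc c n).card * (q ^ (9 * k.t + 6)) ^ k.t ≤
        ((k.K + 2) * b * (2 * (K1 ^ k.t * q ^ (3 * k.t)))) * (q ^ (9 * k.t + 6)) ^ k.t := by
      calc (phc c n).card * (q ^ (9 * k.t + 6)) ^ k.t
          ≤ (D.m + D.C + 1) * (2 * D.Z.card ^ k.t) := e3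
        _ ≤ ((k.K + 2) * b) *
            (2 * (K1 ^ k.t * q ^ (3 * k.t) * (q ^ (9 * k.t + 6)) ^ k.t)) :=
            Nat.mul_le_mul e4 (Nat.mul_le_mul_left _ e5)
        _ = _ := by ring
    exact Nat.le_of_mul_le_mul_right e6 (pow_pos (pow_pos hq _) _)
  have h4 : (phc c n).card * (q ^ (6 * k.t + 6) + q ^ (3 * k.t + 3) * q ^ (3 * k.t + 3)) ≤
      4 * (k.K + 2) * K1 ^ k.t * a := by
    have e1 : q ^ (6 * k.t + 6) + q ^ (3 * k.t + 3) * q ^ (3 * k.t + 3) =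
        2 * q ^ (6 * k.t + 6) := by
      rw [← pow_add]
      have : 3 * k.t + 3 + (3 * k.t + 3) = 6 * k.t + 6 := by ring
      rw [this]
      ring
    have e2 : b * q ^ (3 * k.t) * q ^ (6 * k.t + 6) = a := by
      rw [ha, hb, ← pow_add, ← pow_add]
      congr 1
      ring
    rw [e1]
    calc (phc c n).card * (2 * q ^ (6 * k.t + 6))
        ≤ ((k.K + 2) * b * (2 * (K1 ^ k.t * q ^ (3 * k.t)))) * (2 * q ^ (6 * k.t + 6)) :=
          Nat.mul_le_mul_right _ h3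
      _ = 4 * (k.K + 2) * K1 ^ k.t * (b * q ^ (3 * k.t) * q ^ (6 * k.t + 6)) := by ring
      _ = _ := by rw [e2]
  have h5 : R ≤ a := by
    have e1 : q ^ (6 * k.t + 6) * q ^ (3 * k.t + 3) = b := by
      rw [hb, ← pow_add]
      congr 1
      ring
    rw [e1] at hR'
    have e2 : R * b ≤ a * b := by
      refine hR'.trans (hn.trans ?_)
      rw [hab, mul_comm]
    exact Nat.le_of_mul_le_mul_right e2 hbpos
  have hfin : 2 * a + (k.K + 1) * a + K1 * 9 * L * a + (4 * (k.K + 2) * K1 ^ k.t * a + a) ≤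
      k.B * L * a := by
    have e1 : 2 * a + (k.K + 1) * a + (4 * (k.K + 2) * K1 ^ k.t * a + a) ≤
        (2 * a + (k.K + 1) * a + (4 * (k.K + 2) * K1 ^ k.t * a + a)) * L :=
      Nat.le_mul_of_pos_right _ hL1
    have e2 : k.B * L * a = (2 * a + (k.K + 1) * a + (4 * (k.K + 2) * K1 ^ k.t * a + a)) * L +
        K1 * 9 * L * a := by
      unfold Consts.B
      rw [← hK1]
      ring
    omega
  omega

end Pool.Agent.Lib.MP_2c0425_lc
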