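import Pool.Agent.Lib.MP_2c0425_lc.Param

open Finset

namespace Pool.Agent.Lib.MP_2c0425_lc

/-- The vertices below `n` can be properly coloured with three colours. -/
def Col3 (g : SimpleGraph ℕ) (n : ℕ) : Prop := ∃ h : ℕ → Fin 3, Prp (rst g (range n)) h

lemma Col3.mono {g : SimpleGraph ℕ} {m n : ℕ} (h : Col3 g n) (hmn : m ≤ n) : Col3 g m := by
  obtain ⟨h', hh⟩ := h
  exact ⟨h', fun a b hab => hh a b (rst_mono (Finset.range_subset_range.2 hmn) hab)⟩

lemma Agr.mono {g g' : SimpleGraph ℕ} {m n : ℕ} (h : Agr g g' n) (hmn : m ≤ n) :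
    Agr g g' m := fun a ha b hb => h a (by omega) b (by omega)

lemma agr_rst (g : SimpleGraph ℕ) (t : ℕ) : Agr g (rst g (range t)) t := by
  intro a ha b hb
  rw [rst_adj, Finset.mem_range, Finset.mem_range]
  exact ⟨fun h => ⟨h, ha, hb⟩, fun h => h.1⟩

lemma Agr.symm {g g' : SimpleGraph ℕ} {n : ℕ} (h : Agr g g' n) : Agr g' g n :=
  fun a ha b hb => (h a ha b hb).symm

lemma Col3.congr {g g' : SimpleGraph ℕ} {n : ℕ} (h : Col3 g n) (hg : Agr g g' n) :
    Col3 g' n := by
  obtain ⟨h', hh⟩ := h
  rw [hg.rst] at hh
  exact ⟨h', hh⟩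

/-- An invariant that can always be continued yields an online algorithm. -/
theorem process {α : Type} [Inhabited α] (Q : SimpleGraph ℕ → ℕ → (ℕ → α) → Prop)
    (Q0 : ∀ g c, Q g 0 c) (Qc : ∀ g g' t c, Agr g g' t → Q g t c → Q g' t c)
    (Qs : ∀ g t c, Q g t c → Col3 g (t + 1) → ∃ a, Q g (t + 1) (Function.update c t a)) :
    ∃ alg : SimpleGraph ℕ → ℕ → α, (∀ g g' t, Agr g g' (t + 1) → alg g t = alg g' t) ∧
      ∀ g n, Col3 g n → ∃ c, (∀ x < n, c x = alg g x) ∧ Q g n c := by
  classical
  let pick : SimpleGraph ℕ → ℕ → (ℕ → α) → α := fun g t c =>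
    if h : ∃ a, Q g (t + 1) (Function.update c t a) then h.choose else default
  let cols : SimpleGraph ℕ → ℕ → ℕ → α := fun g n =>
    Nat.rec (motive := fun _ => ℕ → α) (fun _ => default)
      (fun t c => Function.update c t (pick (rst g (range (t + 1))) t c)) n
  have hsucc : ∀ g t, cols g (t + 1) =
      Function.update (cols g t) t (pick (rst g (range (t + 1))) t (cols g t)) :=
    fun _ _ => rfl
  have hloc : ∀ g g' t, Agr g g' t → cols g t = cols g' t := by
    intro g g' t
    induction t with
    | zero => intro _; rfl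
    | succ t ih =>
      intro h
      rw [hsucc, hsucc, ih (h.mono (Nat.le_succ t)), h.rst]
  have hval : ∀ g n, ∀ x < n, cols g n x = cols g (x + 1) x := by
    intro g n
    induction n with
    | zero => intro x hx; omega
    | succ n ih =>
      intro x hx
      rcases Nat.lt_succ_iff_lt_or_eq.1 hx with h | h
      · rw [hsucc, Function.update_of_ne h.ne]
        exact ih x h
      · rw [h]
  refine ⟨fun g t => cols g (t + 1) t, ?_, ?_⟩
  · intro g g' t h
    show cols g (t + 1) t = cols g' (t + 1) t
    rw [hloc g g' (t + 1) h]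
  · intro g n hn
    refine ⟨cols g n, hval g n, ?_⟩
    have key : ∀ t ≤ n, Q g t (cols g t) := by
      intro t
      induction t with
      | zero => intro _; exact Q0 _ _
      | succ t ih =>
        intro ht
        have h1 := ih (by omega)
        have hag : Agr g (rst g (range (t + 1))) (t + 1) := agr_rst g (t + 1)
        have h2 : Q (rst g (range (t + 1))) t (cols g t) :=
          Qc _ _ _ _ (hag.mono (Nat.le_succ t)) h1
        have h3 : Col3 (rst g (range (t + 1))) (t + 1) := (hn.mono ht).congr hag
        have h4 := Qs _ _ _ h2 h3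
        have h5 : pick (rst g (range (t + 1))) t (cols g t) = h4.choose := dif_pos h4
        rw [hsucc, h5]
        exact Qc _ _ _ _ hag.symm h4.choose_spec
    exact key n le_rfl

/-- The algorithm for a known bound on the number of vertices. -/
theorem known (k : Consts) {q : ℕ} (hq : 0 < q) :
    ∃ alg : SimpleGraph ℕ → ℕ → ℕ, (∀ g g' t, Agr g g' (t + 1) → alg g t = alg g' t) ∧
      ∀ g n, Col3 g n → (∀ a < n, ∀ b < n, g.Adj a b → alg g a ≠ alg g b) ∧
        (n ≤ q ^ (27 * k.t + 24) → ((range n).image (alg g)).card ≤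
          k.B * (Nat.log 2 n + 1) * q ^ (18 * k.t + 15)) := by
  obtain ⟨alg, h1, h2⟩ := process (α := Col) (Inv (par k q)) (fun g c => Inv.zero _ g c)
    (fun g g' t c hg h => h.congr hg) (fun g t c h hc => h.step (par_ok k hq) hc)
  refine ⟨fun g t => Encodable.encode (alg g t), ?_, ?_⟩
  · intro g g' t h
    show Encodable.encode (alg g t) = Encodable.encode (alg g' t)
    rw [h1 g g' t h]
  · intro g n hn
    obtain ⟨c, hc, hQ⟩ := h2 g n hn
    refine ⟨?_, ?_⟩
    · intro a ha b hb hab heq
      have h3 := Encodable.encode_injective heq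
      rw [← hc a ha, ← hc b hb] at h3
      exact hQ.proper a ha b hb hab h3
    · intro hnq
      have h3 := colours_le k hq hQ hnq hn
      have h4 : (range n).image (fun t => Encodable.encode (alg g t)) =
          ((range n).image c).image Encodable.encode := by
        rw [Finset.image_image]
        apply Finset.image_congr
        intro x hx
        show Encodable.encode (alg g x) = Encodable.encode (c x)
        rw [hc x (Finset.mem_range.1 hx)]
      rw [h4]
      exact Finset.card_image_le.trans h3

/-! ### Unknown number of vertices -/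

/-- Start of the epoch `i`. -/
def st (A : ℕ) (i : ℕ) : ℕ := ∑ j ∈ range i, (2 ^ j) ^ A

lemma st_succ (A i : ℕ) : st A (i + 1) = st A i + (2 ^ i) ^ A := by
  unfold st
  rw [Finset.sum_range_succ]

lemma le_st (A i : ℕ) : i ≤ st A i := by
  induction i with
  | zero => simp
  | succ i ih =>
    rw [st_succ]
    have : 1 ≤ (2 ^ i) ^ A := Nat.one_le_pow _ _ (Nat.pow_pos (by norm_num))
    omega

/-- The epoch of the vertex `t`. -/
def ep (A t : ℕ) : ℕ := Nat.findGreatest (fun i => st A i ≤ t) t

lemma st_ep (A t : ℕ) : st A (ep A t) ≤ t :=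
  Nat.findGreatest_spec (P := fun i => st A i ≤ t) (Nat.zero_le t) (by simp [st])

lemma lt_st_ep (A t : ℕ) : t < st A (ep A t + 1) := by
  by_contra h
  push Not at h
  have h1 : ep A t + 1 ≤ t := (le_st A _).trans h
  have h2 := Nat.le_findGreatest (P := fun i => st A i ≤ t) h1 h
  have : ep A t = Nat.findGreatest (fun i => st A i ≤ t) t := rfl
  omega

lemma st_mono (A : ℕ) {i j : ℕ} (h : i ≤ j) : st A i ≤ st A j := by
  unfold st
  exact Finset.sum_le_sum_of_subset (Finset.range_subset_range.2 h)

lemma ep_mono (A : ℕ) {s t : ℕ} (h : s ≤ t) : ep A s ≤ ep A t := by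
  by_contra hc
  push Not at hc
  have h1 := st_mono A (show ep A t + 1 ≤ ep A s by omega)
  have h2 := st_ep A s
  have h3 := lt_st_ep A t
  omega

/-- The graph seen from the vertex `m` on. -/
def shg (g : SimpleGraph ℕ) (m : ℕ) : SimpleGraph ℕ := g.comap (fun x => x + m)

lemma shg_adj {g : SimpleGraph ℕ} {m a b : ℕ} :
    (shg g m).Adj a b ↔ g.Adj (a + m) (b + m) := Iff.rfl

lemma Col3.shg {g : SimpleGraph ℕ} {n m n' : ℕ} (h : Col3 g n) (hn : n' + m ≤ n) :
    Col3 (shg g m) n' := by
  obtain ⟨h', hh⟩ := h
  refine ⟨fun x => h' (x + m), ?_⟩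
  rintro a b ⟨h1, h2, h3⟩
  rw [Finset.mem_range] at h2 h3
  exact hh (a + m) (b + m) ⟨h1, Finset.mem_range.2 (by omega), Finset.mem_range.2 (by omega)⟩

/-- The algorithm for an unknown number of vertices. -/
theorem unknown (k : Consts) :
    ∃ alg : SimpleGraph ℕ → ℕ → ℕ, (∀ g g' t, Agr g g' (t + 1) → alg g t = alg g' t) ∧
      ∀ g n, Col3 g n → (∀ a < n, ∀ b < n, g.Adj a b → alg g a ≠ alg g b) ∧
        ((range n).image (alg g)).card ≤
          ∑ i ∈ range (ep (27 * k.t + 24) (n - 1) + 1),
            k.B * (Nat.log 2 n + 1) * (2 ^ i) ^ (18 * k.t + 15) := by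
  classical
  have hk := fun i : ℕ => known k (q := 2 ^ i) (Nat.pow_pos (by norm_num))
  choose al h1 h2 using hk
  set A := 27 * k.t + 24 with hA
  refine ⟨fun g t => Nat.pair (ep A t) (al (ep A t) (shg g (st A (ep A t)))
    (t - st A (ep A t))), ?_, ?_⟩
  · intro g g' t h
    show Nat.pair _ _ = Nat.pair _ _
    congr 1
    apply h1
    intro a ha b hb
    have := st_ep A t
    exact h (a + st A (ep A t)) (by omega) (b + st A (ep A t)) (by omega)
  · intro g n hn
    refine ⟨?_, ?_⟩
    · intro a ha b hb hab heq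
      have heq' : Nat.pair (ep A a) (al (ep A a) (shg g (st A (ep A a))) (a - st A (ep A a))) =
        Nat.pair (ep A b) (al (ep A b) (shg g (st A (ep A b))) (b - st A (ep A b))) := heq
      rw [Nat.pair_eq_pair] at heq'
      obtain ⟨h3, h4⟩ := heq'
      have h5 := st_ep A a
      have h6 := st_ep A b
      rw [← h3] at h4 h6
      have h7 : Col3 (shg g (st A (ep A a))) (n - st A (ep A a)) := hn.shg (by omega)
      refine (h2 (ep A a) _ _ h7).1 (a - st A (ep A a)) (by omega) (b - st A (ep A a))
        (by omega) ?_ h4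
      rw [shg_adj]
      have e1 : a - st A (ep A a) + st A (ep A a) = a := by omega
      have e2 : b - st A (ep A a) + st A (ep A a) = b := by omega
      rw [e1, e2]
      exact hab
    · have hsub : (range n).image (fun t => Nat.pair (ep A t) (al (ep A t)
          (shg g (st A (ep A t))) (t - st A (ep A t)))) ⊆
          (range (ep A (n - 1) + 1)).biUnion (fun i =>
            ((range (min (n - st A i) ((2 ^ i) ^ A))).image (al i (shg g (st A i)))).image
              (Nat.pair i)) := by
        intro y hy
        obtain ⟨x, hx, rfl⟩ := Finset.mem_image.1 hy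
        rw [Finset.mem_range] at hx
        rw [Finset.mem_biUnion]
        have h5 := st_ep A x
        have h6 := lt_st_ep A x
        rw [st_succ] at h6
        have h7 := ep_mono A (show x ≤ n - 1 by omega)
        refine ⟨ep A x, Finset.mem_range.2 (by omega), ?_⟩
        rw [Finset.mem_image]
        refine ⟨_, Finset.mem_image.2 ⟨x - st A (ep A x), ?_, rfl⟩, rfl⟩
        rw [Finset.mem_range, lt_min_iff]
        omega
      refine (Finset.card_le_card hsub).trans (Finset.card_biUnion_le.trans ?_)
      apply Finset.sum_le_sum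
      intro i _
      refine Finset.card_image_le.trans ?_
      set n' := min (n - st A i) ((2 ^ i) ^ A) with hn'
      have hle : n' ≤ n - st A i := min_le_left _ _
      rcases Nat.eq_zero_or_pos n' with h0 | hpos
      · rw [h0]
        simp
      · have h7 : Col3 (shg g (st A i)) n' := hn.shg (by omega)
        refine ((h2 i _ _ h7).2 (min_le_right _ _)).trans ?_
        apply Nat.mul_le_mul_right
        apply Nat.mul_le_mul_left
        have : Nat.log 2 n' ≤ Nat.log 2 n := Nat.log_mono_right (by omega)
        omega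

end Pool.Agent.Lib.MP_2c0425_lc
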