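import Pool.Agent.Lib.MP_2c0425_lc.OddGirth
import Pool.Agent.Lib.MP_2c0425_lc.Cover
import Pool.Agent.Lib.MP_2c0425_lc.Gain
import Pool.Agent.Lib.MP_2c0425_lc.KGroup

open Finset

namespace Pool.Agent.Lib.MP_2c0425_lc

/-- Colours: a class and a colour inside the class. -/
abbrev Col := (ℕ × ℕ × ℕ) × (ℕ × ℕ × ℕ)

/-- Parameters of the algorithm. -/
structure Par where
  w : ℕ
  r0 : ℕ
  th : ℕ
  s0 : ℕ
  d : ℕ
  τ : ℕ
  θ : ℝ
  Γ : ℝ
  xi2 : ℝ

/-- Bookkeeping of the main algorithm. -/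
structure MD where
  U : Finset ℕ
  Z : Finset ℕ
  Dst : ℕ → Finset ℕ
  W : ℕ → Finset ℕ
  om : ℕ → ℕ → ℝ
  m : ℕ
  C : ℕ
  Hs : Finset (ℕ → Fin 3)
  Fd : Finset ℕ

/-- The vertices of a class. -/
def clsOf (c : ℕ → Col) (t : ℕ) (k : ℕ × ℕ × ℕ) : Finset ℕ :=
  (range t).filter (fun x => (c x).1 = k)

lemma mem_clsOf {c : ℕ → Col} {t : ℕ} {k : ℕ × ℕ × ℕ} {x : ℕ} :
    x ∈ clsOf c t k ↔ x < t ∧ (c x).1 = k := by
  simp [clsOf]

lemma clsOf_sub (c : ℕ → Col) (t : ℕ) (k : ℕ × ℕ × ℕ) : clsOf c t k ⊆ range t :=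
  Finset.filter_subset _ _

lemma clsOf_upd (c : ℕ → Col) (t : ℕ) (k : ℕ × ℕ × ℕ) (a : Col) :
    clsOf (Function.update c t a) (t + 1) k =
      if a.1 = k then insert t (clsOf c t k) else clsOf c t k := by
  ext x
  rw [mem_clsOf]
  constructor
  · rintro ⟨h1, h2⟩
    rcases Nat.lt_succ_iff_lt_or_eq.1 h1 with h3 | h3
    · rw [Function.update_of_ne h3.ne] at h2
      split_ifs
      · exact Finset.mem_insert_of_mem (mem_clsOf.2 ⟨h3, h2⟩)
      · exact mem_clsOf.2 ⟨h3, h2⟩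
    · subst h3
      rw [Function.update_self] at h2
      rw [if_pos h2]
      exact Finset.mem_insert_self _ _
  · intro h
    have key : x ∈ clsOf c t k → x < t + 1 ∧ (Function.update c t a x).1 = k := by
      intro hx
      obtain ⟨h1, h2⟩ := mem_clsOf.1 hx
      exact ⟨by omega, by rw [Function.update_of_ne h1.ne]; exact h2⟩
    split_ifs at h with hak
    · rw [Finset.mem_insert] at h
      rcases h with rfl | h
      · exact ⟨Nat.lt_succ_self _, by rw [Function.update_self]; exact hak⟩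
      · exact key h
    · exact key h

/-- A labelling restricted to a set. -/
def restr (Z : Finset ℕ) (h : ℕ → Fin 3) : ℕ → Fin 3 := fun x => if x ∈ Z then h x else 0

/-- The potential of a labelling. -/
noncomputable def Phi (D : MD) (H : ℕ → Fin 3) : ℝ := pot D.U (fun u => prof D.Z (D.om u) H)

/-- The weight of a labelling. -/
noncomputable def mu (P : Par) (D : MD) (H : ℕ → Fin 3) : ℝ := Real.exp (-P.Γ * Phi D H)

lemma mu_pos (P : Par) (D : MD) (H : ℕ → Fin 3) : 0 < mu P D H := Real.exp_pos _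

/-- The total weight. -/
noncomputable def mass (P : Par) (D : MD) : ℝ := ∑ H ∈ D.Hs, mu P D H

/-- The averaged weights over the set `W x`. -/
noncomputable def lam (P : Par) (D : MD) (x : ℕ) (y : ℕ) : ℝ := (∑ u ∈ D.W x, D.om u y) / P.w

/-- Invariant of the weights. -/
structure OmI (U Z : Finset ℕ) (Dst : ℕ → Finset ℕ) (om : ℕ → ℕ → ℝ) : Prop where
  h0 : ∀ u ∈ U, ∀ y, 0 ≤ om u y
  h1 : ∀ u ∈ U, ∑ y ∈ Z, om u y = 1
  h2 : ∀ u ∈ U, ∀ y, om u y ≠ 0 → y ∈ Z ∧ u ∈ Dst y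

/-- Invariant of the centres and weights. -/
structure Geo (P : Par) (g : SimpleGraph ℕ) (t : ℕ) (D : MD) : Prop where
  hU : D.U ⊆ range t
  hUc : D.U.card = D.m * P.w
  hZ : D.Z ⊆ range t
  hZc : D.Z.card ≤ D.m + 25 * D.C
  hD : ∀ y ∈ D.Z, D.Dst y ⊆ D.U ∧ (D.Dst y).card = P.w ∧ ∀ u ∈ D.Dst y, g.Adj y u
  hom : OmI D.U D.Z D.Dst D.om
  hHs : ∀ h : ℕ → Fin 3, Prp (rst g (range t)) h → restr D.Z h ∈ D.Hs
  hM : mass P D ≤ 3 ^ D.m / 2 ^ D.C

/-- Invariant of the colours. -/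
structure ColI (P : Par) (g : SimpleGraph ℕ) (t : ℕ) (c : ℕ → Col) (Z : Finset ℕ)
    (Dst : ℕ → Finset ℕ) (n1 : ℕ) : Prop where
  hcls : ∀ x < t, (∃ i < 2 * P.w, c x = ((0, i, 0), (0, 0, 0))) ∨
    c x = ((1, x, 0), (0, 0, 0)) ∨ (∃ y ∈ Z, (c x).1 = (2, y, 0)) ∨
    ∃ p ≤ n1, ∃ f, (c x).1 = (3, p, f)
  hff : ∀ x < t, ∀ y < t, g.Adj x y → (c x).1.1 = 0 → c x ≠ c y
  hone : ((range t).filter (fun x => (c x).1.1 = 1)).card = n1
  hK : ∀ y ∈ Z, InvK P.th g (Dst y) (clsOf c t (2, y, 0)) (fun x => (c x).2)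
  hOG : ∀ p f, InvOG P.s0 P.d g (clsOf c t (3, p, f)) (fun x => (c x).2)

/-- The vertex `x` is spread. -/
structure Spr (P : Par) (g : SimpleGraph ℕ) (D : MD) (x : ℕ) : Prop where
  hWU : D.W x ⊆ D.U
  hWc : (D.W x).card = P.w
  hWa : ∀ u ∈ D.W x, g.Adj x u
  hWs : ∀ y ∈ D.Z, (D.W x ∩ D.Dst y).card * P.r0 ≤ P.w

/-- The founders of phase `p`. -/
def fnd (c : ℕ → Col) (t p : ℕ) : Finset ℕ :=
  ((range t).filter (fun x => (c x).1.1 = 3 ∧ (c x).1.2.1 = p)).image (fun x => (c x).1.2.2)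

lemma mem_fnd {c : ℕ → Col} {t p f : ℕ} :
    f ∈ fnd c t p ↔ ∃ x < t, (c x).1 = (3, p, f) := by
  unfold fnd
  rw [Finset.mem_image]
  constructor
  · rintro ⟨x, hx, rfl⟩
    rw [Finset.mem_filter, Finset.mem_range] at hx
    obtain ⟨h1, h2, h3⟩ := hx
    refine ⟨x, h1, ?_⟩
    rw [← h2, ← h3]
  · rintro ⟨x, hx, h1⟩
    refine ⟨x, ?_, by rw [h1]⟩
    rw [Finset.mem_filter, Finset.mem_range, h1]
    exact ⟨hx, rfl, rfl⟩

/-- Invariant of the phases. -/
structure PhI (P : Par) (g : SimpleGraph ℕ) (t : ℕ) (c : ℕ → Col) (D : MD) : Prop where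
  hZcls : ∀ y ∈ D.Z, ∀ f, (c y).1 ≠ (3, D.m + D.C, f)
  hFd : ∀ f ∈ D.Fd, f < t ∧ (c f).1 = (3, D.m + D.C, f)
  hcur : ∀ x < t, ∀ f, (c x).1 = (3, D.m + D.C, f) → f ∈ D.Fd ∧ Spr P g D x ∧
    pdist D.Hs (mu P D) D.Z (lam P D x) (lam P D f) ≤ P.xi2 * mass P D
  hfar : ∀ f ∈ D.Fd, ∀ f' ∈ D.Fd, f ≠ f' →
    P.xi2 * mass P D < pdist D.Hs (mu P D) D.Z (lam P D f) (lam P D f')
  hph : ∀ p < D.m + D.C, ((fnd c t p).card : ℝ) * (P.r0 : ℝ) ^ P.τ ≤
    2 * (D.Z.card : ℝ) ^ P.τ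

/-- The main invariant, with its bookkeeping. -/
structure MI (P : Par) (g : SimpleGraph ℕ) (t : ℕ) (c : ℕ → Col) (D : MD) : Prop where
  geo : Geo P g t D
  col : ColI P g t c D.Z D.Dst (D.m + D.C)
  phi : PhI P g t c D

/-- The main invariant. -/
def Inv (P : Par) (g : SimpleGraph ℕ) (t : ℕ) (c : ℕ → Col) : Prop := ∃ D, MI P g t c D

/-- two graphs agree below `t`. -/
def Agr (g g' : SimpleGraph ℕ) (t : ℕ) : Prop := ∀ a < t, ∀ b < t, (g.Adj a b ↔ g'.Adj a b)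

lemma Agr.rst {g g' : SimpleGraph ℕ} {t : ℕ} (h : Agr g g' t) :
    rst g (range t) = rst g' (range t) :=
  rst_congr fun a ha b hb => h a (Finset.mem_range.1 ha) b (Finset.mem_range.1 hb)

lemma Inv.congr {P : Par} {g g' : SimpleGraph ℕ} {t : ℕ} {c : ℕ → Col} (hg : Agr g g' t)
    (h : Inv P g t c) : Inv P g' t c := by
  obtain ⟨D, h⟩ := h
  have hDt : ∀ y ∈ D.Z, ∀ u ∈ D.Dst y, u < t := fun y hy u hu =>
    Finset.mem_range.1 (h.geo.hU ((h.geo.hD y hy).1 hu))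
  have hcl : ∀ k, ∀ x ∈ clsOf c t k, x < t := fun k x hx => (mem_clsOf.1 hx).1
  refine ⟨D, ⟨h.geo.hU, h.geo.hUc, h.geo.hZ, h.geo.hZc, ?_, h.geo.hom, ?_, h.geo.hM⟩,
    ⟨h.col.hcls, ?_, h.col.hone, ?_, ?_⟩, ⟨h.phi.hZcls, h.phi.hFd, ?_, h.phi.hfar, h.phi.hph⟩⟩
  · intro y hy
    obtain ⟨h1, h2, h3⟩ := h.geo.hD y hy
    exact ⟨h1, h2, fun u hu =>
      (hg y (Finset.mem_range.1 (h.geo.hZ hy)) u (hDt y hy u hu)).1 (h3 u hu)⟩
  · intro h' hh'
    rw [← hg.rst] at hh'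
    exact h.geo.hHs h' hh'
  · intro x hx y hy hxy
    exact h.col.hff x hx y hy ((hg x hx y hy).2 hxy)
  · intro y hy
    refine (h.col.hK y hy).congr ?_ (fun _ _ => rfl)
    have : ∀ a ∈ clsOf c t (2, y, 0) ∪ D.Dst y, a < t := by
      intro a ha
      rw [Finset.mem_union] at ha
      rcases ha with ha | ha
      · exact hcl _ a ha
      · exact hDt y hy a ha
    exact fun a ha b hb => hg a (this a ha) b (this b hb)
  · intro p f
    exact (h.col.hOG p f).congr (fun a ha b hb => hg a (hcl _ a ha) b (hcl _ b hb))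
      (fun _ _ => rfl)
  · intro x hx f hxf
    obtain ⟨h1, h2, h3⟩ := h.phi.hcur x hx f hxf
    exact ⟨h1, ⟨h2.hWU, h2.hWc, fun u hu =>
      (hg x hx u (Finset.mem_range.1 (h.geo.hU (h2.hWU hu)))).1 (h2.hWa u hu), h2.hWs⟩, h3⟩

lemma Inv.zero (P : Par) (g : SimpleGraph ℕ) (c : ℕ → Col) : Inv P g 0 c := by
  refine ⟨⟨∅, ∅, fun _ => ∅, fun _ => ∅, fun _ _ => 0, 0, 0, {fun _ => 0}, ∅⟩, ?_, ?_, ?_⟩
  · refine ⟨by simp, by simp, by simp, by simp, by simp, ⟨by simp, by simp, by simp⟩, ?_, ?_⟩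
    · intro h _
      rw [Finset.mem_singleton]
      funext x
      simp [restr]
    · simp [mass, mu, Phi, pot]
  · refine ⟨by simp, by simp, by simp, by simp, ?_⟩
    intro p f
    have : clsOf c 0 (3, p, f) = ∅ := by simp [clsOf]
    rw [this]
    exact InvOG.empty _ _ _ _
  · refine ⟨by simp, by simp, by simp, by simp, by simp⟩

lemma Inv.proper {P : Par} {g : SimpleGraph ℕ} {t : ℕ} {c : ℕ → Col} (h : Inv P g t c) :
    ∀ a < t, ∀ b < t, g.Adj a b → c a ≠ c b := by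
  obtain ⟨D, h⟩ := h
  intro a ha b hb hab hcab
  rcases h.col.hcls a ha with ⟨i, _, h1⟩ | h1 | ⟨y, hy, h1⟩ | ⟨p, _, f, h1⟩
  · exact h.col.hff a ha b hb hab (by rw [h1]) hcab
  · rcases h.col.hcls b hb with ⟨i, _, h2⟩ | h2 | ⟨y, hy, h2⟩ | ⟨p, _, f, h2⟩
    · rw [h1, h2] at hcab
      simp at hcab
    · rw [h1, h2] at hcab
      simp only [Prod.mk.injEq, and_true, true_and] at hcab
      rw [hcab] at hab
      exact G_irrefl hab
    · rw [← hcab, h1] at h2
      simp at h2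
    · rw [← hcab, h1] at h2
      simp at h2
  · refine (h.col.hK y hy).proper a (mem_clsOf.2 ⟨ha, h1⟩) b
      (mem_clsOf.2 ⟨hb, by rw [← hcab]; exact h1⟩) hab ?_
    show (c a).2 = (c b).2
    rw [hcab]
  · refine (h.col.hOG p f).proper a (mem_clsOf.2 ⟨ha, h1⟩) b
      (mem_clsOf.2 ⟨hb, by rw [← hcab]; exact h1⟩) hab ?_
    show (c a).2 = (c b).2
    rw [hcab]
where
  G_irrefl {g : SimpleGraph ℕ} {x : ℕ} (h : g.Adj x x) : False := g.loopless.irrefl x h

lemma ColI.upd {P : Par} {g : SimpleGraph ℕ} {t : ℕ} {c : ℕ → Col} {Z Z' : Finset ℕ}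
    {Dst Dst' : ℕ → Finset ℕ} {n1 n1' : ℕ} (h : ColI P g t c Z Dst n1) {a : Col}
    (hZ : Z ⊆ Z') (hDst : ∀ y ∈ Z, Dst' y = Dst y)
    (hcls : (∃ i < 2 * P.w, a = ((0, i, 0), (0, 0, 0))) ∨ a = ((1, t, 0), (0, 0, 0)) ∨
      (∃ y ∈ Z, a.1 = (2, y, 0)) ∨ ∃ p ≤ n1', ∃ f, a.1 = (3, p, f))
    (hff : a.1.1 = 0 → ∀ x < t, g.Adj t x → c x ≠ a)
    (hone : n1' = if a.1.1 = 1 then n1 + 1 else n1)
    (hK : ∀ y ∈ Z, a.1 = (2, y, 0) → InvK P.th g (Dst y) (insert t (clsOf c t (2, y, 0)))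
      (fun x => (Function.update c t a x).2))
    (hOG : ∀ p f, a.1 = (3, p, f) → InvOG P.s0 P.d g (insert t (clsOf c t (3, p, f)))
      (fun x => (Function.update c t a x).2)) :
    ColI P g (t + 1) (Function.update c t a) Z' Dst' n1' := by
  have hn : n1 ≤ n1' := by rw [hone]; split_ifs <;> omega
  have hup : ∀ x < t, Function.update c t a x = c x := fun x hx =>
    Function.update_of_ne hx.ne _ _
  have hcong : ∀ k, ∀ x ∈ clsOf c t k, (c x).2 = (Function.update c t a x).2 := by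
    intro k x hx
    rw [hup x (mem_clsOf.1 hx).1]
  constructor
  · intro x hx
    rcases Nat.lt_succ_iff_lt_or_eq.1 hx with h3 | h3
    · rw [hup x h3]
      rcases h.hcls x h3 with h4 | h4 | ⟨y, hy, h4⟩ | ⟨p, hp, f, h4⟩
      · exact Or.inl h4
      · exact Or.inr (Or.inl h4)
      · exact Or.inr (Or.inr (Or.inl ⟨y, hZ hy, h4⟩))
      · exact Or.inr (Or.inr (Or.inr ⟨p, hp.trans hn, f, h4⟩))
    · subst h3
      rw [Function.update_self]
      rcases hcls with h4 | h4 | ⟨y, hy, h4⟩ | h4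
      · exact Or.inl h4
      · exact Or.inr (Or.inl h4)
      · exact Or.inr (Or.inr (Or.inl ⟨y, hZ hy, h4⟩))
      · exact Or.inr (Or.inr (Or.inr h4))
  · intro x hx y hy hxy
    rcases Nat.lt_succ_iff_lt_or_eq.1 hx with h3 | h3
    · rw [hup x h3]
      rcases Nat.lt_succ_iff_lt_or_eq.1 hy with h4 | h4
      · rw [hup y h4]
        exact h.hff x h3 y h4 hxy
      · subst h4
        rw [Function.update_self]
        intro h5 h6
        rw [h6] at h5
        exact hff h5 x h3 hxy.symm h6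
    · subst h3
      rw [Function.update_self]
      rcases Nat.lt_succ_iff_lt_or_eq.1 hy with h4 | h4
      · rw [hup y h4]
        intro h5
        exact (hff h5 y h4 hxy).symm
      · subst h4
        exact absurd hxy (g.loopless.irrefl _)
  · have : (range (t + 1)).filter (fun x => (Function.update c t a x).1.1 = 1) =
        if a.1.1 = 1 then insert t ((range t).filter (fun x => (c x).1.1 = 1)) else
          (range t).filter (fun x => (c x).1.1 = 1) := by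
      rw [Finset.range_add_one, Finset.filter_insert, Function.update_self]
      have : (range t).filter (fun x => (Function.update c t a x).1.1 = 1) =
          (range t).filter (fun x => (c x).1.1 = 1) := by
        apply Finset.filter_congr
        intro x hx
        rw [hup x (Finset.mem_range.1 hx)]
      rw [this]
    rw [this, hone, ← h.hone]
    split_ifs
    · rw [Finset.card_insert_of_notMem]
      simp
    · rfl
  · intro y hy
    by_cases hyZ : y ∈ Z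
    · rw [clsOf_upd, hDst y hyZ]
      split_ifs with hak
      · exact hK y hyZ hak
      · exact (h.hK y hyZ).congr (fun _ _ _ _ => Iff.rfl) (hcong _)
    · have h0 : clsOf c t (2, y, 0) = ∅ := by
        rw [Finset.eq_empty_iff_forall_notMem]
        intro x hx
        obtain ⟨h1, h2⟩ := mem_clsOf.1 hx
        rcases h.hcls x h1 with ⟨i, _, h4⟩ | h4 | ⟨y', hy', h4⟩ | ⟨p, hp, f, h4⟩
        · rw [h4] at h2; simp at h2
        · rw [h4] at h2; simp at h2
        · rw [h4] at h2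
          simp only [Prod.mk.injEq, and_true, true_and] at h2
          exact hyZ (h2 ▸ hy')
        · rw [h4] at h2; simp at h2
      have h1 : a.1 ≠ (2, y, 0) := by
        intro h2
        rcases hcls with ⟨i, _, h4⟩ | h4 | ⟨y', hy', h4⟩ | ⟨p, hp, f, h4⟩
        · rw [h4] at h2; simp at h2
        · rw [h4] at h2; simp at h2
        · rw [h4] at h2
          simp only [Prod.mk.injEq, and_true, true_and] at h2
          exact hyZ (h2 ▸ hy')
        · rw [h4] at h2; simp at h2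
      rw [clsOf_upd, if_neg h1, h0]
      exact InvK.empty _ _ _ _
  · intro p f
    rw [clsOf_upd]
    split_ifs with hak
    · exact hOG p f hak
    · exact (h.hOG p f).congr (fun _ _ _ _ => Iff.rfl) (hcong _)

/-- The geometric part of the invariant is kept when nothing changes. -/
lemma Geo.succ {P : Par} {g : SimpleGraph ℕ} {t : ℕ} {D : MD} (h : Geo P g t D) :
    Geo P g (t + 1) D := by
  have hr : range t ⊆ range (t + 1) := Finset.range_subset_range.2 (Nat.le_succ t)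
  refine ⟨h.hU.trans hr, h.hUc, h.hZ.trans hr, h.hZc, h.hD, h.hom, ?_, h.hM⟩
  intro h' hh'
  exact h.hHs h' (fun a b hab => hh' a b (rst_mono hr hab))

/-- The labellings supported on `Z`. -/
noncomputable def allF (Z : Finset ℕ) : Finset (ℕ → Fin 3) := by
  classical
  exact (univ : Finset (Z → Fin 3)).image (fun f x => if hx : x ∈ Z then f ⟨x, hx⟩ else 0)

lemma mem_allF {Z : Finset ℕ} (h : ℕ → Fin 3) : restr Z h ∈ allF Z := by
  classical
  unfold allF
  rw [Finset.mem_image]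
  refine ⟨fun z => h z, Finset.mem_univ _, ?_⟩
  funext x
  by_cases hx : x ∈ Z
  · simp [restr, hx]
  · simp [restr, hx]

open Classical in
/-- The restrictions to `Z` of the proper colourings of `g` below `t`. -/
noncomputable def hset (g : SimpleGraph ℕ) (t : ℕ) (Z : Finset ℕ) : Finset (ℕ → Fin 3) :=
  (allF Z).filter (fun H => ∃ h, Prp (rst g (range t)) h ∧ restr Z h = H)

lemma mem_hset {g : SimpleGraph ℕ} {t : ℕ} {Z : Finset ℕ} {H : ℕ → Fin 3} :
    H ∈ hset g t Z ↔ ∃ h, Prp (rst g (range t)) h ∧ restr Z h = H := by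
  classical
  unfold hset
  rw [Finset.mem_filter]
  constructor
  · exact fun h => h.2
  · rintro ⟨h, h1, h2⟩
    exact ⟨h2 ▸ mem_allF h, h, h1, h2⟩

lemma restr_restr {Z Z' : Finset ℕ} (h : Z ⊆ Z') (f : ℕ → Fin 3) :
    restr Z (restr Z' f) = restr Z f := by
  funext x
  by_cases hx : x ∈ Z
  · simp [restr, hx, h hx]
  · simp [restr, hx]

/-- Summing over extensions of labellings. -/
lemma sum_ext {g : SimpleGraph ℕ} {t : ℕ} {Z Z' : Finset ℕ} (hZ : Z ⊆ Z')
    {Hs : Finset (ℕ → Fin 3)} (hHs : ∀ h, Prp (rst g (range t)) h → restr Z h ∈ Hs)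
    {f f' : (ℕ → Fin 3) → ℝ} (hf : ∀ H ∈ Hs, 0 ≤ f H)
    (hff : ∀ h, Prp (rst g (range t)) h → f' (restr Z' h) ≤ f (restr Z h)) {k : ℕ}
    (hk : (Z' \ Z).card ≤ k) :
    ∑ H ∈ hset g t Z', f' H ≤ 3 ^ k * ∑ H ∈ Hs, f H := by
  classical
  have hmap : ∀ H ∈ hset g t Z', restr Z H ∈ Hs := by
    intro H hH
    obtain ⟨h, h1, h2⟩ := mem_hset.1 hH
    rw [← h2, restr_restr hZ]
    exact hHs h h1
  rw [← Finset.sum_fiberwise_of_maps_to hmap, Finset.mul_sum]
  apply Finset.sum_le_sum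
  intro H hH
  have hcard : ((hset g t Z').filter (fun H' => restr Z H' = H)).card ≤ 3 ^ k := by
    have h1 : ((hset g t Z').filter (fun H' => restr Z H' = H)).card ≤
        (univ : Finset ((Z' \ Z : Finset ℕ) → Fin 3)).card := by
      apply Finset.card_le_card_of_injOn (fun H' x => H' x.1) (fun _ _ => Finset.mem_univ _)
      intro H1 hH1 H2 hH2 heq
      rw [Finset.mem_coe, Finset.mem_filter] at hH1 hH2
      obtain ⟨h1, h1p, h1e⟩ := mem_hset.1 hH1.1
      obtain ⟨h2, h2p, h2e⟩ := mem_hset.1 hH2.1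
      funext x
      by_cases hx : x ∈ Z'
      · by_cases hxZ : x ∈ Z
        · have h3 : restr Z H1 x = restr Z H2 x := by rw [hH1.2, hH2.2]
          simpa [restr, hxZ] using h3
        · exact congrFun heq ⟨x, Finset.mem_sdiff.2 ⟨hx, hxZ⟩⟩
      · rw [← h1e, ← h2e]
        simp [restr, hx]
    rw [Finset.card_univ, Fintype.card_fun, Fintype.card_fin, Fintype.card_coe] at h1
    exact h1.trans (Nat.pow_le_pow_right (by norm_num) hk)
  have hle : ∀ H' ∈ (hset g t Z').filter (fun H' => restr Z H' = H), f' H' ≤ f H := by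
    intro H' hH'
    rw [Finset.mem_filter] at hH'
    obtain ⟨h, h1, h2⟩ := mem_hset.1 hH'.1
    have h3 := hff h h1
    rw [h2] at h3
    rw [← hH'.2, ← h2, restr_restr hZ]
    exact h2 ▸ h3
  calc ∑ H' ∈ (hset g t Z').filter (fun H' => restr Z H' = H), f' H'
      ≤ ((hset g t Z').filter (fun H' => restr Z H' = H)).card • f H :=
        Finset.sum_le_card_nsmul _ _ _ hle
    _ = ((hset g t Z').filter (fun H' => restr Z H' = H)).card * f H := by
        rw [nsmul_eq_mul]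
    _ ≤ 3 ^ k * f H := by
        apply mul_le_mul_of_nonneg_right _ (hf H hH)
        exact_mod_cast hcard

end Pool.Agent.Lib.MP_2c0425_lc
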