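import Pool.Agent.Lib.MP_2c0425_lc.Conflict

open Finset

namespace Pool.Agent.Lib.MP_2c0425_lc

section step

variable {P : Par} {ξ : ℝ} {g : SimpleGraph ℕ} {t : ℕ} {c : ℕ → Col} {D : MD}

lemma fnd_sub (h : PhI P g t c D) : fnd c t (D.m + D.C) ⊆ D.Fd := by
  intro f hf
  obtain ⟨x, hx, hxf⟩ := mem_fnd.1 hf
  exact (h.hcur x hx f hxf).1

/-- Number of founders of the current phase. -/
lemma fd_bound (hP : ParOK P ξ) (h : MI P g t c D) :
    (D.Fd.card : ℝ) * (P.r0 : ℝ) ^ P.τ ≤ 2 * (D.Z.card : ℝ) ^ P.τ := by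
  have hspr : ∀ f ∈ D.Fd, Spr P g D f := fun f hf =>
    (h.phi.hcur f (h.phi.hFd f hf).1 f (h.phi.hFd f hf).2).2.1
  refine cover (Hs := D.Hs) (mu := mu P D) (lam := lam P D) (xi2 := P.xi2)
    (fun H _ => (mu_pos P D H).le) ?_ ?_ (by exact_mod_cast hP.hr) ?_ hP.hτ h.phi.hfar
  · intro f hf y _
    exact lam_nonneg h.geo (hspr f hf).hWU y
  · intro f hf
    exact lam_sum hP.hw h.geo (hspr f hf).hWU (hspr f hf).hWc
  · intro f hf y hy
    exact lam_r0 hP.hw h.geo (hspr f hf) hy

lemma fnd_upd (a : Col) (p : ℕ) (ha : a.1.1 = 3 → a.1.2.1 ≠ p) :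
    fnd (Function.update c t a) (t + 1) p = fnd c t p := by
  ext f
  rw [mem_fnd, mem_fnd]
  constructor
  · rintro ⟨x, hx, hxf⟩
    rcases Nat.lt_succ_iff_lt_or_eq.1 hx with h3 | h3
    · rw [Function.update_of_ne h3.ne] at hxf
      exact ⟨x, h3, hxf⟩
    · subst h3
      rw [Function.update_self] at hxf
      rw [hxf] at ha
      exact absurd rfl (ha rfl)
  · rintro ⟨x, hx, hxf⟩
    exact ⟨x, by omega, by rw [Function.update_of_ne hx.ne]; exact hxf⟩

/-- Nothing changes for the phases when the new vertex is not in a phase class. -/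
lemma PhI.upd (h : PhI P g t c D) (hZ : D.Z ⊆ range t) {a : Col} (ha : a.1.1 ≠ 3) :
    PhI P g (t + 1) (Function.update c t a) D := by
  constructor
  · intro y hy f
    rw [Function.update_of_ne (Finset.mem_range.1 (hZ hy)).ne]
    exact h.hZcls y hy f
  · intro f hf
    obtain ⟨h1, h2⟩ := h.hFd f hf
    exact ⟨by omega, by rw [Function.update_of_ne h1.ne]; exact h2⟩
  · intro x hx f hxf
    rcases Nat.lt_succ_iff_lt_or_eq.1 hx with h3 | h3
    · rw [Function.update_of_ne h3.ne] at hxf
      exact h.hcur x h3 f hxf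
    · subst h3
      rw [Function.update_self] at hxf
      rw [hxf] at ha
      exact absurd rfl ha
  · exact h.hfar
  · intro p hp
    rw [fnd_upd a p (fun h3 => absurd h3 ha)]
    exact h.hph p hp

/-- A new phase starts. -/
lemma PhI.newphase (hP : ParOK P ξ) (h : MI P g t c D) {D' : MD}
    (hn : D'.m + D'.C = D.m + D.C + 1) (hFd : D'.Fd = ∅) (hZ : D.Z ⊆ D'.Z)
    (hZr : D'.Z ⊆ range (t + 1)) :
    PhI P g (t + 1) (Function.update c t ((1, t, 0), (0, 0, 0))) D' := by
  have hno : ∀ x < t + 1, ∀ f, (Function.update c t ((1, t, 0), (0, 0, 0)) x).1 ≠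
      (3, D'.m + D'.C, f) := by
    intro x hx f
    rcases Nat.lt_succ_iff_lt_or_eq.1 hx with h3 | h3
    · rw [Function.update_of_ne h3.ne]
      intro h4
      rcases h.col.hcls x h3 with ⟨i, _, h5⟩ | h5 | ⟨y, _, h5⟩ | ⟨p, hp, f', h5⟩
      · rw [h5] at h4; simp at h4
      · rw [h5] at h4; simp at h4
      · rw [h5] at h4; simp at h4
      · rw [h5] at h4
        simp only [Prod.mk.injEq, true_and] at h4
        omega
    · subst h3
      rw [Function.update_self]
      simp
  constructor
  · intro y hy f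
    exact hno y (Finset.mem_range.1 (hZr hy)) f
  · rw [hFd]; simp
  · intro x hx f hxf
    exact absurd hxf (hno x hx f)
  · rw [hFd]; simp
  · intro p hp
    rw [fnd_upd _ p (by simp)]
    have hmono : (2 : ℝ) * (D.Z.card : ℝ) ^ P.τ ≤ 2 * (D'.Z.card : ℝ) ^ P.τ := by
      have : (D.Z.card : ℝ) ≤ D'.Z.card := by exact_mod_cast Finset.card_le_card hZ
      have := pow_le_pow_left₀ (Nat.cast_nonneg _) this P.τ
      linarith
    rcases (show p < D.m + D.C ∨ p = D.m + D.C by omega) with h1 | h1
    · exact (h.phi.hph p h1).trans hmono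
    · rw [h1]
      have h2 : ((fnd c t (D.m + D.C)).card : ℝ) ≤ D.Fd.card := by
        exact_mod_cast Finset.card_le_card (fnd_sub h.phi)
      have h3 := mul_le_mul_of_nonneg_right h2
        (pow_nonneg (Nat.cast_nonneg P.r0) P.τ : (0 : ℝ) ≤ (P.r0 : ℝ) ^ P.τ)
      exact h3.trans ((fd_bound hP h).trans hmono)

/-- First fit. -/
lemma MI.stepA (h : MI P g t c D) {i : ℕ} (hi : i < 2 * P.w)
    (hfree : ∀ x < t, g.Adj t x → c x ≠ ((0, i, 0), (0, 0, 0))) :
    MI P g (t + 1) (Function.update c t ((0, i, 0), (0, 0, 0))) D := by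
  refine ⟨h.geo.succ, ?_, h.phi.upd h.geo.hZ (by simp)⟩
  refine h.col.upd (Finset.Subset.refl _) (fun _ _ => rfl) (Or.inl ⟨i, hi, rfl⟩)
    (fun _ => hfree) (by simp) ?_ ?_
  · intro y _ h1
    simp at h1
  · intro p f h1
    simp at h1

/-- A new first centre. -/
lemma MI.stepB (hP : ParOK P ξ) (h : MI P g t c D) {S : Finset ℕ} (hSt : S ⊆ range t)
    (hSU : Disjoint D.U S) (hSc : S.card = P.w) (hSa : ∀ u ∈ S, g.Adj t u) :
    Inv P g (t + 1) (Function.update c t ((1, t, 0), (0, 0, 0))) := by
  have htZ : t ∉ D.Z := fun hh => by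
    have := Finset.mem_range.1 (h.geo.hZ hh)
    omega
  have hr : range t ⊆ range (t + 1) := Finset.range_subset_range.2 (Nat.le_succ t)
  have hDst : ∀ y ∈ D.Z, Function.update D.Dst t S y = D.Dst y := fun y hy =>
    Function.update_of_ne (fun hh : y = t => htZ (hh ▸ hy)) _ _
  have hg := h.geo.succ
  refine ⟨{ D with
    U := D.U ∪ S
    Z := insert t D.Z
    Dst := Function.update D.Dst t S
    om := omC t S D.om
    m := D.m + 1
    Hs := hset g (t + 1) (insert t D.Z)
    Fd := ∅ }, ?_, ?_, ?_⟩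
  · refine ⟨?_, ?_, ?_, ?_, ?_, h.geo.hom.centre htZ, ?_, ?_⟩
    · exact Finset.union_subset hg.hU (hSt.trans hr)
    · show (D.U ∪ S).card = (D.m + 1) * P.w
      rw [Finset.card_union_of_disjoint hSU, h.geo.hUc, hSc]
      ring
    · exact Finset.insert_subset (Finset.self_mem_range_succ t) hg.hZ
    · show (insert t D.Z).card ≤ D.m + 1 + 25 * D.C
      have := Finset.card_insert_le t D.Z
      have := h.geo.hZc
      omega
    · show ∀ y ∈ insert t D.Z, Function.update D.Dst t S y ⊆ D.U ∪ S ∧
        (Function.update D.Dst t S y).card = P.w ∧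
        ∀ u ∈ Function.update D.Dst t S y, g.Adj y u
      intro y hy
      rw [Finset.mem_insert] at hy
      rcases hy with rfl | hy
      · rw [Function.update_self]
        exact ⟨Finset.subset_union_right, hSc, hSa⟩
      · rw [hDst y hy]
        obtain ⟨h1, h2, h3⟩ := h.geo.hD y hy
        exact ⟨h1.trans Finset.subset_union_left, h2, h3⟩
    · intro h' hh
      exact mem_hset.2 ⟨h', hh, rfl⟩
    · show ∑ H ∈ hset g (t + 1) (insert t D.Z), mu P _ H ≤ 3 ^ (D.m + 1) / 2 ^ D.C
      have h1 := sum_ext (g := g) (t := t + 1) (Z := D.Z) (Z' := insert t D.Z)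
        (Finset.subset_insert _ _) (Hs := D.Hs) hg.hHs (f := mu P D)
        (f' := mu P { D with
          U := D.U ∪ S
          Z := insert t D.Z
          Dst := Function.update D.Dst t S
          om := omC t S D.om
          m := D.m + 1
          Hs := hset g (t + 1) (insert t D.Z)
          Fd := ∅ }) (fun H _ => (mu_pos P D H).le) (k := 1) ?_ ?_
      · refine h1.trans ?_
        have h2 := h.geo.hM
        have h3 : (3 : ℝ) ^ (D.m + 1) / 2 ^ D.C = 3 ^ 1 * (3 ^ D.m / 2 ^ D.C) := by
          rw [pow_succ]; ring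
        rw [h3]
        exact mul_le_mul_of_nonneg_left h2 (by norm_num)
      · intro h' hh
        apply le_of_eq
        unfold mu Phi
        congr 2
        exact pot_centre h.geo.hom htZ hSU h'
      · rw [Finset.insert_sdiff_of_notMem _ htZ, Finset.sdiff_self]
        simp
  · exact h.col.upd (Finset.subset_insert _ _) hDst (Or.inr (Or.inl rfl)) (by simp)
      (by show D.m + 1 + D.C = _; simp; omega) (by intro y _ h1; simp at h1)
      (by intro p f h1; simp at h1)
  · refine PhI.newphase hP h ?_ rfl (Finset.subset_insert _ _) ?_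
    · show D.m + 1 + D.C = _
      omega
    · exact Finset.insert_subset (Finset.self_mem_range_succ t) hg.hZ

lemma snd_upd (k : ℕ × ℕ × ℕ) (b : ℕ × ℕ × ℕ) :
    (fun x => (Function.update c t (k, b) x).2) = Function.update (fun x => (c x).2) t b := by
  funext x
  by_cases hx : x = t
  · subst hx; simp
  · rw [Function.update_of_ne hx, Function.update_of_ne hx]

/-- A heavy group. -/
lemma MI.stepC (hP : ParOK P ξ) (h : MI P g t c D) {h' : ℕ → Fin 3}
    (hh : Prp (rst g (range (t + 1))) h') {y : ℕ} (hy : y ∈ D.Z)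
    (hdeg : P.th ≤ (nbD g (D.Dst y) t).card) :
    ∃ a, Inv P g (t + 1) (Function.update c t a) := by
  have hr : range t ⊆ range (t + 1) := Finset.range_subset_range.2 (Nat.le_succ t)
  have hDr : D.Dst y ⊆ range (t + 1) := ((h.geo.hD y hy).1.trans h.geo.hU).trans hr
  have hCr : clsOf c t (2, y, 0) ⊆ range (t + 1) := (clsOf_sub _ _ _).trans hr
  obtain ⟨b, hb⟩ := (h.col.hK y hy).step hP.hth (v := t)
    (fun u hu => (mem_clsOf.1 hu).1) hdeg (by
      refine ⟨h', ?_, h' y, ?_⟩
      · intro a b hab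
        refine hh a b (rst_mono ?_ hab)
        exact Finset.union_subset
          (Finset.insert_subset (Finset.self_mem_range_succ t) hCr) hDr
      · intro u hu
        refine (hh y u ⟨(h.geo.hD y hy).2.2 u hu, hr (h.geo.hZ hy), hDr hu⟩).symm)
  refine ⟨((2, y, 0), b), D, h.geo.succ, ?_, h.phi.upd h.geo.hZ (by simp)⟩
  refine h.col.upd (Finset.Subset.refl _) (fun _ _ => rfl) (Or.inr (Or.inr (Or.inl ⟨y, hy, rfl⟩)))
    (by simp) (by simp) ?_ ?_
  · intro y' _ h1
    simp only [Prod.mk.injEq, and_true, true_and] at h1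
    subst h1
    rw [snd_upd]
    exact hb
  · intro p f h1
    simp at h1

/-- The set of the new vertex is stored. -/
lemma MI.setW (h : MI P g t c D) (S : Finset ℕ) :
    MI P g t c { D with W := Function.update D.W t S } := by
  refine ⟨⟨h.geo.hU, h.geo.hUc, h.geo.hZ, h.geo.hZc, h.geo.hD, h.geo.hom, h.geo.hHs,
    h.geo.hM⟩, h.col, ⟨h.phi.hZcls, h.phi.hFd, ?_, ?_, h.phi.hph⟩⟩
  · intro x hx f hxf
    obtain ⟨h1, h2, h3⟩ := h.phi.hcur x hx f hxf
    have hxt : Function.update D.W t S x = D.W x := Function.update_of_ne hx.ne _ _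
    have hft : Function.update D.W t S f = D.W f :=
      Function.update_of_ne (h.phi.hFd f h1).1.ne _ _
    refine ⟨h1, ⟨?_, ?_, ?_, ?_⟩, ?_⟩
    · show Function.update D.W t S x ⊆ D.U
      rw [hxt]; exact h2.hWU
    · show (Function.update D.W t S x).card = P.w
      rw [hxt]; exact h2.hWc
    · show ∀ u ∈ Function.update D.W t S x, g.Adj x u
      rw [hxt]; exact h2.hWa
    · show ∀ y ∈ D.Z, (Function.update D.W t S x ∩ D.Dst y).card * P.r0 ≤ P.w
      rw [hxt]; exact h2.hWs
    · have e1 : lam P { D with W := Function.update D.W t S } x = lam P D x := by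
        funext y
        unfold lam
        show (∑ u ∈ Function.update D.W t S x, D.om u y) / (P.w : ℝ) = _
        rw [hxt]
      have e2 : lam P { D with W := Function.update D.W t S } f = lam P D f := by
        funext y
        unfold lam
        show (∑ u ∈ Function.update D.W t S f, D.om u y) / (P.w : ℝ) = _
        rw [hft]
      rw [e1, e2]
      exact h3
  · intro f hf f' hf' hne
    have e : ∀ f ∈ D.Fd, lam P { D with W := Function.update D.W t S } f = lam P D f := by
      intro f hf
      have hft : Function.update D.W t S f = D.W f :=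
        Function.update_of_ne (h.phi.hFd f hf).1.ne _ _
      funext y
      unfold lam
      show (∑ u ∈ Function.update D.W t S f, D.om u y) / (P.w : ℝ) = _
      rw [hft]
    rw [e f hf, e f' hf']
    exact h.phi.hfar f hf f' hf' hne

lemma pdist_self (Hs : Finset (ℕ → Fin 3)) (m : (ℕ → Fin 3) → ℝ) (Z : Finset ℕ)
    (l : ℕ → ℝ) : pdist Hs m Z l l = 0 := by
  unfold pdist
  simp

lemma pdist_comm (Hs : Finset (ℕ → Fin 3)) (m : (ℕ → Fin 3) → ℝ) (Z : Finset ℕ)
    (l l' : ℕ → ℝ) : pdist Hs m Z l l' = pdist Hs m Z l' l := by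
  unfold pdist
  apply Finset.sum_congr rfl
  intro H _
  congr 1
  apply Finset.sum_congr rfl
  intro c _
  ring

lemma mass_nonneg (P : Par) (D : MD) : 0 ≤ mass P D :=
  Finset.sum_nonneg (fun H _ => (mu_pos P D H).le)

/-- Joining the class of the founder `f`. -/
lemma MI.stepD1 (h : MI P g t c D) {f : ℕ} {Fd' : Finset ℕ} {b : ℕ × ℕ × ℕ}
    (hFd : D.Fd ⊆ Fd') (hf : f ∈ Fd') (hFd' : ∀ f' ∈ Fd', f' ∈ D.Fd ∨ (f' = t ∧ f = t))
    (hspr : Spr P g D t)
    (hnear : pdist D.Hs (mu P D) D.Z (lam P D t) (lam P D f) ≤ P.xi2 * mass P D)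
    (hfar : ∀ f1 ∈ Fd', ∀ f2 ∈ Fd', f1 ≠ f2 →
      P.xi2 * mass P D < pdist D.Hs (mu P D) D.Z (lam P D f1) (lam P D f2))
    (hb : InvOG P.s0 P.d g (insert t (clsOf c t (3, D.m + D.C, f)))
      (Function.update (fun x => (c x).2) t b)) :
    MI P g (t + 1) (Function.update c t ((3, D.m + D.C, f), b)) { D with Fd := Fd' } := by
  have hg := h.geo.succ
  refine ⟨⟨hg.hU, hg.hUc, hg.hZ, hg.hZc, hg.hD, hg.hom, hg.hHs, hg.hM⟩, ?_, ?_⟩
  · refine h.col.upd (Finset.Subset.refl _) (fun _ _ => rfl)
      (Or.inr (Or.inr (Or.inr ⟨D.m + D.C, le_rfl, f, rfl⟩))) (by simp) (by simp) ?_ ?_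
    · intro y _ h1
      simp at h1
    · intro p f' h1
      simp only [Prod.mk.injEq, true_and] at h1
      obtain ⟨h1, h2⟩ := h1
      subst h2
      rw [← h1, snd_upd]
      exact hb
  · constructor
    · intro y hy f'
      rw [Function.update_of_ne (Finset.mem_range.1 (h.geo.hZ hy)).ne]
      exact h.phi.hZcls y hy f'
    · intro f' hf'
      rcases hFd' f' hf' with h1 | ⟨h1, h2⟩
      · obtain ⟨h2, h3⟩ := h.phi.hFd f' h1
        exact ⟨by omega, by rw [Function.update_of_ne h2.ne]; exact h3⟩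
      · subst h1
        rw [Function.update_self, h2]
        exact ⟨Nat.lt_succ_self _, rfl⟩
    · intro x hx f' hxf
      rcases Nat.lt_succ_iff_lt_or_eq.1 hx with h3 | h3
      · rw [Function.update_of_ne h3.ne] at hxf
        obtain ⟨h4, h5, h6⟩ := h.phi.hcur x h3 f' hxf
        exact ⟨hFd h4, ⟨h5.hWU, h5.hWc, h5.hWa, h5.hWs⟩, h6⟩
      · subst h3
        rw [Function.update_self] at hxf
        have hff : f = f' := by
          have : ((3, D.m + D.C, f) : ℕ × ℕ × ℕ) = (3, D.m + D.C, f') := hxf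
          simpa using this
        subst hff
        exact ⟨hf, ⟨hspr.hWU, hspr.hWc, hspr.hWa, hspr.hWs⟩, hnear⟩
    · exact hfar
    · intro p hp
      rw [fnd_upd _ p (by
        intro _
        show D.m + D.C ≠ p
        exact hp.ne')]
      exact h.phi.hph p hp

/-- A conflict. -/
lemma MI.stepD2 (hP : ParOK P ξ) (h : MI P g t c D) {f : ℕ} {l : List ℕ}
    (hc : Conf P g (t + 1) D f l) :
    Inv P g (t + 1) (Function.update c t ((1, t, 0), (0, 0, 0))) := by
  have hg := hc.geo hP h.geo.succ
  refine ⟨D.conf P g (t + 1) l, hg, ?_, ?_⟩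
  · exact h.col.upd Finset.subset_union_left (fun y hy => if_pos hy) (Or.inr (Or.inl rfl))
      (by simp) (by show D.m + (D.C + 1) = _; simp; omega) (by intro y _ h1; simp at h1)
      (by intro p f h1; simp at h1)
  · refine PhI.newphase hP h ?_ rfl Finset.subset_union_left hg.hZ
    show D.m + (D.C + 1) = _
    omega

/-- A vertex that is neither first fit nor a first centre. -/
lemma MI.stepCD (hP : ParOK P ξ) (h : MI P g t c D) {h' : ℕ → Fin 3}
    (hh : Prp (rst g (range (t + 1))) h') {S : Finset ℕ} (hSU : S ⊆ D.U)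
    (hSc : S.card = P.w) (hSa : ∀ u ∈ S, g.Adj t u) :
    ∃ a, Inv P g (t + 1) (Function.update c t a) := by
  classical
  by_cases hheavy : ∃ y ∈ D.Z, P.w < (S ∩ D.Dst y).card * P.r0
  · obtain ⟨y, hy, hy2⟩ := hheavy
    refine h.stepC hP hh hy ?_
    rw [hP.hwr] at hy2
    have h1 : P.th < (S ∩ D.Dst y).card := lt_of_mul_lt_mul_right hy2 (Nat.zero_le _)
    have h2 : S ∩ D.Dst y ⊆ nbD g (D.Dst y) t := by
      intro u hu
      rw [Finset.mem_inter] at hu
      unfold nbD
      exact Finset.mem_filter.2 ⟨hu.2, hSa u hu.1⟩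
    exact h1.le.trans (Finset.card_le_card h2)
  · push Not at hheavy
    have hW := h.setW S
    set D1 : MD := { D with W := Function.update D.W t S } with hD1
    have hWt : D1.W t = S := Function.update_self _ _ _
    have hspr : Spr P g D1 t := by
      refine ⟨?_, ?_, ?_, ?_⟩
      · rw [hWt]; exact hSU
      · rw [hWt]; exact hSc
      · rw [hWt]; exact hSa
      · intro y hy
        rw [hWt]
        exact hheavy y hy
    have htFd : t ∉ D1.Fd := fun hh => absurd (hW.phi.hFd t hh).1 (lt_irrefl t)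
    obtain ⟨f, Fd', hFd, hf, hFd', hnear, hfar, hfW⟩ : ∃ f Fd', D1.Fd ⊆ Fd' ∧ f ∈ Fd' ∧
        (∀ f' ∈ Fd', f' ∈ D1.Fd ∨ (f' = t ∧ f = t)) ∧
        pdist D1.Hs (mu P D1) D1.Z (lam P D1 t) (lam P D1 f) ≤ P.xi2 * mass P D1 ∧
        (∀ f1 ∈ Fd', ∀ f2 ∈ Fd', f1 ≠ f2 → P.xi2 * mass P D1 <
          pdist D1.Hs (mu P D1) D1.Z (lam P D1 f1) (lam P D1 f2)) ∧
        (D1.W f ⊆ D1.U ∧ (D1.W f).card = P.w) := by
      by_cases hex : ∃ f ∈ D1.Fd,
          pdist D1.Hs (mu P D1) D1.Z (lam P D1 t) (lam P D1 f) ≤ P.xi2 * mass P D1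
      · obtain ⟨f, hf, hf2⟩ := hex
        have h1 := hW.phi.hcur f (hW.phi.hFd f hf).1 f (hW.phi.hFd f hf).2
        exact ⟨f, D1.Fd, Finset.Subset.refl _, hf, fun f' hf' => Or.inl hf', hf2,
          hW.phi.hfar, h1.2.1.hWU, h1.2.1.hWc⟩
      · push Not at hex
        refine ⟨t, insert t D1.Fd, Finset.subset_insert _ _, Finset.mem_insert_self _ _,
          ?_, ?_, ?_, hspr.hWU, hspr.hWc⟩
        · intro f' hf'
          rw [Finset.mem_insert] at hf'
          rcases hf' with h1 | h1
          · exact Or.inr ⟨h1, rfl⟩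
          · exact Or.inl h1
        · rw [pdist_self]
          exact mul_nonneg hP.hx.le (mass_nonneg _ _)
        · intro f1 hf1 f2 hf2 hne
          rw [Finset.mem_insert] at hf1 hf2
          rcases hf1 with rfl | hf1
          · rcases hf2 with rfl | hf2
            · exact absurd rfl hne
            · exact hex f2 hf2
          · rcases hf2 with rfl | hf2
            · rw [pdist_comm]
              exact hex f1 hf1
            · exact hW.phi.hfar f1 hf1 f2 hf2 hne
    by_cases hno : NoShortOdd 25 g (insert t (clsOf c t (3, D1.m + D1.C, f)))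
    · obtain ⟨b, hb⟩ := (hW.col.hOG (D1.m + D1.C) f).step
        (fun hh => absurd (mem_clsOf.1 hh).1 (lt_irrefl t)) hP.hs0 hP.hd hno
      exact ⟨_, _, hW.stepD1 hFd hf hFd' hspr hnear hfar hb⟩
    · unfold NoShortOdd at hno
      push Not at hno
      obtain ⟨x, q, hq1, hq2⟩ := hno
      have hmem : ∀ z ∈ q.support.tail, z = t ∨ (z < t ∧ (c z).1 = (3, D1.m + D1.C, f)) := by
        intro z hz
        have h1 : ∀ (a b : ℕ) (q : (rst g (insert t (clsOf c t (3, D1.m + D1.C, f)))).Walk a b),
            ∀ z ∈ q.support.tail, z ∈ insert t (clsOf c t (3, D1.m + D1.C, f)) := by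
          intro a b q
          induction q with
          | nil => intro z hz; simp at hz
          | cons hab p ih =>
            intro z hz
            rw [SimpleGraph.Walk.support_cons, List.tail_cons] at hz
            rw [← SimpleGraph.Walk.cons_tail_support] at hz
            rw [List.mem_cons] at hz
            rcases hz with rfl | hz
            · exact hab.2.2
            · exact ih z hz
        have h2 := h1 _ _ q z hz
        rw [Finset.mem_insert] at h2
        rcases h2 with h2 | h2
        · exact Or.inl h2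
        · exact Or.inr (mem_clsOf.1 h2)
      refine ⟨_, hW.stepD2 hP (f := f) (l := q.support.tail) ?_⟩
      constructor
      · rw [List.length_tail, SimpleGraph.Walk.length_support]
        omega
      · intro z hz
        rcases hmem z hz with h1 | h1
        · omega
        · omega
      · intro z hz hzZ
        rcases hmem z hz with h1 | h1
        · have := Finset.mem_range.1 (h.geo.hZ hzZ)
          omega
        · exact h.phi.hZcls z hzZ f h1.2
      · intro z hz
        rcases hmem z hz with h1 | h1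
        · rw [h1]
          exact ⟨hspr.hWU, hspr.hWc, hspr.hWa⟩
        · have h2 := (hW.phi.hcur z h1.1 f h1.2).2.1
          exact ⟨h2.hWU, h2.hWc, h2.hWa⟩
      · exact hfW
      · intro z hz
        rcases hmem z hz with h1 | h1
        · rw [h1]
          exact hnear
        · exact (hW.phi.hcur z h1.1 f h1.2).2.2
      · intro h2 hh2 p hp0 hp1
        have hr : insert t (clsOf c t (3, D1.m + D1.C, f)) ⊆ range (t + 1) :=
          Finset.insert_subset (Finset.self_mem_range_succ t)
            ((clsOf_sub _ _ _).trans (Finset.range_subset_range.2 (Nat.le_succ t)))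
        exact gain_walk (fun a b hab => hh2 a b (rst_mono hr hab)) hp0 hp1 q hq2

/-- The algorithm always finds a colour. -/
theorem Inv.step (hP : ParOK P ξ) (h : Inv P g t c)
    (hcol : ∃ h', Prp (rst g (range (t + 1))) h') :
    ∃ a, Inv P g (t + 1) (Function.update c t a) := by
  classical
  obtain ⟨D, h⟩ := h
  obtain ⟨h', hh⟩ := hcol
  by_cases hff : ∃ i < 2 * P.w, ∀ x < t, g.Adj t x → c x ≠ ((0, i, 0), (0, 0, 0))
  · obtain ⟨i, hi, hfree⟩ := hff
    exact ⟨_, _, h.stepA hi hfree⟩
  · push Not at hff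
    choose! F hF using hff
    set NS : Finset ℕ := (range t).filter (fun x => g.Adj t x) with hNS
    have hcard : 2 * P.w ≤ NS.card := by
      have h1 : ((range (2 * P.w)).image F).card = 2 * P.w := by
        rw [Finset.card_image_of_injOn, Finset.card_range]
        intro i hi j hj hij
        simp only [Finset.coe_range, Set.mem_Iio] at hi hj
        have h2 := (hF i hi).2.2
        have h3 := (hF j hj).2.2
        rw [hij, h3] at h2
        simp only [Prod.mk.injEq, and_true, true_and] at h2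
        exact h2.symm
      rw [← h1]
      refine Finset.card_le_card ?_
      intro x hx
      obtain ⟨i, hi, rfl⟩ := Finset.mem_image.1 hx
      rw [Finset.mem_range] at hi
      exact Finset.mem_filter.2 ⟨Finset.mem_range.2 (hF i hi).1, (hF i hi).2.1⟩
    have hsplit : NS.card = (NS \ D.U).card + (NS ∩ D.U).card :=
      (Finset.card_sdiff_add_card_inter NS D.U).symm
    rcases le_or_gt P.w (NS \ D.U).card with h1 | h1
    · obtain ⟨S, hS, hSc⟩ := Finset.exists_subset_card_eq h1
      refine ⟨_, h.stepB hP (S := S) ?_ ?_ hSc ?_⟩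
      · exact (hS.trans Finset.sdiff_subset).trans (Finset.filter_subset _ _)
      · exact (Finset.disjoint_of_subset_left hS Finset.sdiff_disjoint).symm
      · intro u hu
        exact (Finset.mem_filter.1 (Finset.sdiff_subset (hS hu))).2
    · have h2 : P.w ≤ (NS ∩ D.U).card := by omega
      obtain ⟨S, hS, hSc⟩ := Finset.exists_subset_card_eq h2
      refine h.stepCD hP hh (S := S) (hS.trans Finset.inter_subset_right) hSc ?_
      intro u hu
      exact (Finset.mem_filter.1 (Finset.inter_subset_left (hS hu))).2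

end step

end Pool.Agent.Lib.MP_2c0425_lc
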